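import Mathlib

set_option autoImplicit false

/-! Bounded differences inequality (finite uniform product spaces). -/

namespace Pool.Agent.Helper39.LCP

open scoped BigOperators

theorem one_dim {α : Type*} [Fintype α] [Nonempty α] (g : α → ℝ)
    (hg : ∀ a b, |g a - g b| ≤ 1) (l : ℝ) :
    ∑ a, Real.exp (l * (g a - (∑ b, g b) / (Fintype.card α : ℝ)))
      ≤ (Fintype.card α : ℝ) * Real.exp (l ^ 2 / 2) := by
  set c : ℝ := (Fintype.card α : ℝ) with hc
  have hc0 : 0 < c := by rw [hc]; exact_mod_cast Fintype.card_pos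
  set μ := (∑ b, g b) / c with hμ
  -- Jensen
  have hJ : c ≤ ∑ b, Real.exp (l * (μ - g b)) := by
    have h1 : ∀ b ∈ (Finset.univ : Finset α), l * (μ - g b) + 1 ≤ Real.exp (l * (μ - g b)) :=
      fun b _ => Real.add_one_le_exp _
    have h2 := Finset.sum_le_sum h1
    have h3 : ∑ b : α, (l * (μ - g b) + 1) = c := by
      rw [Finset.sum_add_distrib, ← Finset.mul_sum, Finset.sum_sub_distrib]
      simp only [Finset.sum_const, Finset.card_univ, nsmul_eq_mul, mul_one]
      rw [← hc, hμ]
      field_simp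
      ring
    linarith
  have h4 : ∀ a, c * Real.exp (l * (g a - μ)) ≤ ∑ b, Real.exp (l * (g a - g b)) := by
    intro a
    have : ∑ b, Real.exp (l * (g a - g b))
        = Real.exp (l * (g a - μ)) * ∑ b, Real.exp (l * (μ - g b)) := by
      rw [Finset.mul_sum]
      apply Finset.sum_congr rfl
      intro b _
      rw [← Real.exp_add]
      congr 1; ring
    rw [this, mul_comm]
    gcongr
  have h5 : ∑ a, ∑ b, Real.exp (l * (g a - g b)) ≤ c * (c * Real.exp (l ^ 2 / 2)) := by
    have hsym : ∑ a, ∑ b, Real.exp (l * (g a - g b))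
        = ∑ a, ∑ b, Real.cosh (l * (g a - g b)) := by
      have hsw : ∑ a, ∑ b, Real.exp (-(l * (g a - g b)))
          = ∑ a, ∑ b, Real.exp (l * (g a - g b)) := by
        rw [Finset.sum_comm]
        apply Finset.sum_congr rfl; intro a _
        apply Finset.sum_congr rfl; intro b _
        congr 1; ring
      have : ∑ a, ∑ b, Real.cosh (l * (g a - g b))
          = (∑ a, ∑ b, Real.exp (l * (g a - g b)) + ∑ a, ∑ b, Real.exp (-(l * (g a - g b)))) / 2 := by
        rw [← Finset.sum_add_distrib, Finset.sum_div]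
        apply Finset.sum_congr rfl; intro a _
        rw [← Finset.sum_add_distrib, Finset.sum_div]
        apply Finset.sum_congr rfl; intro b _
        rw [Real.cosh_eq]
      rw [this, hsw]; ring
    rw [hsym]
    calc ∑ a, ∑ b, Real.cosh (l * (g a - g b))
        ≤ ∑ _a : α, ∑ _b : α, Real.exp (l ^ 2 / 2) := by
          apply Finset.sum_le_sum; intro a _
          apply Finset.sum_le_sum; intro b _
          refine (Real.cosh_le_exp_half_sq _).trans ?_
          apply Real.exp_le_exp.mpr
          have h := hg a b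
          have h2 : (g a - g b) ^ 2 ≤ 1 := by
            rw [← sq_abs]; nlinarith [abs_nonneg (g a - g b)]
          have h3 : (l * (g a - g b)) ^ 2 ≤ l ^ 2 := by
            rw [mul_pow]; nlinarith [sq_nonneg l]
          linarith
      _ = c * (c * Real.exp (l ^ 2 / 2)) := by
          simp [Finset.sum_const, Finset.card_univ, nsmul_eq_mul, hc]
  have h6 : c * ∑ a, Real.exp (l * (g a - μ)) ≤ c * (c * Real.exp (l ^ 2 / 2)) := by
    rw [Finset.mul_sum]
    exact (Finset.sum_le_sum (fun a _ => h4 a)).trans h5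
  exact le_of_mul_le_mul_left h6 hc0

theorem sum_fin_succ {α : Type*} [Fintype α] (N : ℕ) (F : (Fin (N + 1) → α) → ℝ) :
    ∑ x, F x = ∑ a : α, ∑ x : Fin N → α, F (Fin.cons a x : Fin (N + 1) → α) := by
  rw [← (Fin.consEquiv (fun _ : Fin (N + 1) => α)).sum_comp F, Fintype.sum_prod_type]
  rfl

theorem mgf {α : Type*} [Fintype α] [Nonempty α] : ∀ (N : ℕ) (f : (Fin N → α) → ℝ),
    (∀ i x x', (∀ j, j ≠ i → x j = x' j) → |f x - f x'| ≤ 1) → ∀ l : ℝ,
    ∑ x, Real.exp (l * (f x - (∑ y, f y) / (Fintype.card α : ℝ) ^ N))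
      ≤ (Fintype.card α : ℝ) ^ N * Real.exp (l ^ 2 * N / 2) := by
  intro N
  induction N with
  | zero =>
    intro f _ l
    simp
  | succ N ih =>
    intro f hf l
    set c : ℝ := (Fintype.card α : ℝ) with hc
    have hc0 : 0 < c := by rw [hc]; exact_mod_cast Fintype.card_pos
    set g : α → ℝ := fun a => (∑ x : Fin N → α, f (Fin.cons a x : Fin (N + 1) → α)) / c ^ N with hg
    have hmean : (∑ y, f y) / c ^ (N + 1) = (∑ a, g a) / c := by
      rw [sum_fin_succ, hg, ← Finset.sum_div, pow_succ, div_div]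
    rw [hmean, sum_fin_succ]
    have hgd : ∀ a b, |g a - g b| ≤ 1 := by
      intro a b
      have : g a - g b = (∑ x : Fin N → α, (f (Fin.cons a x : Fin (N + 1) → α)
          - f (Fin.cons b x : Fin (N + 1) → α))) / c ^ N := by
        simp only [hg]
        rw [Finset.sum_sub_distrib, sub_div]
      rw [this, abs_div, abs_of_pos (pow_pos hc0 N), div_le_one (pow_pos hc0 N)]
      calc _ ≤ ∑ x : Fin N → α, |f (Fin.cons a x : Fin (N + 1) → α)
          - f (Fin.cons b x : Fin (N + 1) → α)| := Finset.abs_sum_le_sum_abs _ _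
        _ ≤ ∑ _x : Fin N → α, (1:ℝ) := by
          apply Finset.sum_le_sum
          intro x _
          apply hf 0
          intro j hj
          obtain ⟨j', rfl⟩ := Fin.exists_succ_eq.mpr hj
          simp
        _ = c ^ N := by
          simp [Finset.card_univ, hc]
    calc ∑ a, ∑ x : Fin N → α, Real.exp (l * (f (Fin.cons a x : Fin (N + 1) → α) - (∑ a, g a) / c))
        = ∑ a, Real.exp (l * (g a - (∑ a, g a) / c)) *
            ∑ x : Fin N → α, Real.exp (l * (f (Fin.cons a x : Fin (N + 1) → α) - g a)) := by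
          apply Finset.sum_congr rfl; intro a _
          rw [Finset.mul_sum]
          apply Finset.sum_congr rfl; intro x _
          rw [← Real.exp_add]
          congr 1; ring
      _ ≤ ∑ a, Real.exp (l * (g a - (∑ a, g a) / c)) * (c ^ N * Real.exp (l ^ 2 * N / 2)) := by
          apply Finset.sum_le_sum; intro a _
          gcongr
          apply ih (fun x => f (Fin.cons a x : Fin (N + 1) → α))
          intro i x x' hxx
          apply hf i.succ
          intro j hj
          refine Fin.cases ?_ (fun j' => ?_) j hj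
          · intro _; simp
          · intro hj'
            simp only [Fin.cons_succ]
            exact hxx j' (fun h => hj' (by rw [h]))
      _ = (∑ a, Real.exp (l * (g a - (∑ a, g a) / c))) * (c ^ N * Real.exp (l ^ 2 * N / 2)) := by
          rw [Finset.sum_mul]
      _ ≤ (c * Real.exp (l ^ 2 / 2)) * (c ^ N * Real.exp (l ^ 2 * N / 2)) := by
          gcongr
          exact one_dim g hgd l
      _ = c ^ (N + 1) * Real.exp (l ^ 2 * ((N + 1 : ℕ) : ℝ) / 2) := by
          have : l ^ 2 * ((N + 1 : ℕ) : ℝ) / 2 = l ^ 2 / 2 + l ^ 2 * N / 2 := by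
            push_cast; ring
          rw [this, Real.exp_add, pow_succ]; ring

/-- lower tail bound: if `f ≥ 0` is `1`-Lipschitz coordinatewise, with mean `μ ≥ 0`, then
`#{f ≤ 0} ≤ |α|^N exp (-μ²/(2N))`. -/
theorem tail_fin {α : Type*} [Fintype α] [Nonempty α] (N : ℕ) (hN : 0 < N) (f : (Fin N → α) → ℝ)
    (hf : ∀ i x x', (∀ j, j ≠ i → x j = x' j) → |f x - f x'| ≤ 1)
    (μ : ℝ) (hμ : μ = (∑ y, f y) / (Fintype.card α : ℝ) ^ N) (hμ0 : 0 ≤ μ)
    (B : Finset (Fin N → α)) (hB : ∀ x ∈ B, f x ≤ 0) :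
    (B.card : ℝ) ≤ (Fintype.card α : ℝ) ^ N * Real.exp (- μ ^ 2 / (2 * N)) := by
  have hNr : (0:ℝ) < N := by exact_mod_cast hN
  have h1 := mgf N f hf (-(μ / N))
  rw [← hμ] at h1
  have h2 : (B.card : ℝ) * Real.exp ((μ / N) * μ) ≤
      ∑ x, Real.exp (-(μ / N) * (f x - μ)) := by
    calc (B.card : ℝ) * Real.exp ((μ / N) * μ) = ∑ x ∈ B, Real.exp ((μ / N) * μ) := by
          rw [Finset.sum_const, nsmul_eq_mul]
      _ ≤ ∑ x ∈ B, Real.exp (-(μ / N) * (f x - μ)) := by
          apply Finset.sum_le_sum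
          intro x hx
          apply Real.exp_le_exp.mpr
          have := hB x hx
          have h3 : 0 ≤ μ / N := by positivity
          nlinarith
      _ ≤ ∑ x, Real.exp (-(μ / N) * (f x - μ)) := by
          apply Finset.sum_le_sum_of_subset_of_nonneg (Finset.subset_univ _)
          intro x _ _; positivity
  have h3 := h2.trans h1
  have h4 : (B.card : ℝ) ≤ ((Fintype.card α : ℝ) ^ N * Real.exp ((-(μ / N)) ^ 2 * N / 2))
      * Real.exp (-((μ / N) * μ)) := by
    have h5 : (B.card : ℝ) = ((B.card : ℝ) * Real.exp ((μ / N) * μ)) * Real.exp (-((μ / N) * μ)) := by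
      rw [mul_assoc, ← Real.exp_add]; simp
    rw [h5]
    gcongr
  refine h4.trans (le_of_eq ?_)
  rw [mul_assoc, ← Real.exp_add]
  congr 2
  field_simp
  ring

/-- transfer to an arbitrary finite index type -/
theorem tail {ι α : Type*} [Fintype ι] [DecidableEq ι] [Fintype α] [Nonempty α]
    (hN : 0 < Fintype.card ι) (f : (ι → α) → ℝ)
    (hf : ∀ i x x', (∀ j, j ≠ i → x j = x' j) → |f x - f x'| ≤ 1)
    (μ : ℝ) (hμ : μ = (∑ y, f y) / (Fintype.card α : ℝ) ^ (Fintype.card ι)) (hμ0 : 0 ≤ μ)
    (B : Finset (ι → α)) (hB : ∀ x ∈ B, f x ≤ 0) :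
    (B.card : ℝ) ≤ (Fintype.card α : ℝ) ^ (Fintype.card ι)
      * Real.exp (- μ ^ 2 / (2 * (Fintype.card ι : ℝ))) := by
  classical
  set N := Fintype.card ι with hNdef
  let e : ι ≃ Fin N := Fintype.equivFin ι
  let E : (Fin N → α) ≃ (ι → α) := (Equiv.arrowCongr e (Equiv.refl α)).symm
  have hE : ∀ x : Fin N → α, ∀ i, E x i = x (e i) := fun x i => rfl
  have h := tail_fin N hN (fun x => f (E x)) (by
    intro i x x' hxx
    apply hf (e.symm i)
    intro j hj
    rw [hE, hE]
    apply hxx
    intro h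
    apply hj
    rw [← h]; simp) μ (by
    rw [hμ]
    congr 1
    exact (E.sum_comp f).symm) hμ0 (B.map E.symm.toEmbedding) (by
    intro x hx
    rw [Finset.mem_map] at hx
    obtain ⟨y, hy, rfl⟩ := hx
    simpa using hB y hy)
  rwa [Finset.card_map] at h

end Pool.Agent.Helper39.LCP
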