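import Mathlib

set_option autoImplicit false

/-! One-row computations. -/

namespace Pool.Agent.Helper39.LCP

open scoped BigOperators

section

variable {h : ℕ} {C : Type*} [Fintype C] [DecidableEq C]

/-- number of points of the row `v` in column `c` -/
def cnt (v : Fin h → C) (c : C) : ℝ := ∑ t, (if v t = c then (1:ℝ) else 0)

theorem cnt_nonneg (v : Fin h → C) (c : C) : 0 ≤ cnt v c := by
  unfold cnt
  apply Finset.sum_nonneg
  intro t _
  split_ifs <;> norm_num

theorem exists_of_cnt_ne_zero (v : Fin h → C) (c : C) (hc : cnt v c ≠ 0) : ∃ t, v t = c := by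
  by_contra hcon
  push Not at hcon
  apply hc
  unfold cnt
  apply Finset.sum_eq_zero
  intro t _
  rw [if_neg (hcon t)]

theorem sum_ind (hC : 0 < Fintype.card C) (t : Fin h) (c : C) :
    ∑ v : Fin h → C, (if v t = c then (1:ℝ) else 0)
      = (Fintype.card C : ℝ) ^ h / (Fintype.card C : ℝ) := by
  have hCr : (0:ℝ) < (Fintype.card C : ℝ) := by exact_mod_cast hC
  have h1 : ∀ v : Fin h → C, (if v t = c then (1:ℝ) else 0)
      = ∏ s, (if s = t then (if v s = c then (1:ℝ) else 0) else 1) := by
    intro v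
    rw [Finset.prod_ite_eq' Finset.univ t (fun s => if v s = c then (1:ℝ) else 0)]
    simp
  rw [Finset.sum_congr rfl (fun v _ => h1 v)]
  rw [← Fintype.prod_sum (fun (s : Fin h) (d : C) =>
    (if s = t then (if d = c then (1:ℝ) else 0) else 1))]
  have h2 : ∀ s : Fin h, ∑ d : C, (if s = t then (if d = c then (1:ℝ) else 0) else 1)
      = if s = t then 1 else (Fintype.card C : ℝ) := by
    intro s
    split_ifs with hs
    · simp
    · simp
  rw [Finset.prod_congr rfl (fun s _ => h2 s)]
  rw [Finset.prod_ite, Finset.prod_const_one, one_mul, Finset.prod_const]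
  have h3 : (Finset.univ.filter (fun s : Fin h => ¬ s = t)).card = h - 1 := by
    rw [Finset.filter_ne' Finset.univ t, Finset.card_erase_of_mem (Finset.mem_univ _)]
    simp
  rw [h3, eq_div_iff hCr.ne', ← pow_succ]
  congr 1
  have := t.2
  omega

theorem sum_ind2 (hC : 0 < Fintype.card C) (t t' : Fin h) (htt : t ≠ t') (c c' : C) :
    ∑ v : Fin h → C, ((if v t = c then (1:ℝ) else 0) * (if v t' = c' then (1:ℝ) else 0))
      = (Fintype.card C : ℝ) ^ h / (Fintype.card C : ℝ) ^ 2 := by
  have hCr : (0:ℝ) < (Fintype.card C : ℝ) := by exact_mod_cast hC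
  have h1 : ∀ v : Fin h → C,
      ((if v t = c then (1:ℝ) else 0) * (if v t' = c' then (1:ℝ) else 0))
      = ∏ s, ((if s = t then (if v s = c then (1:ℝ) else 0) else 1) *
          (if s = t' then (if v s = c' then (1:ℝ) else 0) else 1)) := by
    intro v
    rw [Finset.prod_mul_distrib,
      Finset.prod_ite_eq' Finset.univ t (fun s => if v s = c then (1:ℝ) else 0),
      Finset.prod_ite_eq' Finset.univ t' (fun s => if v s = c' then (1:ℝ) else 0)]
    simp
  rw [Finset.sum_congr rfl (fun v _ => h1 v)]
  rw [← Fintype.prod_sum (fun (s : Fin h) (d : C) =>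
    ((if s = t then (if d = c then (1:ℝ) else 0) else 1) *
          (if s = t' then (if d = c' then (1:ℝ) else 0) else 1)))]
  have h2 : ∀ s : Fin h, ∑ d : C, ((if s = t then (if d = c then (1:ℝ) else 0) else 1) *
          (if s = t' then (if d = c' then (1:ℝ) else 0) else 1))
      = if s = t ∨ s = t' then 1 else (Fintype.card C : ℝ) := by
    intro s
    by_cases hs : s = t
    · subst hs
      simp [htt]
    · by_cases hs' : s = t'
      · subst hs'
        simp [hs]
      · simp [hs, hs']
  rw [Finset.prod_congr rfl (fun s _ => h2 s)]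
  rw [Finset.prod_ite, Finset.prod_const_one, one_mul, Finset.prod_const]
  have h3 : (Finset.univ.filter (fun s : Fin h => ¬ (s = t ∨ s = t'))).card = h - 2 := by
    have : (Finset.univ.filter (fun s : Fin h => ¬ (s = t ∨ s = t')))
        = Finset.univ \ ({t, t'} : Finset (Fin h)) := by
      ext s; simp
    rw [this, Finset.card_sdiff_of_subset (Finset.subset_univ _), Finset.card_pair htt]
    simp
  have h4 : 2 ≤ h := by
    have h5 := Finset.card_le_univ ({t, t'} : Finset (Fin h))
    rw [Finset.card_pair htt] at h5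
    simpa using h5
  rw [h3, eq_div_iff (pow_ne_zero 2 hCr.ne'), ← pow_add]
  congr 1
  omega

theorem sum_cnt (hC : 0 < Fintype.card C) (c : C) :
    ∑ v : Fin h → C, cnt v c = (Fintype.card C : ℝ) ^ h * ((h:ℝ) / (Fintype.card C : ℝ)) := by
  unfold cnt
  rw [Finset.sum_comm, Finset.sum_congr rfl (fun t _ => sum_ind hC t c)]
  rw [Finset.sum_const, Finset.card_univ, Fintype.card_fin, nsmul_eq_mul]
  ring

theorem sum_cnt_ne (hC : 0 < Fintype.card C) (c c' : C) (hcc : c ≠ c') :
    ∑ v : Fin h → C, cnt v c * cnt v c'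
      ≤ (Fintype.card C : ℝ) ^ h * ((h:ℝ) / (Fintype.card C : ℝ)) ^ 2 := by
  have hCr : (0:ℝ) < (Fintype.card C : ℝ) := by exact_mod_cast hC
  have h1 : ∑ v : Fin h → C, cnt v c * cnt v c'
      = ∑ t : Fin h, ∑ t' : Fin h, ∑ v : Fin h → C,
        ((if v t = c then (1:ℝ) else 0) * (if v t' = c' then (1:ℝ) else 0)) := by
    unfold cnt
    simp_rw [Finset.sum_mul_sum]
    rw [Finset.sum_comm]
    apply Finset.sum_congr rfl; intro t _
    rw [Finset.sum_comm]
  rw [h1]
  have h2 : ∀ t t' : Fin h, ∑ v : Fin h → C,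
        ((if v t = c then (1:ℝ) else 0) * (if v t' = c' then (1:ℝ) else 0))
      ≤ (Fintype.card C : ℝ) ^ h / (Fintype.card C : ℝ) ^ 2 := by
    intro t t'
    by_cases htt : t = t'
    · subst htt
      have : ∀ v : Fin h → C,
          ((if v t = c then (1:ℝ) else 0) * (if v t = c' then (1:ℝ) else 0)) = 0 := by
        intro v
        by_cases hv : v t = c
        · have : ¬ v t = c' := by rw [hv]; exact hcc
          simp [this]
        · simp [hv]
      rw [Finset.sum_congr rfl (fun v _ => this v), Finset.sum_const_zero]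
      positivity
    · exact (sum_ind2 hC t t' htt c c').le
  calc _ ≤ ∑ _t : Fin h, ∑ _t' : Fin h, (Fintype.card C : ℝ) ^ h / (Fintype.card C : ℝ) ^ 2 :=
        Finset.sum_le_sum (fun t _ => Finset.sum_le_sum (fun t' _ => h2 t t'))
    _ = _ := by
        simp only [Finset.sum_const, Finset.card_univ, Fintype.card_fin, nsmul_eq_mul]
        ring

theorem sum_cnt_sq (hC : 0 < Fintype.card C) (hh : 0 < h) (c : C) :
    ∑ v : Fin h → C, cnt v c * cnt v c
      ≤ (Fintype.card C : ℝ) ^ h * (((h:ℝ) / (Fintype.card C : ℝ)) ^ 2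
        * (1 + (Fintype.card C : ℝ) / h)) := by
  have hCr : (0:ℝ) < (Fintype.card C : ℝ) := by exact_mod_cast hC
  have hhr : (0:ℝ) < (h : ℝ) := by exact_mod_cast hh
  have h1 : ∑ v : Fin h → C, cnt v c * cnt v c
      = ∑ t : Fin h, ∑ t' : Fin h, ∑ v : Fin h → C,
        ((if v t = c then (1:ℝ) else 0) * (if v t' = c then (1:ℝ) else 0)) := by
    unfold cnt
    simp_rw [Finset.sum_mul_sum]
    rw [Finset.sum_comm]
    apply Finset.sum_congr rfl; intro t _
    rw [Finset.sum_comm]
  rw [h1]
  have h2 : ∀ t t' : Fin h, ∑ v : Fin h → C,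
        ((if v t = c then (1:ℝ) else 0) * (if v t' = c then (1:ℝ) else 0))
      ≤ (Fintype.card C : ℝ) ^ h / (Fintype.card C : ℝ) ^ 2
        + (if t = t' then (Fintype.card C : ℝ) ^ h / (Fintype.card C : ℝ) else 0) := by
    intro t t'
    by_cases htt : t = t'
    · subst htt
      have : ∀ v : Fin h → C,
          ((if v t = c then (1:ℝ) else 0) * (if v t = c then (1:ℝ) else 0))
            = (if v t = c then (1:ℝ) else 0) := by
        intro v
        by_cases hv : v t = c <;> simp [hv]
      rw [Finset.sum_congr rfl (fun v _ => this v), sum_ind hC]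
      simp only [if_true]
      have : 0 ≤ (Fintype.card C : ℝ) ^ h / (Fintype.card C : ℝ) ^ 2 := by positivity
      linarith
    · rw [if_neg htt, add_zero]
      exact (sum_ind2 hC t t' htt c c).le
  calc _ ≤ ∑ t : Fin h, ∑ t' : Fin h, ((Fintype.card C : ℝ) ^ h / (Fintype.card C : ℝ) ^ 2
        + (if t = t' then (Fintype.card C : ℝ) ^ h / (Fintype.card C : ℝ) else 0)) :=
        Finset.sum_le_sum (fun t _ => Finset.sum_le_sum (fun t' _ => h2 t t'))
    _ = _ := by
        simp only [Finset.sum_add_distrib, Finset.sum_const, Finset.card_univ, Fintype.card_fin,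
          nsmul_eq_mul, Finset.sum_ite_eq, Finset.mem_univ, if_true]
        field_simp

end

end Pool.Agent.Helper39.LCP
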