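import Mathlib
import Pool.Agent.Helper39.Rows

set_option autoImplicit false

/-! First and second moments of the structured count, row by row. -/

namespace Pool.Agent.Helper39.LCP

open scoped BigOperators

/-- windows -/
abbrev Win (L K' : ℕ) := Fin L × Fin K'
/-- rows and columns: (window, offset) -/
abbrev Grid (L K' q : ℕ) := (Fin L × Fin K') × Fin q
/-- slots: (window, index in the window) -/
abbrev Slot (L K' : ℕ) := (Fin L × Fin K') × Fin L
/-- structured objects -/
abbrev Obj (L K' : ℕ) (Wn : Type) :=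
  (Win L K' → Wn) × (Win L K' → Wn) × (Fin L → (Win L K' ≃ Fin K' × Fin L))

section

variable {m L K' q h : ℕ} {Wn : Type} (pos : Wn → Fin m → Fin L → Fin q)

/-- row used in matrix `j` by slot `z` -/
def rowA (A : Obj L K' Wn) (j : Fin m) (z : Slot L K') : Grid L K' q :=
  (z.1, pos (A.1 z.1) j z.2)

/-- the `y`-slot attached to the `x`-slot `z` -/
def ySlot (A : Obj L K' Wn) (z : Slot L K') : Slot L K' :=
  ((z.2, (A.2.2 z.2 z.1).1), (A.2.2 z.2 z.1).2)

/-- column used in matrix `j` by slot `z` -/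
def colA (A : Obj L K' Wn) (j : Fin m) (z : Slot L K') : Grid L K' q :=
  ((ySlot A z).1, pos (A.2.1 (ySlot A z).1) j (ySlot A z).2)

theorem ySlot_injective (A : Obj L K' Wn) : Function.Injective (ySlot A) := by
  rintro ⟨i, s⟩ ⟨i', s'⟩ hz
  unfold ySlot at hz
  simp only [Prod.mk.injEq] at hz
  obtain ⟨⟨h1, h2⟩, h3⟩ := hz
  subst h1
  have : A.2.2 s i = A.2.2 s i' := Prod.ext h2 h3
  rw [(A.2.2 s).injective this]

/-- weight of the object `A` -/
def Zf (A : Obj L K' Wn) (y : Fin m × Grid L K' q → (Fin h → Grid L K' q)) : ℝ :=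
  ∏ j, ∏ z : Slot L K', cnt (y (j, rowA pos A j z)) (colA pos A j z)

/-- row factor -/
def phi (A : Obj L K' Wn) (ρ : Fin m × Grid L K' q) (v : Fin h → Grid L K' q) : ℝ :=
  ∏ z ∈ Finset.univ.filter (fun z => rowA pos A ρ.1 z = ρ.2), cnt v (colA pos A ρ.1 z)

theorem Zf_eq (A : Obj L K' Wn) (y : Fin m × Grid L K' q → (Fin h → Grid L K' q)) :
    Zf pos A y = ∏ ρ, phi pos A ρ (y ρ) := by
  rw [Fintype.prod_prod_type]
  unfold Zf
  apply Finset.prod_congr rfl
  intro j _
  rw [← Finset.prod_fiberwise Finset.univ (fun z => rowA pos A j z)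
    (fun z => cnt (y (j, rowA pos A j z)) (colA pos A j z))]
  apply Finset.prod_congr rfl
  intro r _
  unfold phi
  apply Finset.prod_congr rfl
  intro z hz
  rw [Finset.mem_filter] at hz
  rw [hz.2]

/-- number of slots at a row (0 or 1) -/
def deg (A : Obj L K' Wn) (ρ : Fin m × Grid L K' q) : ℕ :=
  (Finset.univ.filter (fun z => rowA pos A ρ.1 z = ρ.2)).card

theorem sum_deg (A : Obj L K' Wn) : ∑ ρ, deg pos A ρ = m * (L * K' * L) := by
  rw [Fintype.sum_prod_type]
  have : ∀ j : Fin m, ∑ r, deg pos A (j, r) = L * K' * L := by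
    intro j
    unfold deg
    rw [← Finset.card_eq_sum_card_fiberwise (f := fun z => rowA pos A j z) (s := Finset.univ)
      (t := Finset.univ) (fun _ _ => Finset.mem_coe.mpr (Finset.mem_univ _))]
    simp
  rw [Finset.sum_congr rfl (fun j _ => this j)]
  simp

variable (hpos : ∀ w j, Function.Injective (pos w j))

include hpos

theorem rowA_injective (A : Obj L K' Wn) (j : Fin m) : Function.Injective (rowA pos A j) := by
  rintro ⟨i, s⟩ ⟨i', s'⟩ hz
  unfold rowA at hz
  simp only [Prod.mk.injEq] at hz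
  obtain ⟨h1, h2⟩ := hz
  subst h1
  rw [hpos _ _ h2]

theorem fiber_cases (A : Obj L K' Wn) (ρ : Fin m × Grid L K' q) :
    (Finset.univ.filter (fun z => rowA pos A ρ.1 z = ρ.2)) = ∅ ∨
    ∃ z0, rowA pos A ρ.1 z0 = ρ.2 ∧
      (Finset.univ.filter (fun z => rowA pos A ρ.1 z = ρ.2)) = {z0} := by
  rcases (Finset.univ.filter (fun z => rowA pos A ρ.1 z = ρ.2)).eq_empty_or_nonempty with
    h | ⟨z0, hz0⟩
  · exact Or.inl h
  · right
    have hz0' := (Finset.mem_filter.mp hz0).2
    refine ⟨z0, hz0', ?_⟩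
    ext z
    rw [Finset.mem_filter, Finset.mem_singleton]
    constructor
    · rintro ⟨_, hz⟩
      exact rowA_injective pos hpos A ρ.1 (hz.trans hz0'.symm)
    · rintro rfl
      exact ⟨Finset.mem_univ _, hz0'⟩

theorem sum_phi (hC : 0 < Fintype.card (Grid L K' q)) (A : Obj L K' Wn)
    (ρ : Fin m × Grid L K' q) :
    ∑ v : Fin h → Grid L K' q, phi pos A ρ v
      = (Fintype.card (Grid L K' q) : ℝ) ^ h
        * ((h:ℝ) / (Fintype.card (Grid L K' q) : ℝ)) ^ (deg pos A ρ) := by
  unfold phi deg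
  rcases fiber_cases pos hpos A ρ with h0 | ⟨z0, _, h0⟩
  · rw [h0]
    simp
  · rw [h0]
    simp only [Finset.prod_singleton, Finset.card_singleton, pow_one]
    exact sum_cnt hC _

/-- matching rows -/
def mt (A B : Obj L K' Wn) (ρ : Fin m × Grid L K' q) : Prop :=
  ∃ z z', rowA pos A ρ.1 z = ρ.2 ∧ rowA pos B ρ.1 z' = ρ.2 ∧
    colA pos A ρ.1 z = colA pos B ρ.1 z'

open Classical in
theorem sum_phi_mul (hC : 0 < Fintype.card (Grid L K' q)) (hh : 0 < h) (A B : Obj L K' Wn)
    (ρ : Fin m × Grid L K' q) :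
    ∑ v : Fin h → Grid L K' q, phi pos A ρ v * phi pos B ρ v
      ≤ (Fintype.card (Grid L K' q) : ℝ) ^ h
        * (((h:ℝ) / (Fintype.card (Grid L K' q) : ℝ)) ^ (deg pos A ρ + deg pos B ρ)
          * (if mt pos A B ρ then (1 + (Fintype.card (Grid L K' q) : ℝ) / h) else 1)) := by
  have hCr : (0:ℝ) < (Fintype.card (Grid L K' q) : ℝ) := by exact_mod_cast hC
  have hhr : (0:ℝ) < (h : ℝ) := by exact_mod_cast hh
  set c : ℝ := (Fintype.card (Grid L K' q) : ℝ) with hc
  have hge1 : (1:ℝ) ≤ (if mt pos A B ρ then (1 + c / h) else 1) := by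
    split_ifs
    · have : 0 < c / h := by positivity
      linarith
    · exact le_refl _
  rcases fiber_cases pos hpos A ρ with hA | ⟨z0, hz0, hA⟩
  · rcases fiber_cases pos hpos B ρ with hB | ⟨z1, hz1, hB⟩
    · unfold phi deg
      rw [hA, hB]
      simp only [Finset.prod_empty, mul_one, Finset.sum_const, Finset.card_univ, Finset.card_empty,
        add_zero, pow_zero, one_mul, nsmul_eq_mul]
      have : ((Fintype.card (Fin h → Grid L K' q) : ℕ) : ℝ) = c ^ h := by
        rw [Fintype.card_fun, Fintype.card_fin, hc]; push_cast; ring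
      rw [this]
      nlinarith [pow_pos hCr h]
    · unfold phi deg
      rw [hA, hB]
      simp only [Finset.prod_empty, one_mul, Finset.prod_singleton, Finset.card_empty,
        Finset.card_singleton, zero_add, pow_one]
      rw [sum_cnt hC]
      rw [← hc]
      have h1 : 0 ≤ c ^ h * (h / c) := by positivity
      nlinarith
  · rcases fiber_cases pos hpos B ρ with hB | ⟨z1, hz1, hB⟩
    · unfold phi deg
      rw [hA, hB]
      simp only [Finset.prod_empty, mul_one, Finset.prod_singleton, Finset.card_empty,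
        Finset.card_singleton, add_zero, pow_one]
      rw [sum_cnt hC]
      rw [← hc]
      have h1 : 0 ≤ c ^ h * (h / c) := by positivity
      nlinarith
    · have hd : deg pos A ρ + deg pos B ρ = 2 := by
        unfold deg; rw [hA, hB]; simp
      have hAv : ∀ v : Fin h → Grid L K' q, phi pos A ρ v = cnt v (colA pos A ρ.1 z0) := by
        intro v; unfold phi; rw [hA]; simp
      have hBv : ∀ v : Fin h → Grid L K' q, phi pos B ρ v = cnt v (colA pos B ρ.1 z1) := by
        intro v; unfold phi; rw [hB]; simp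
      simp_rw [hAv, hBv]
      rw [hd]
      by_cases hcol : colA pos A ρ.1 z0 = colA pos B ρ.1 z1
      · have hmt : mt pos A B ρ := ⟨z0, z1, hz0, hz1, hcol⟩
        rw [if_pos hmt, hcol]
        exact sum_cnt_sq hC hh _
      · have h1 := sum_cnt_ne (h := h) hC _ _ hcol
        refine h1.trans ?_
        rw [← hc]
        have h2 : 0 ≤ c ^ h * ((h / c) ^ 2) := by positivity
        calc c ^ h * (h / c) ^ 2 = (c ^ h * (h / c) ^ 2) * 1 := by ring
          _ ≤ (c ^ h * (h / c) ^ 2) * (if mt pos A B ρ then (1 + c / h) else 1) := by gcongr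
          _ = _ := by ring

theorem sum_Zf (hC : 0 < Fintype.card (Grid L K' q)) (A : Obj L K' Wn) :
    ∑ y : Fin m × Grid L K' q → (Fin h → Grid L K' q), Zf pos A y
      = ((Fintype.card (Grid L K' q) : ℝ) ^ h) ^ (Fintype.card (Fin m × Grid L K' q))
        * ((h:ℝ) / (Fintype.card (Grid L K' q) : ℝ)) ^ (m * (L * K' * L)) := by
  simp_rw [Zf_eq]
  rw [← Fintype.prod_sum (fun ρ (v : Fin h → Grid L K' q) => phi pos A ρ v)]
  rw [Finset.prod_congr rfl (fun ρ _ => sum_phi pos hpos hC A ρ), Finset.prod_mul_distrib,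
    Finset.prod_const, Finset.card_univ, Finset.prod_pow_eq_pow_sum, sum_deg]

open Classical in
theorem sum_Zf_mul (hC : 0 < Fintype.card (Grid L K' q)) (hh : 0 < h) (A B : Obj L K' Wn) :
    ∑ y : Fin m × Grid L K' q → (Fin h → Grid L K' q), Zf pos A y * Zf pos B y
      ≤ ((Fintype.card (Grid L K' q) : ℝ) ^ h) ^ (Fintype.card (Fin m × Grid L K' q))
        * (((h:ℝ) / (Fintype.card (Grid L K' q) : ℝ)) ^ (m * (L * K' * L))) ^ 2
        * (1 + (Fintype.card (Grid L K' q) : ℝ) / h) ^
          (Finset.univ.filter (fun ρ => mt pos A B ρ)).card := by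
  have hCr : (0:ℝ) < (Fintype.card (Grid L K' q) : ℝ) := by exact_mod_cast hC
  have h1 : ∀ y : Fin m × Grid L K' q → (Fin h → Grid L K' q), Zf pos A y * Zf pos B y
      = ∏ ρ, (phi pos A ρ (y ρ) * phi pos B ρ (y ρ)) := by
    intro y
    rw [Zf_eq, Zf_eq, ← Finset.prod_mul_distrib]
  rw [Finset.sum_congr rfl (fun y _ => h1 y)]
  rw [← Fintype.prod_sum (fun ρ (v : Fin h → Grid L K' q) => phi pos A ρ v * phi pos B ρ v)]
  have hnn : ∀ ρ, 0 ≤ ∑ v : Fin h → Grid L K' q, phi pos A ρ v * phi pos B ρ v := by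
    intro ρ
    apply Finset.sum_nonneg
    intro v _
    apply mul_nonneg
    · unfold phi; exact Finset.prod_nonneg (fun z _ => cnt_nonneg _ _)
    · unfold phi; exact Finset.prod_nonneg (fun z _ => cnt_nonneg _ _)
  refine (Finset.prod_le_prod (fun ρ _ => hnn ρ)
    (fun ρ _ => sum_phi_mul pos hpos hC hh A B ρ)).trans (le_of_eq ?_)
  rw [Finset.prod_mul_distrib, Finset.prod_mul_distrib, Finset.prod_const, Finset.card_univ,
    Finset.prod_pow_eq_pow_sum, Finset.sum_add_distrib, sum_deg, sum_deg, Finset.prod_ite,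
    Finset.prod_const_one, mul_one, Finset.prod_const, ← pow_mul]
  ring

end

end Pool.Agent.Helper39.LCP
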