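import Mathlib

set_option autoImplicit false

/-! A bound for sums of products over bijections. -/

namespace Pool.Agent.Helper39.LCP

open scoped BigOperators

theorem fact_up (K : ℕ) : ∀ s : ℕ, s ≤ K →
    (∀ i, i < s → (K:ℝ) ≤ Real.exp 1 * ((K:ℝ) - i)) →
    ((K - s).factorial : ℝ) * (K:ℝ) ^ s ≤ Real.exp 1 ^ s * (K.factorial : ℝ) := by
  intro s
  induction s with
  | zero => intro _ _; simp
  | succ s ih =>
    intro hs h
    have h1 := ih (by omega) (fun i hi => h i (by omega))
    have h2 := h s (by omega)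
    obtain ⟨r, hr⟩ : ∃ r, K = s + 1 + r := ⟨K - (s + 1), by omega⟩
    have e1 : K - s = r + 1 := by omega
    have e2 : K - (s + 1) = r := by omega
    rw [e1, Nat.factorial_succ] at h1
    rw [e2]
    push_cast at h1
    have e3 : (K:ℝ) - s = r + 1 := by rw [hr]; push_cast; ring
    rw [e3] at h2
    have hr1 : (0:ℝ) < r + 1 := by positivity
    have hf : (0:ℝ) < (r.factorial : ℝ) := by exact_mod_cast r.factorial_pos
    have hK0 : (0:ℝ) ≤ (K:ℝ) := by positivity
    calc (r.factorial : ℝ) * (K:ℝ) ^ (s + 1) = (r.factorial : ℝ) * (K:ℝ) ^ s * K := by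
          rw [pow_succ]; ring
      _ ≤ (r.factorial : ℝ) * (K:ℝ) ^ s * (Real.exp 1 * (r + 1)) := by gcongr
      _ = Real.exp 1 * (((r:ℝ) + 1) * r.factorial * (K:ℝ) ^ s) := by ring
      _ ≤ Real.exp 1 * (Real.exp 1 ^ s * (K.factorial : ℝ)) := by gcongr
      _ = Real.exp 1 ^ (s + 1) * (K.factorial : ℝ) := by rw [pow_succ]; ring

theorem fact_down (K : ℕ) (hK : 0 < K) : ∀ t s : ℕ, s + t = K →
    (∀ i, s ≤ i → i < K → Real.exp 1 * ((K:ℝ) - i) ≤ (K:ℝ)) →
    ((K - s).factorial : ℝ) * (K:ℝ) ^ s ≤ Real.exp 1 ^ s * (K.factorial : ℝ) := by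
  intro t
  induction t with
  | zero =>
    intro s hs _
    have : s = K := by omega
    subst this
    have h := Real.pow_div_factorial_le_exp (x := (s:ℝ)) (by positivity) s
    rw [div_le_iff₀ (by positivity)] at h
    rw [Nat.sub_self, Nat.factorial_zero, ← Real.exp_nat_mul, mul_one]
    simpa using h
  | succ t ih =>
    intro s hs h
    have h1 := ih (s + 1) (by omega) (fun i hi hi' => h i (by omega) hi')
    have h2 := h s le_rfl (by omega)
    have e1 : K - s = t + 1 := by omega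
    have e2 : K - (s + 1) = t := by omega
    rw [e2] at h1
    rw [e1, Nat.factorial_succ]
    have e3 : (K:ℝ) - s = t + 1 := by
      have : (K:ℝ) = s + (t + 1) := by exact_mod_cast hs.symm
      rw [this]; ring
    rw [e3] at h2
    have hKr : (0:ℝ) < K := by exact_mod_cast hK
    push_cast
    have hf : (0:ℝ) < (K.factorial : ℝ) := by exact_mod_cast K.factorial_pos
    have key : (K:ℝ) * (((t:ℝ) + 1) * t.factorial * (K:ℝ) ^ s)
        ≤ K * (Real.exp 1 ^ s * (K.factorial : ℝ)) := by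
      calc (K:ℝ) * (((t:ℝ) + 1) * t.factorial * (K:ℝ) ^ s)
          = (t + 1) * ((t.factorial : ℝ) * (K:ℝ) ^ (s + 1)) := by rw [pow_succ]; ring
        _ ≤ (t + 1) * (Real.exp 1 ^ (s + 1) * (K.factorial : ℝ)) := by gcongr
        _ = (Real.exp 1 * (t + 1)) * (Real.exp 1 ^ s * (K.factorial : ℝ)) := by rw [pow_succ]; ring
        _ ≤ K * (Real.exp 1 ^ s * (K.factorial : ℝ)) := by gcongr
    exact le_of_mul_le_mul_left key hKr

theorem fact_bound (K : ℕ) (hK : 0 < K) (s : ℕ) (hs : s ≤ K) :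
    ((K - s).factorial : ℝ) ≤ (Real.exp 1 / K) ^ s * (K.factorial : ℝ) := by
  have hKr : (0:ℝ) < K := by exact_mod_cast hK
  have main : ((K - s).factorial : ℝ) * (K:ℝ) ^ s ≤ Real.exp 1 ^ s * (K.factorial : ℝ) := by
    by_cases h : (K:ℝ) ≤ Real.exp 1 * ((K:ℝ) - s)
    · apply fact_up K s hs
      intro i hi
      refine h.trans ?_
      have : (i:ℝ) ≤ s := by exact_mod_cast hi.le
      gcongr
    · push Not at h
      apply fact_down K hK (K - s) s (by omega)
      intro i hi _
      refine le_trans ?_ h.le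
      have : (s:ℝ) ≤ i := by exact_mod_cast hi
      gcongr
  rw [div_pow, div_mul_eq_mul_div, le_div_iff₀ (by positivity)]
  exact main

section

variable {V V' : Type*} [Fintype V] [Fintype V'] [DecidableEq V] [DecidableEq V']

theorem card_fix (S : Finset V) :
    Fintype.card {σ : Equiv.Perm V // ∀ a, ¬ (a ∉ S) → σ a = a}
      = (Fintype.card V - S.card).factorial := by
  rw [← Fintype.card_congr (Equiv.Perm.subtypeEquivSubtypePerm (fun a => a ∉ S)),
    Fintype.card_perm]
  congr 1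
  rw [Fintype.card_subtype_compl]
  simp

theorem card_ext (S : Finset V) (φ : V → V') :
    (Finset.univ.filter (fun τ : V ≃ V' => ∀ i ∈ S, τ i = φ i)).card
      ≤ (Fintype.card V - S.card).factorial := by
  classical
  rcases (Finset.univ.filter (fun τ : V ≃ V' => ∀ i ∈ S, τ i = φ i)).eq_empty_or_nonempty with
    h | ⟨τ0, h0⟩
  · rw [h]; simp
  · rw [← card_fix S, ← Finset.card_univ]
    rw [Finset.mem_filter] at h0
    have hτ : ∀ τ ∈ Finset.univ.filter (fun τ : V ≃ V' => ∀ i ∈ S, τ i = φ i),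
        ∀ a, ¬ (a ∉ S) → (τ.trans τ0.symm) a = a := by
      intro τ hτ a ha
      rw [Finset.mem_filter] at hτ
      push Not at ha
      rw [Equiv.trans_apply, hτ.2 a ha, ← h0.2 a ha, Equiv.symm_apply_apply]
    refine Finset.card_le_card_of_injOn
      (fun τ => if h : ∀ a, ¬ (a ∉ S) → (τ.trans τ0.symm) a = a then
        (⟨τ.trans τ0.symm, h⟩ : {σ : Equiv.Perm V // ∀ a, ¬ (a ∉ S) → σ a = a})
        else ⟨1, fun a _ => rfl⟩) (fun τ _ => Finset.mem_coe.mpr (Finset.mem_univ _)) ?_
    intro τ1 h1 τ2 h2 h12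
    have k1 := hτ τ1 h1
    have k2 := hτ τ2 h2
    simp only [dif_pos k1, dif_pos k2, Subtype.mk.injEq] at h12
    ext x
    have := congrArg (fun e : Equiv.Perm V => e x) h12
    simpa using this

theorem sum_equiv_prod_le (N : V → V' → ℝ) (hN : ∀ i v, 0 ≤ N i v) (S : Finset V) :
    ∑ τ : V ≃ V', ∏ i ∈ S, N i (τ i)
      ≤ ((Fintype.card V - S.card).factorial : ℝ) * ∏ i ∈ S, ∑ v, N i v := by
  classical
  -- group according to the restriction to `S`
  have h1 : ∑ τ : V ≃ V', ∏ i ∈ S, N i (τ i)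
      = ∑ φ : S → V', ∑ τ ∈ Finset.univ.filter (fun τ : V ≃ V' => (fun i : S => τ i) = φ),
          ∏ i ∈ S, N i (τ i) := by
    rw [Finset.sum_fiberwise]
  rw [h1]
  have h2 : ∀ φ : S → V',
      ∑ τ ∈ Finset.univ.filter (fun τ : V ≃ V' => (fun i : S => τ i) = φ), ∏ i ∈ S, N i (τ i)
        ≤ ((Fintype.card V - S.card).factorial : ℝ) * ∏ i : S, N i (φ i) := by
    intro φ
    have h3 : ∀ τ ∈ Finset.univ.filter (fun τ : V ≃ V' => (fun i : S => τ i) = φ),
        ∏ i ∈ S, N i (τ i) = ∏ i : S, N i (φ i) := by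
      intro τ hτ
      rw [Finset.mem_filter] at hτ
      rw [← Finset.prod_coe_sort S (fun i => N i (τ i))]
      apply Finset.prod_congr rfl
      intro i _
      rw [← hτ.2]
    rw [Finset.sum_congr rfl h3, Finset.sum_const, nsmul_eq_mul]
    apply mul_le_mul_of_nonneg_right _ (Finset.prod_nonneg (fun i _ => hN _ _))
    rcases isEmpty_or_nonempty V' with hV' | hV'
    · have : (Finset.univ.filter (fun τ : V ≃ V' => (fun i : S => τ i) = φ)).card ≤ 1 := by
        rw [Finset.card_le_one]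
        intro a _ b _
        ext x
        exact (hV'.false (a x)).elim
      have h5 : (1:ℝ) ≤ ((Fintype.card V - S.card).factorial : ℝ) := by
        exact_mod_cast Nat.one_le_iff_ne_zero.mpr (Nat.factorial_ne_zero _)
      calc _ ≤ (1:ℝ) := by exact_mod_cast this
        _ ≤ _ := h5
    · let φ' : V → V' := fun i => if h : i ∈ S then φ ⟨i, h⟩ else Classical.arbitrary V'
      have h4 := card_ext S φ'
      have h5 : (Finset.univ.filter (fun τ : V ≃ V' => (fun i : S => τ i) = φ)).card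
          ≤ (Finset.univ.filter (fun τ : V ≃ V' => ∀ i ∈ S, τ i = φ' i)).card := by
        apply Finset.card_le_card
        intro τ hτ
        rw [Finset.mem_filter] at hτ ⊢
        refine ⟨Finset.mem_univ _, ?_⟩
        intro i hi
        show τ i = if h : i ∈ S then φ ⟨i, h⟩ else Classical.arbitrary V'
        rw [dif_pos hi, ← hτ.2]
      exact_mod_cast h5.trans h4
  calc _ ≤ ∑ φ : S → V', ((Fintype.card V - S.card).factorial : ℝ) * ∏ i : S, N i (φ i) :=
        Finset.sum_le_sum (fun φ _ => h2 φ)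
    _ = ((Fintype.card V - S.card).factorial : ℝ) * ∏ i : S, ∑ v, N i v := by
        rw [← Finset.mul_sum, Fintype.prod_sum]
    _ = _ := by rw [Finset.prod_coe_sort S (fun i => ∑ v, N i v)]

theorem perm_bound (N : V → V' → ℝ) (hN : ∀ i v, 0 ≤ N i v) (hV : 0 < Fintype.card V) :
    ∑ τ : V ≃ V', ∏ i, (1 + N i (τ i))
      ≤ ((Fintype.card V).factorial : ℝ)
        * ∏ i, (1 + (Real.exp 1 / Fintype.card V) * ∑ v, N i v) := by
  classical
  have h1 : ∀ τ : V ≃ V', ∏ i, (1 + N i (τ i)) = ∑ S : Finset V, ∏ i ∈ S, N i (τ i) := by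
    intro τ
    rw [Finset.prod_one_add]
    simp
  have h2 : ∏ i, (1 + (Real.exp 1 / Fintype.card V) * ∑ v, N i v)
      = ∑ S : Finset V, ∏ i ∈ S, ((Real.exp 1 / Fintype.card V) * ∑ v, N i v) := by
    rw [Finset.prod_one_add]
    simp
  rw [h2, Finset.mul_sum, Finset.sum_congr rfl (fun τ _ => h1 τ), Finset.sum_comm]
  apply Finset.sum_le_sum
  intro S _
  refine (sum_equiv_prod_le N hN S).trans ?_
  rw [Finset.prod_mul_distrib, Finset.prod_const]
  have h3 : 0 ≤ ∏ i ∈ S, ∑ v, N i v :=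
    Finset.prod_nonneg (fun i _ => Finset.sum_nonneg (fun v _ => hN i v))
  have h4 := fact_bound (Fintype.card V) hV S.card (Finset.card_le_univ S)
  calc _ ≤ ((Real.exp 1 / Fintype.card V) ^ S.card * ((Fintype.card V).factorial : ℝ))
        * ∏ i ∈ S, ∑ v, N i v := by gcongr
    _ = _ := by ring

end

end Pool.Agent.Helper39.LCP
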