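import Mathlib
import Pool.Agent.Helper39.Moment1
import Pool.Agent.Helper39.PermBound

set_option autoImplicit false

/-! Overlap counting. -/

namespace Pool.Agent.Helper39.LCP

open scoped BigOperators

section

variable {m L K' q h : ℕ} {Wn : Type} (pos : Wn → Fin m → Fin L → Fin q)

/-- number of matrices in which the `B`-tuple with `x`-slot `z` and `y`-slot `(z.2, bu)` is shared -/
def wt (A : Obj L K' Wn) (X' Y' : Win L K' → Wn) (z : Slot L K') (bu : Fin K' × Fin L) : ℕ :=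
  (Finset.univ.filter (fun j : Fin m => pos (A.1 z.1) j z.2 = pos (X' z.1) j z.2 ∧
    (A.2.2 z.2 z.1).1 = bu.1 ∧
    pos (A.2.1 (z.2, bu.1)) j (A.2.2 z.2 z.1).2 = pos (Y' (z.2, bu.1)) j bu.2)).card

open Classical in
theorem card_mt_le (A B : Obj L K' Wn) :
    (Finset.univ.filter (fun ρ => mt pos A B ρ)).card
      ≤ ∑ z : Slot L K', wt pos A B.1 B.2.1 z (B.2.2 z.2 z.1) := by
  have h1 : ∑ z : Slot L K', wt pos A B.1 B.2.1 z (B.2.2 z.2 z.1)
      = (Finset.univ.filter (fun zj : Slot L K' × Fin m =>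
          pos (A.1 zj.1.1) zj.2 zj.1.2 = pos (B.1 zj.1.1) zj.2 zj.1.2 ∧
          (A.2.2 zj.1.2 zj.1.1).1 = (B.2.2 zj.1.2 zj.1.1).1 ∧
          pos (A.2.1 (zj.1.2, (B.2.2 zj.1.2 zj.1.1).1)) zj.2 (A.2.2 zj.1.2 zj.1.1).2
            = pos (B.2.1 (zj.1.2, (B.2.2 zj.1.2 zj.1.1).1)) zj.2
              (B.2.2 zj.1.2 zj.1.1).2)).card := by
    unfold wt
    rw [Finset.card_filter]
    conv_rhs => rw [Fintype.sum_prod_type]
    apply Finset.sum_congr rfl
    intro z _
    rw [Finset.card_filter]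
  rw [h1]
  apply Finset.card_le_card_of_surjOn (fun zj : Slot L K' × Fin m => (zj.2, rowA pos A zj.2 zj.1))
  intro ρ hρ
  rw [Finset.mem_coe, Finset.mem_filter] at hρ
  obtain ⟨_, z, z', hz, hz', hc⟩ := hρ
  obtain ⟨i, s⟩ := z
  obtain ⟨i', s'⟩ := z'
  obtain ⟨j, r⟩ := ρ
  simp only at hz hz' hc
  have hrr : rowA pos A j (i, s) = rowA pos B j (i', s') := hz.trans hz'.symm
  unfold rowA at hrr
  simp only [Prod.mk.injEq] at hrr
  obtain ⟨hi, hp⟩ := hrr
  unfold colA ySlot at hc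
  simp only [Prod.mk.injEq] at hc
  obtain ⟨⟨hs, hb⟩, hq⟩ := hc
  subst hi
  subst hs
  rw [Set.mem_image]
  refine ⟨((i, s), j), ?_, ?_⟩
  · rw [Finset.mem_coe, Finset.mem_filter]
    refine ⟨Finset.mem_univ _, hp, hb, ?_⟩
    simp only
    rw [← hb] at hq ⊢
    exact hq
  · simp only
    rw [hz]

/-- full coincidence at slot `z` -/
def full (A : Obj L K' Wn) (X' Y' : Win L K' → Wn) (z : Slot L K') : Prop :=
  (∀ j, pos (A.1 z.1) j z.2 = pos (X' z.1) j z.2) ∧
  (∀ j, pos (A.2.1 (ySlot A z).1) j (ySlot A z).2 = pos (Y' (ySlot A z).1) j (ySlot A z).2)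

variable (hpos : ∀ w j, Function.Injective (pos w j))
variable (halign : ∀ w w' s s', (∀ j, pos w j s = pos w' j s') → s = s')

include hpos in
theorem sum_wt_card (A : Obj L K' Wn) (X' Y' : Win L K' → Wn) (z : Slot L K') :
    ∑ bu : Fin K' × Fin L, wt pos A X' Y' z bu ≤ m := by
  unfold wt
  simp_rw [Finset.card_filter]
  rw [Finset.sum_comm]
  have : ∀ j : Fin m, ∑ bu : Fin K' × Fin L, (if (pos (A.1 z.1) j z.2 = pos (X' z.1) j z.2 ∧
    (A.2.2 z.2 z.1).1 = bu.1 ∧
    pos (A.2.1 (z.2, bu.1)) j (A.2.2 z.2 z.1).2 = pos (Y' (z.2, bu.1)) j bu.2) then 1 else 0) ≤ 1 := by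
    intro j
    rw [← Finset.card_filter, Finset.card_le_one]
    rintro ⟨b, u⟩ h1 ⟨b', u'⟩ h2
    rw [Finset.mem_filter] at h1 h2
    obtain ⟨_, _, h1b, h1c⟩ := h1
    obtain ⟨_, _, h2b, h2c⟩ := h2
    simp only at h1b h1c h2b h2c
    subst h1b
    subst h2b
    rw [h1c] at h2c
    have := hpos _ _ h2c
    rw [this]
  calc _ ≤ ∑ _j : Fin m, 1 := Finset.sum_le_sum (fun j _ => this j)
    _ = m := by simp

theorem wt_le (A : Obj L K' Wn) (X' Y' : Win L K' → Wn) (z : Slot L K') (bu : Fin K' × Fin L) :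
    wt pos A X' Y' z bu ≤ m := by
  unfold wt
  refine (Finset.card_filter_le _ _).trans ?_
  simp

include halign in
theorem full_of_wt_eq (A : Obj L K' Wn) (X' Y' : Win L K' → Wn) (z : Slot L K')
    (bu : Fin K' × Fin L) (hm : 0 < m) (hw : wt pos A X' Y' z bu = m) :
    bu = A.2.2 z.2 z.1 ∧ full pos A X' Y' z := by
  have hall : ∀ j : Fin m, pos (A.1 z.1) j z.2 = pos (X' z.1) j z.2 ∧
    (A.2.2 z.2 z.1).1 = bu.1 ∧
    pos (A.2.1 (z.2, bu.1)) j (A.2.2 z.2 z.1).2 = pos (Y' (z.2, bu.1)) j bu.2 := by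
    intro j
    unfold wt at hw
    have h1 : (Finset.univ.filter (fun j : Fin m => pos (A.1 z.1) j z.2 = pos (X' z.1) j z.2 ∧
      (A.2.2 z.2 z.1).1 = bu.1 ∧
      pos (A.2.1 (z.2, bu.1)) j (A.2.2 z.2 z.1).2 = pos (Y' (z.2, bu.1)) j bu.2)) = Finset.univ := by
      rw [← Finset.card_eq_iff_eq_univ, hw]; simp
    have h2 : j ∈ (Finset.univ.filter (fun j : Fin m => pos (A.1 z.1) j z.2 = pos (X' z.1) j z.2 ∧
      (A.2.2 z.2 z.1).1 = bu.1 ∧
      pos (A.2.1 (z.2, bu.1)) j (A.2.2 z.2 z.1).2 = pos (Y' (z.2, bu.1)) j bu.2)) := by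
      rw [h1]; exact Finset.mem_univ _
    exact (Finset.mem_filter.mp h2).2
  have hu : (A.2.2 z.2 z.1).2 = bu.2 := halign _ _ _ _ (fun j => (hall j).2.2)
  have hb : (A.2.2 z.2 z.1).1 = bu.1 := (hall ⟨0, hm⟩).2.1
  refine ⟨(Prod.ext hb hu).symm, fun j => (hall j).1, ?_⟩
  intro j
  unfold ySlot
  have := (hall j).2.2
  rw [← hb, ← hu] at this
  exact this

open Classical in
include hpos halign in
theorem sum_wt_le (hm : 0 < m) (A : Obj L K' Wn) (X' Y' : Win L K' → Wn) (z : Slot L K')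
    (c : ℝ) (hc : 1 ≤ c) :
    ∑ bu : Fin K' × Fin L, (c ^ (wt pos A X' Y' z bu) - 1)
      ≤ m * c ^ (m - 1) + c ^ m * (if full pos A X' Y' z then 1 else 0) := by
  have hterm : ∀ bu : Fin K' × Fin L, c ^ (wt pos A X' Y' z bu) - 1
      ≤ (wt pos A X' Y' z bu : ℝ) * c ^ (m - 1)
        + c ^ m * (if bu = A.2.2 z.2 z.1 then (if full pos A X' Y' z then 1 else 0) else 0) := by
    intro bu
    have hnn : 0 ≤ c ^ m * (if bu = A.2.2 z.2 z.1 then
        (if full pos A X' Y' z then (1:ℝ) else 0) else 0) := by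
      apply mul_nonneg (by positivity)
      split_ifs <;> norm_num
    rcases (wt_le pos A X' Y' z bu).eq_or_lt with hw | hw
    · obtain ⟨h1, h2⟩ := full_of_wt_eq pos halign A X' Y' z bu hm hw
      rw [if_pos h1, if_pos h2, hw]
      have : 0 ≤ (m:ℝ) * c ^ (m - 1) := by positivity
      linarith
    · rcases Nat.eq_zero_or_pos (wt pos A X' Y' z bu) with h0 | h0
      · rw [h0]
        simp only [pow_zero, sub_self, Nat.cast_zero, zero_mul, zero_add]
        exact hnn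
      · have h1 : c ^ (wt pos A X' Y' z bu) ≤ c ^ (m - 1) :=
          pow_le_pow_right₀ hc (by omega)
        have h2 : (1:ℝ) ≤ (wt pos A X' Y' z bu : ℝ) := by exact_mod_cast h0
        have h3 : 0 ≤ c ^ (m - 1) := by positivity
        nlinarith
  refine (Finset.sum_le_sum (fun bu _ => hterm bu)).trans ?_
  rw [Finset.sum_add_distrib, ← Finset.sum_mul, ← Finset.mul_sum]
  simp only [Finset.sum_ite_eq', Finset.mem_univ, if_true]
  have h1 : ((∑ bu : Fin K' × Fin L, wt pos A X' Y' z bu : ℕ) : ℝ) ≤ m := by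
    exact_mod_cast sum_wt_card pos hpos A X' Y' z
  push_cast at h1
  have h3 : 0 ≤ c ^ (m - 1) := by positivity
  nlinarith

end

section

variable {m L K' q h : ℕ} {Wn : Type} [Fintype Wn] (pos : Wn → Fin m → Fin L → Fin q)

theorem card_fiber_sum (S : Finset (Slot L K')) :
    ∑ i : Win L K', (Finset.univ.filter (fun s : Fin L => (i, s) ∈ S)).card = S.card := by
  classical
  rw [Finset.card_eq_sum_card_fiberwise (f := Prod.fst) (s := S) (t := Finset.univ)
    (fun _ _ => Finset.mem_coe.mpr (Finset.mem_univ _))]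
  apply Finset.sum_congr rfl
  intro i _
  apply Finset.card_bij (fun s _ => (i, s))
  · intro s hs
    rw [Finset.mem_filter] at hs ⊢
    exact ⟨hs.2, rfl⟩
  · intro s _ s' _ hss
    exact (Prod.mk.inj hss).2
  · rintro ⟨i', s⟩ hz
    rw [Finset.mem_filter] at hz
    obtain ⟨hz1, hz2⟩ := hz
    simp only at hz2
    subst hz2
    exact ⟨s, by rw [Finset.mem_filter]; exact ⟨Finset.mem_univ _, hz1⟩, rfl⟩

open Classical in
theorem count_X (θ : ℝ) (hθ : 0 ≤ θ)
    (hcount : ∀ w : Wn, ∀ T : Finset (Fin L),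
      ((Finset.univ.filter (fun w' : Wn => ∀ s ∈ T, ∀ j, pos w j s = pos w' j s)).card : ℝ)
        ≤ (Fintype.card Wn : ℝ) * θ ^ T.card)
    (X : Win L K' → Wn) (S : Finset (Slot L K')) :
    ((Finset.univ.filter (fun X' : Win L K' → Wn =>
        ∀ z ∈ S, ∀ j, pos (X z.1) j z.2 = pos (X' z.1) j z.2)).card : ℝ)
      ≤ (Fintype.card Wn : ℝ) ^ (L * K') * θ ^ S.card := by
  have h1 : (Finset.univ.filter (fun X' : Win L K' → Wn =>
        ∀ z ∈ S, ∀ j, pos (X z.1) j z.2 = pos (X' z.1) j z.2))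
      = Fintype.piFinset (fun i => Finset.univ.filter (fun w' : Wn =>
        ∀ s ∈ Finset.univ.filter (fun s : Fin L => (i, s) ∈ S), ∀ j,
          pos (X i) j s = pos w' j s)) := by
    ext X'
    rw [Finset.mem_filter, Fintype.mem_piFinset]
    constructor
    · rintro ⟨_, h⟩ i
      rw [Finset.mem_filter]
      refine ⟨Finset.mem_univ _, ?_⟩
      intro s hs j
      rw [Finset.mem_filter] at hs
      exact h (i, s) hs.2 j
    · intro h
      refine ⟨Finset.mem_univ _, ?_⟩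
      rintro ⟨i, s⟩ hz j
      have := h i
      rw [Finset.mem_filter] at this
      exact this.2 s (by rw [Finset.mem_filter]; exact ⟨Finset.mem_univ _, hz⟩) j
  rw [h1, Fintype.card_piFinset]
  push_cast
  calc _ ≤ ∏ i : Win L K', ((Fintype.card Wn : ℝ)
        * θ ^ (Finset.univ.filter (fun s : Fin L => (i, s) ∈ S)).card) := by
        apply Finset.prod_le_prod
        · intro i _; positivity
        · intro i _; exact hcount _ _
    _ = _ := by
        rw [Finset.prod_mul_distrib, Finset.prod_const, Finset.card_univ,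
          Finset.prod_pow_eq_pow_sum, card_fiber_sum]
        simp

end

end Pool.Agent.Helper39.LCP
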