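import Mathlib
import Pool.Agent.Helper39.Moment2

set_option autoImplicit false

/-! Sum over the second object, and the second moment method. -/

namespace Pool.Agent.Helper39.LCP

open scoped BigOperators

section

variable {m L K' q : ℕ} {Wn : Type} [Fintype Wn] (pos : Wn → Fin m → Fin L → Fin q)
variable (hpos : ∀ w j, Function.Injective (pos w j))
variable (halign : ∀ w w' s s', (∀ j, pos w j s = pos w' j s') → s = s')

omit [Fintype Wn] in
open Classical in
include hpos halign in
theorem sum_tau (hm : 0 < m) (hK : 0 < L * K') (A : Obj L K' Wn) (X' Y' : Win L K' → Wn)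
    (c : ℝ) (hc : 1 ≤ c) :
    ∑ τ : Fin L → (Win L K' ≃ Fin K' × Fin L),
      c ^ (∑ z : Slot L K', wt pos A X' Y' z (τ z.2 z.1))
      ≤ (((L * K').factorial : ℝ)) ^ L * ∏ z : Slot L K',
        (1 + (Real.exp 1 / ((L * K' : ℕ) : ℝ)) * (m * c ^ (m - 1)
          + c ^ m * (if full pos A X' Y' z then 1 else 0))) := by
  have e1 : ∀ τ : Fin L → (Win L K' ≃ Fin K' × Fin L),
      c ^ (∑ z : Slot L K', wt pos A X' Y' z (τ z.2 z.1))
      = ∏ s : Fin L, ∏ i : Win L K', c ^ (wt pos A X' Y' (i, s) (τ s i)) := by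
    intro τ
    rw [← Finset.prod_pow_eq_pow_sum, Fintype.prod_prod_type, Finset.prod_comm]
  rw [Finset.sum_congr rfl (fun τ _ => e1 τ),
    ← Fintype.prod_sum (fun (s : Fin L) (e : Win L K' ≃ Fin K' × Fin L) =>
      ∏ i : Win L K', c ^ (wt pos A X' Y' (i, s) (e i)))]
  have e2 : ∀ s : Fin L, ∑ e : (Win L K' ≃ Fin K' × Fin L),
      ∏ i : Win L K', c ^ (wt pos A X' Y' (i, s) (e i))
      ≤ ((L * K').factorial : ℝ) * ∏ i : Win L K',
        (1 + (Real.exp 1 / ((L * K' : ℕ) : ℝ)) * (m * c ^ (m - 1)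
          + c ^ m * (if full pos A X' Y' (i, s) then 1 else 0))) := by
    intro s
    have hcard : Fintype.card (Win L K') = L * K' := by simp
    have hb := perm_bound (V := Win L K') (V' := Fin K' × Fin L)
      (fun i bu => c ^ (wt pos A X' Y' (i, s) bu) - 1)
      (fun i bu => by
        have : (1:ℝ) ≤ c ^ (wt pos A X' Y' (i, s) bu) := one_le_pow₀ hc
        linarith) (by rw [hcard]; exact hK)
    rw [hcard] at hb
    have e3 : ∀ e : (Win L K' ≃ Fin K' × Fin L),
        ∏ i : Win L K', (1 + (c ^ (wt pos A X' Y' (i, s) (e i)) - 1))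
        = ∏ i : Win L K', c ^ (wt pos A X' Y' (i, s) (e i)) := by
      intro e
      apply Finset.prod_congr rfl
      intro i _
      ring
    rw [Finset.sum_congr rfl (fun e _ => e3 e)] at hb
    refine hb.trans ?_
    apply mul_le_mul_of_nonneg_left _ (by positivity)
    apply Finset.prod_le_prod
    · intro i _
      have : 0 ≤ ∑ bu : Fin K' × Fin L, (c ^ (wt pos A X' Y' (i, s) bu) - 1) :=
        Finset.sum_nonneg (fun bu _ => by
          have : (1:ℝ) ≤ c ^ (wt pos A X' Y' (i, s) bu) := one_le_pow₀ hc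
          linarith)
      positivity
    · intro i _
      have := sum_wt_le pos hpos halign hm A X' Y' (i, s) c hc
      gcongr
  have e4 : ∀ s : Fin L, 0 ≤ ∑ e : (Win L K' ≃ Fin K' × Fin L),
      ∏ i : Win L K', c ^ (wt pos A X' Y' (i, s) (e i)) := by
    intro s
    positivity
  refine (Finset.prod_le_prod (fun s _ => e4 s) (fun s _ => e2 s)).trans (le_of_eq ?_)
  rw [Finset.prod_mul_distrib, Finset.prod_const, Finset.card_univ, Fintype.card_fin]
  congr 1
  conv_rhs => rw [Fintype.prod_prod_type]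
  rw [Finset.prod_comm]

open Classical in
include hpos halign in
theorem sum_over_B (hm : 0 < m) (hK : 0 < L * K') (A : Obj L K' Wn)
    (c θ : ℝ) (hc : 1 ≤ c) (hθ : 0 ≤ θ)
    (hcount : ∀ w : Wn, ∀ T : Finset (Fin L),
      ((Finset.univ.filter (fun w' : Wn => ∀ s ∈ T, ∀ j, pos w j s = pos w' j s)).card : ℝ)
        ≤ (Fintype.card Wn : ℝ) * θ ^ T.card) :
    ∑ B : Obj L K' Wn, c ^ (∑ z : Slot L K', wt pos A B.1 B.2.1 z (B.2.2 z.2 z.1))
      ≤ ((L * K').factorial : ℝ) ^ L * ((Fintype.card Wn : ℝ) ^ (L * K')) ^ 2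
        * ((1 + (Real.exp 1 / ((L * K' : ℕ) : ℝ)) * (m * c ^ (m - 1)))
          * (1 + (Real.exp 1 / ((L * K' : ℕ) : ℝ)) * c ^ m * θ ^ 2)) ^ (L * K' * L) := by
  set κ : ℝ := Real.exp 1 / ((L * K' : ℕ) : ℝ) with hκ
  have hκ0 : 0 ≤ κ := by positivity
  set δ : ℝ := κ * (m * c ^ (m - 1)) with hδ
  have hδ0 : 0 ≤ δ := by positivity
  set Γ : ℝ := κ * c ^ m with hΓ
  have hΓ0 : 0 ≤ Γ := by positivity
  have hslot : Fintype.card (Slot L K') = L * K' * L := by simp
  -- indicator functions
  let px : Finset (Slot L K') → (Win L K' → Wn) → Prop := fun S X' =>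
    ∀ z ∈ S, ∀ j, pos (A.1 z.1) j z.2 = pos (X' z.1) j z.2
  let py : Finset (Slot L K') → (Win L K' → Wn) → Prop := fun S Y' =>
    ∀ z ∈ S.image (ySlot A), ∀ j, pos (A.2.1 z.1) j z.2 = pos (Y' z.1) j z.2
  have hprod : ∀ X' Y' : Win L K' → Wn,
      ∏ z : Slot L K', (1 + κ * (m * c ^ (m - 1)
          + c ^ m * (if full pos A X' Y' z then 1 else 0)))
      ≤ (1 + δ) ^ (L * K' * L) * ∑ S : Finset (Slot L K'),
        Γ ^ S.card * ((if px S X' then (1:ℝ) else 0) * (if py S Y' then (1:ℝ) else 0)) := by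
    intro X' Y'
    have h1 : ∏ z : Slot L K', (1 + κ * (m * c ^ (m - 1)
          + c ^ m * (if full pos A X' Y' z then 1 else 0)))
        ≤ ∏ z : Slot L K', ((1 + δ) * (1 + Γ * (if full pos A X' Y' z then 1 else 0))) := by
      apply Finset.prod_le_prod
      · intro z _
        have : (0:ℝ) ≤ (if full pos A X' Y' z then 1 else 0) := by split_ifs <;> norm_num
        positivity
      · intro z _
        have h3 : (0:ℝ) ≤ (if full pos A X' Y' z then 1 else 0) := by split_ifs <;> norm_num
        set f : ℝ := (if full pos A X' Y' z then 1 else 0)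
        have : 1 + κ * (m * c ^ (m - 1) + c ^ m * f) = 1 + δ + Γ * f := by
          rw [hδ, hΓ]; ring
        rw [this]
        nlinarith [mul_nonneg hδ0 (mul_nonneg hΓ0 h3)]
    refine h1.trans (le_of_eq ?_)
    rw [Finset.prod_mul_distrib, Finset.prod_const, Finset.card_univ, hslot]
    congr 1
    rw [Finset.prod_one_add]
    simp only [Finset.powerset_univ]
    apply Finset.sum_congr rfl
    intro S _
    rw [Finset.prod_mul_distrib, Finset.prod_const]
    congr 1
    by_cases h1 : ∀ z ∈ S, full pos A X' Y' z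
    · have hx : px S X' := fun z hz => (h1 z hz).1
      have hy : py S Y' := by
        intro z hz
        rw [Finset.mem_image] at hz
        obtain ⟨z0, hz0, rfl⟩ := hz
        exact (h1 z0 hz0).2
      rw [if_pos hx, if_pos hy, Finset.prod_congr rfl (fun z hz => if_pos (h1 z hz))]
      simp
    · have hnot : ¬ (px S X' ∧ py S Y') := by
        rintro ⟨hx, hy⟩
        exact h1 (fun z hz => ⟨hx z hz, hy _ (Finset.mem_image_of_mem _ hz)⟩)
      push Not at h1
      obtain ⟨z, hz, hf⟩ := h1
      rw [Finset.prod_eq_zero hz (if_neg hf)]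
      by_cases hx : px S X'
      · rw [if_neg (fun hy => hnot ⟨hx, hy⟩), mul_zero]
      · rw [if_neg hx, zero_mul]
  have hsumX : ∀ S : Finset (Slot L K'), ∑ X' : Win L K' → Wn, (if px S X' then (1:ℝ) else 0)
      ≤ (Fintype.card Wn : ℝ) ^ (L * K') * θ ^ S.card := by
    intro S
    rw [Finset.sum_boole]
    exact count_X pos θ hθ hcount A.1 S
  have hsumY : ∀ S : Finset (Slot L K'), ∑ Y' : Win L K' → Wn, (if py S Y' then (1:ℝ) else 0)
      ≤ (Fintype.card Wn : ℝ) ^ (L * K') * θ ^ S.card := by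
    intro S
    rw [Finset.sum_boole]
    have := count_X pos θ hθ hcount A.2.1 (S.image (ySlot A))
    rwa [Finset.card_image_of_injective _ (ySlot_injective A)] at this
  calc ∑ B : Obj L K' Wn, c ^ (∑ z : Slot L K', wt pos A B.1 B.2.1 z (B.2.2 z.2 z.1))
      = ∑ X' : Win L K' → Wn, ∑ Y' : Win L K' → Wn,
        ∑ τ : Fin L → (Win L K' ≃ Fin K' × Fin L),
          c ^ (∑ z : Slot L K', wt pos A X' Y' z (τ z.2 z.1)) := by
        rw [Fintype.sum_prod_type]
        apply Finset.sum_congr rfl
        intro X' _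
        rw [Fintype.sum_prod_type]
    _ ≤ ∑ X' : Win L K' → Wn, ∑ Y' : Win L K' → Wn,
        ((((L * K').factorial : ℝ)) ^ L * ((1 + δ) ^ (L * K' * L) * ∑ S : Finset (Slot L K'),
        Γ ^ S.card * ((if px S X' then (1:ℝ) else 0) * (if py S Y' then (1:ℝ) else 0)))) := by
        apply Finset.sum_le_sum; intro X' _
        apply Finset.sum_le_sum; intro Y' _
        refine (sum_tau pos hpos halign hm hK A X' Y' c hc).trans ?_
        apply mul_le_mul_of_nonneg_left _ (by positivity)
        exact hprod X' Y'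
    _ = (((L * K').factorial : ℝ)) ^ L * ((1 + δ) ^ (L * K' * L) * ∑ S : Finset (Slot L K'),
        Γ ^ S.card * ((∑ X' : Win L K' → Wn, (if px S X' then (1:ℝ) else 0))
          * (∑ Y' : Win L K' → Wn, (if py S Y' then (1:ℝ) else 0)))) := by
        simp_rw [← Finset.mul_sum]
        congr 2
        rw [Finset.sum_congr rfl (fun X' _ => Finset.sum_comm), Finset.sum_comm]
        apply Finset.sum_congr rfl; intro S _
        rw [Finset.sum_mul_sum, Finset.mul_sum]
        apply Finset.sum_congr rfl; intro X' _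
        rw [Finset.mul_sum]
    _ ≤ (((L * K').factorial : ℝ)) ^ L * ((1 + δ) ^ (L * K' * L) * ∑ S : Finset (Slot L K'),
        Γ ^ S.card * (((Fintype.card Wn : ℝ) ^ (L * K') * θ ^ S.card)
          * ((Fintype.card Wn : ℝ) ^ (L * K') * θ ^ S.card))) := by
        apply mul_le_mul_of_nonneg_left _ (by positivity)
        apply mul_le_mul_of_nonneg_left _ (by positivity)
        apply Finset.sum_le_sum; intro S _
        apply mul_le_mul_of_nonneg_left _ (by positivity)
        apply mul_le_mul (hsumX S) (hsumY S)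
        · apply Finset.sum_nonneg; intro Y' _; split_ifs <;> norm_num
        · positivity
    _ = _ := by
        have h5 : ∑ S : Finset (Slot L K'),
            Γ ^ S.card * (((Fintype.card Wn : ℝ) ^ (L * K') * θ ^ S.card)
            * ((Fintype.card Wn : ℝ) ^ (L * K') * θ ^ S.card))
            = ((Fintype.card Wn : ℝ) ^ (L * K')) ^ 2 * (1 + Γ * θ ^ 2) ^ (L * K' * L) := by
          have h6 : (1 + Γ * θ ^ 2) ^ (L * K' * L)
              = ∑ S : Finset (Slot L K'), (Γ * θ ^ 2) ^ S.card := by
            have := Finset.prod_one_add (s := (Finset.univ : Finset (Slot L K')))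
              (f := fun _ => Γ * θ ^ 2)
            rw [Finset.prod_const, Finset.card_univ, hslot] at this
            rw [this]
            simp only [Finset.powerset_univ, Finset.prod_const]
          rw [h6, Finset.mul_sum]
          apply Finset.sum_congr rfl; intro S _
          rw [mul_pow, ← pow_mul]
          ring
        rw [h5, mul_pow (1 + δ)]
        ring

end

end Pool.Agent.Helper39.LCP
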