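import Mathlib
import Pool.Agent.Helper39.Moment3

set_option autoImplicit false

/-! The second moment method. -/

namespace Pool.Agent.Helper39.LCP

open scoped BigOperators

section

variable {m L K' q : ℕ} {Wn : Type} [Fintype Wn] (pos : Wn → Fin m → Fin L → Fin q)
variable (hpos : ∀ w j, Function.Injective (pos w j))
variable (halign : ∀ w w' s s', (∀ j, pos w j s = pos w' j s') → s = s')

theorem card_Obj : Fintype.card (Obj L K' Wn)
    = (Fintype.card Wn) ^ (L * K') * ((Fintype.card Wn) ^ (L * K') * ((L * K').factorial) ^ L) := by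
  rw [Fintype.card_prod, Fintype.card_prod]
  have h1 : Fintype.card (Win L K' → Wn) = (Fintype.card Wn) ^ (L * K') := by
    rw [Fintype.card_fun]; simp
  have h2 : Fintype.card (Fin L → (Win L K' ≃ Fin K' × Fin L)) = ((L * K').factorial) ^ L := by
    rw [Fintype.card_fun, Fintype.card_equiv (Equiv.prodComm (Fin L) (Fin K'))]
    simp
  rw [h1, h2]

open Classical in
/-- configurations of points that contain a structured object -/
noncomputable def good (h : ℕ) : Finset (Fin m × Grid L K' q → (Fin h → Grid L K' q)) :=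
  Finset.univ.filter (fun y => ∃ A : Obj L K' Wn, Zf pos A y ≠ 0)

open Classical in
include hpos halign in
theorem good_card (hm : 0 < m) (hK : 0 < L * K') (hq : 0 < q) (hW : 0 < Fintype.card Wn)
    (h : ℕ) (hh : 0 < h) (θ : ℝ) (hθ : 0 ≤ θ)
    (hcount : ∀ w : Wn, ∀ T : Finset (Fin L),
      ((Finset.univ.filter (fun w' : Wn => ∀ s ∈ T, ∀ j, pos w j s = pos w' j s)).card : ℝ)
        ≤ (Fintype.card Wn : ℝ) * θ ^ T.card) :
    (((L * K' * q : ℕ) : ℝ) ^ h) ^ (m * (L * K' * q))
      ≤ ((good (K' := K') pos h).card : ℝ)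
        * ((1 + (Real.exp 1 / ((L * K' : ℕ) : ℝ))
              * (m * (1 + ((L * K' * q : ℕ) : ℝ) / h) ^ (m - 1)))
          * (1 + (Real.exp 1 / ((L * K' : ℕ) : ℝ))
              * (1 + ((L * K' * q : ℕ) : ℝ) / h) ^ m * θ ^ 2)) ^ (L * K' * L) := by
  have hcardG : Fintype.card (Grid L K' q) = L * K' * q := by simp
  have hC : 0 < Fintype.card (Grid L K' q) := by rw [hcardG]; positivity
  have hcardR : Fintype.card (Fin m × Grid L K' q) = m * (L * K' * q) := by
    rw [Fintype.card_prod, hcardG]; simp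
  have hhr : (0:ℝ) < h := by exact_mod_cast hh
  have hCr : (0:ℝ) < ((L * K' * q : ℕ) : ℝ) := by rw [← hcardG]; exact_mod_cast hC
  set c : ℝ := 1 + ((L * K' * q : ℕ) : ℝ) / h with hc
  have hc1 : 1 ≤ c := by
    have : 0 < ((L * K' * q : ℕ) : ℝ) / h := by positivity
    rw [hc]; linarith
  set M : ℝ := (((L * K' * q : ℕ) : ℝ) ^ h) ^ (m * (L * K' * q)) with hM
  have hM0 : 0 < M := by positivity
  set p : ℝ := ((h:ℝ) / ((L * K' * q : ℕ) : ℝ)) ^ (m * (L * K' * L)) with hp
  have hp0 : 0 < p := by positivity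
  set Q : ℝ := ((1 + (Real.exp 1 / ((L * K' : ℕ) : ℝ)) * (m * c ^ (m - 1)))
          * (1 + (Real.exp 1 / ((L * K' : ℕ) : ℝ)) * c ^ m * θ ^ 2)) ^ (L * K' * L) with hQ
  set O : ℝ := (Fintype.card (Obj L K' Wn) : ℝ) with hO
  have hOeq : O = ((L * K').factorial : ℝ) ^ L * ((Fintype.card Wn : ℝ) ^ (L * K')) ^ 2 := by
    rw [hO, card_Obj]
    push_cast
    ring
  have hO0 : 0 < O := by
    rw [hOeq]
    have : (0:ℝ) < (Fintype.card Wn : ℝ) := by exact_mod_cast hW
    positivity
  let Zt : (Fin m × Grid L K' q → (Fin h → Grid L K' q)) → ℝ := fun y =>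
    ∑ A : Obj L K' Wn, Zf pos A y
  have hfirst : ∑ y, Zt y = O * (M * p) := by
    show ∑ y, ∑ A : Obj L K' Wn, Zf pos A y = _
    rw [Finset.sum_comm]
    rw [Finset.sum_congr rfl (fun A _ => sum_Zf pos hpos hC A)]
    rw [Finset.sum_const, Finset.card_univ, nsmul_eq_mul, hcardR, hcardG]
  have hsecond : ∑ y, (Zt y) ^ 2 ≤ O * ((M * p ^ 2) * (O * Q)) := by
    calc ∑ y, (Zt y) ^ 2
        = ∑ A : Obj L K' Wn, ∑ B : Obj L K' Wn, ∑ y, Zf pos A y * Zf pos B y := by
          show ∑ y, (∑ A : Obj L K' Wn, Zf pos A y) ^ 2 = _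
          simp_rw [sq, Finset.sum_mul_sum]
          rw [Finset.sum_comm]
          apply Finset.sum_congr rfl; intro A _
          rw [Finset.sum_comm]
      _ ≤ ∑ _A : Obj L K' Wn, ((M * p ^ 2) * (O * Q)) := by
          apply Finset.sum_le_sum; intro A _
          calc ∑ B : Obj L K' Wn, ∑ y, Zf pos A y * Zf pos B y
              ≤ ∑ B : Obj L K' Wn, (M * p ^ 2) *
                c ^ (∑ z : Slot L K', wt pos A B.1 B.2.1 z (B.2.2 z.2 z.1)) := by
                apply Finset.sum_le_sum; intro B _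
                have h1 := sum_Zf_mul (h := h) pos hpos hC hh A B
                rw [hcardR, hcardG] at h1
                refine h1.trans ?_
                apply mul_le_mul_of_nonneg_left _ (by positivity)
                exact pow_le_pow_right₀ hc1 (card_mt_le pos A B)
            _ = (M * p ^ 2) * ∑ B : Obj L K' Wn,
                c ^ (∑ z : Slot L K', wt pos A B.1 B.2.1 z (B.2.2 z.2 z.1)) := by
                rw [Finset.mul_sum]
            _ ≤ (M * p ^ 2) * (O * Q) := by
                apply mul_le_mul_of_nonneg_left _ (by positivity)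
                rw [hOeq]
                exact sum_over_B pos hpos halign hm hK A c θ hc1 hθ hcount
      _ = O * ((M * p ^ 2) * (O * Q)) := by
          rw [Finset.sum_const, Finset.card_univ, nsmul_eq_mul]
  -- Cauchy-Schwarz on the good set
  have hsupp : ∑ y ∈ good (K' := K') pos h, Zt y = ∑ y, Zt y := by
    apply Finset.sum_subset (Finset.subset_univ _)
    intro y _ hy
    unfold good at hy
    rw [Finset.mem_filter] at hy
    push Not at hy
    have hy' := hy (Finset.mem_univ _)
    show ∑ A : Obj L K' Wn, Zf pos A y = 0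
    exact Finset.sum_eq_zero (fun A _ => hy' A)
  have hcs : (∑ y ∈ good (K' := K') pos h, Zt y) ^ 2
      ≤ ((good (K' := K') pos h).card : ℝ) * ∑ y ∈ good (K' := K') pos h, (Zt y) ^ 2 :=
    sq_sum_le_card_mul_sum_sq
  have hle : ∑ y ∈ good (K' := K') pos h, (Zt y) ^ 2 ≤ ∑ y, (Zt y) ^ 2 :=
    Finset.sum_le_sum_of_subset_of_nonneg (Finset.subset_univ _) (fun y _ _ => sq_nonneg _)
  rw [hsupp, hfirst] at hcs
  have h2 : (O * (M * p)) ^ 2
      ≤ ((good (K' := K') pos h).card : ℝ) * (O * ((M * p ^ 2) * (O * Q))) :=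
    hcs.trans (by gcongr; exact hle.trans hsecond)
  have h3 : (O ^ 2 * M * p ^ 2) * M ≤ (O ^ 2 * M * p ^ 2) *
      (((good (K' := K') pos h).card : ℝ) * Q) := by
    calc _ = (O * (M * p)) ^ 2 := by ring
      _ ≤ _ := h2
      _ = _ := by ring
  exact le_of_mul_le_mul_left h3 (by positivity)

end

end Pool.Agent.Helper39.LCP
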