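import Mathlib

set_option autoImplicit false

/-! Comparison of iid columns with uniform permutations. -/

namespace Pool.Agent.Helper39.LCP

open scoped BigOperators

theorem exists_rank {n : ℕ} (key : Fin n → ℕ) (hk : Function.Injective key) :
    ∃ π : Equiv.Perm (Fin n), ∀ a b, π a < π b ↔ key a < key b := by
  refine ⟨(Tuple.sort key)⁻¹, ?_⟩
  have hmono : Monotone (key ∘ Tuple.sort key) := Tuple.monotone_sort key
  have hinj : Function.Injective (key ∘ Tuple.sort key) := hk.comp (Tuple.sort key).injective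
  have hs : StrictMono (key ∘ Tuple.sort key) := hmono.strictMono_of_injective hinj
  intro a b
  have ha : key a = (key ∘ Tuple.sort key) ((Tuple.sort key)⁻¹ a) := by simp
  have hb : key b = (key ∘ Tuple.sort key) ((Tuple.sort key)⁻¹ b) := by simp
  rw [ha, hb, hs.lt_iff_lt]

theorem perm_val {n : ℕ} (π : Equiv.Perm (Fin n)) (a : Fin n) :
    (Finset.univ.filter (fun b => π b < π a)).card = (π a : ℕ) := by
  have h1 : (Finset.univ.filter (fun b => π b < π a)).map π.toEmbedding
      = Finset.Iio (π a) := by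
    ext c
    simp only [Finset.mem_map, Finset.mem_filter, Finset.mem_univ, true_and, Finset.mem_Iio]
    constructor
    · rintro ⟨b, hb, rfl⟩; exact hb
    · intro hc
      exact ⟨π.symm c, by simpa using hc, by simp⟩
  have h2 := congrArg Finset.card h1
  rw [Finset.card_map, Fin.card_Iio] at h2
  exact h2

theorem rank_unique {n : ℕ} (π π' : Equiv.Perm (Fin n))
    (h : ∀ a b, π a < π b ↔ π' a < π' b) : π = π' := by
  ext a
  rw [← perm_val π a, ← perm_val π' a]
  congr 1
  ext b
  simp [h b a]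

section

variable {m n : ℕ} {C : Type*} [Fintype C]

/-- injective key -/
def key (enc : C → ℕ) (y : Fin n → C) (w : Equiv.Perm (Fin n)) (a : Fin n) : ℕ :=
  enc (y a) * n + (w a : ℕ)

omit [Fintype C] in
theorem key_lt_of (enc : C → ℕ) (y : Fin n → C) (w : Equiv.Perm (Fin n)) (a b : Fin n)
    (h : enc (y a) < enc (y b)) : key enc y w a < key enc y w b := by
  unfold key
  have h1 : (w a : ℕ) < n := (w a).2
  have h2 : (enc (y a) + 1) * n ≤ enc (y b) * n := Nat.mul_le_mul_right n h
  nlinarith

omit [Fintype C] in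
theorem key_inj (enc : C → ℕ) (y : Fin n → C) (w : Equiv.Perm (Fin n)) :
    Function.Injective (key enc y w) := by
  intro a b hab
  rcases lt_trichotomy (enc (y a)) (enc (y b)) with h | h | h
  · exact absurd hab (key_lt_of enc y w a b h).ne
  · unfold key at hab
    rw [h] at hab
    have : (w a : ℕ) = (w b : ℕ) := by omega
    exact w.injective (Fin.ext this)
  · exact absurd hab (key_lt_of enc y w b a h).ne'

/-- the refined permutation -/
noncomputable def Rk (enc : C → ℕ) (y : Fin n → C) (w : Equiv.Perm (Fin n)) :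
    Equiv.Perm (Fin n) := Classical.choose (exists_rank _ (key_inj enc y w))

omit [Fintype C] in
theorem Rk_spec (enc : C → ℕ) (y : Fin n → C) (w : Equiv.Perm (Fin n)) (a b : Fin n) :
    Rk enc y w a < Rk enc y w b ↔ key enc y w a < key enc y w b :=
  Classical.choose_spec (exists_rank _ (key_inj enc y w)) a b

omit [Fintype C] in
theorem Rk_equiv (enc : C → ℕ) (y : Fin n → C) (w s : Equiv.Perm (Fin n)) :
    Rk enc (fun a => y (s a)) (w * s) = Rk enc y w * s := by
  apply rank_unique
  intro a b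
  rw [Rk_spec]
  show key enc (fun a => y (s a)) (w * s) a < key enc (fun a => y (s a)) (w * s) b ↔
    Rk enc y w (s a) < Rk enc y w (s b)
  rw [Rk_spec]
  rfl

theorem sum_Rk [DecidableEq C] (enc : C → ℕ) (Φ : (Fin m → Equiv.Perm (Fin n)) → ℝ) :
    ∑ a : (Fin m → Fin n → C) × (Fin m → Equiv.Perm (Fin n)),
        Φ (fun j => Rk enc (a.1 j) (a.2 j))
      = ((Fintype.card C : ℝ) ^ n) ^ m * ∑ π, Φ π := by
  classical
  set S := ∑ a : (Fin m → Fin n → C) × (Fin m → Equiv.Perm (Fin n)),
        Φ (fun j => Rk enc (a.1 j) (a.2 j)) with hS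
  -- invariance
  have hinv : ∀ s : Fin m → Equiv.Perm (Fin n),
      S = ∑ a : (Fin m → Fin n → C) × (Fin m → Equiv.Perm (Fin n)),
        Φ (fun j => Rk enc (a.1 j) (a.2 j) * s j) := by
    intro s
    let e : ((Fin m → Fin n → C) × (Fin m → Equiv.Perm (Fin n))) ≃
        ((Fin m → Fin n → C) × (Fin m → Equiv.Perm (Fin n))) :=
      { toFun := fun a => (fun j i => a.1 j (s j i), fun j => a.2 j * s j)
        invFun := fun a => (fun j i => a.1 j ((s j)⁻¹ i), fun j => a.2 j * (s j)⁻¹)
        left_inv := fun a => by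
          ext j i <;> simp
        right_inv := fun a => by
          ext j i <;> simp }
    rw [hS, ← e.sum_comp]
    apply Finset.sum_congr rfl
    intro a _
    congr 1
    ext1 j
    exact Rk_equiv enc (a.1 j) (a.2 j) (s j)
  have hsum : (Fintype.card (Fin m → Equiv.Perm (Fin n)) : ℝ) * S
      = (Fintype.card ((Fin m → Fin n → C) × (Fin m → Equiv.Perm (Fin n))) : ℝ) * ∑ π, Φ π := by
    calc (Fintype.card (Fin m → Equiv.Perm (Fin n)) : ℝ) * S
        = ∑ _s : Fin m → Equiv.Perm (Fin n), S := by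
          rw [Finset.sum_const, Finset.card_univ, nsmul_eq_mul]
      _ = ∑ s : Fin m → Equiv.Perm (Fin n),
          ∑ a : (Fin m → Fin n → C) × (Fin m → Equiv.Perm (Fin n)),
          Φ (fun j => Rk enc (a.1 j) (a.2 j) * s j) := Finset.sum_congr rfl (fun s _ => hinv s)
      _ = ∑ a : (Fin m → Fin n → C) × (Fin m → Equiv.Perm (Fin n)),
          ∑ s : Fin m → Equiv.Perm (Fin n),
          Φ (fun j => Rk enc (a.1 j) (a.2 j) * s j) := Finset.sum_comm
      _ = ∑ _a : (Fin m → Fin n → C) × (Fin m → Equiv.Perm (Fin n)), ∑ π, Φ π := by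
          apply Finset.sum_congr rfl
          intro a _
          exact Equiv.sum_comp (Equiv.mulLeft (fun j => Rk enc (a.1 j) (a.2 j))) Φ
      _ = _ := by rw [Finset.sum_const, Finset.card_univ, nsmul_eq_mul]
  have hcard : (Fintype.card ((Fin m → Fin n → C) × (Fin m → Equiv.Perm (Fin n))) : ℝ)
      = ((Fintype.card C : ℝ) ^ n) ^ m * (Fintype.card (Fin m → Equiv.Perm (Fin n)) : ℝ) := by
    rw [Fintype.card_prod]
    simp
  have hpos : (0:ℝ) < (Fintype.card (Fin m → Equiv.Perm (Fin n)) : ℝ) := by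
    exact_mod_cast Fintype.card_pos
  rw [hcard] at hsum
  have : (Fintype.card (Fin m → Equiv.Perm (Fin n)) : ℝ) * S =
      (Fintype.card (Fin m → Equiv.Perm (Fin n)) : ℝ) * (((Fintype.card C : ℝ) ^ n) ^ m * ∑ π, Φ π) := by
    rw [hsum]; ring
  exact mul_left_cancel₀ hpos.ne' this

/-- iid columns are dominated by uniform permutations -/
theorem coupling [DecidableEq C] (enc : C → ℕ) (G : (Fin m → Fin n → C) → ℝ)
    (Φ : (Fin m → Equiv.Perm (Fin n)) → ℝ)
    (h : ∀ y π, (∀ j a b, enc (y j a) < enc (y j b) → π j a < π j b) → G y ≤ Φ π) :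
    (∑ y, G y) * ((n.factorial : ℝ) ^ m) ≤ ((Fintype.card C : ℝ) ^ n) ^ m * ∑ π, Φ π := by
  rw [← sum_Rk enc Φ, Fintype.sum_prod_type, Finset.sum_mul]
  apply Finset.sum_le_sum
  intro y _
  calc G y * (n.factorial : ℝ) ^ m = ∑ _w : Fin m → Equiv.Perm (Fin n), G y := by
        rw [Finset.sum_const, Finset.card_univ, nsmul_eq_mul]
        simp [Fintype.card_perm]
        ring
    _ ≤ ∑ w : Fin m → Equiv.Perm (Fin n), Φ (fun j => Rk enc (y j) (w j)) := by
        apply Finset.sum_le_sum
        intro w _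
        apply h
        intro j a b hab
        rw [Rk_spec]
        exact key_lt_of enc (y j) (w j) a b hab

end

end Pool.Agent.Helper39.LCP
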