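import Mathlib
import Pool.Agent.Helper39.Coupling

set_option autoImplicit false

/-! Extraction of a common pattern. -/

namespace Pool.Agent.Helper39.LCP

open scoped BigOperators

/-- lengths of common patterns -/
def patSet {m n : ℕ} (π : Fin m → Equiv.Perm (Fin n)) : Set ℕ :=
  {k : ℕ | ∃ σ : Equiv.Perm (Fin k), ∀ i : Fin m, ∃ e : Fin k ↪o Fin n,
          ∀ a b : Fin k, σ a < σ b ↔ π i (e a) < π i (e b)}

theorem patSet_bdd {m n : ℕ} (hm : 0 < m) (π : Fin m → Equiv.Perm (Fin n)) :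
    BddAbove (patSet π) := by
  refine ⟨n, ?_⟩
  rintro k ⟨σ, h⟩
  obtain ⟨e, _⟩ := h ⟨0, hm⟩
  simpa using Fintype.card_le_of_embedding e.toEmbedding

theorem pattern_mem {m n : ℕ} {I : Type*} [DecidableEq I] (S : Finset I) (u v : I → ℕ)
    (hu : Set.InjOn u S) (hv : Set.InjOn v S)
    (π : Fin m → Equiv.Perm (Fin n)) (p : Fin m → I → Fin n)
    (hp : ∀ j, ∀ a ∈ S, ∀ b ∈ S, u a < u b → p j a < p j b)
    (hq : ∀ j, ∀ a ∈ S, ∀ b ∈ S, v a < v b → π j (p j a) < π j (p j b)) :
    S.card ∈ patSet π := by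
  classical
  set k := S.card with hk
  have hT : (S.image u).card = k := Finset.card_image_of_injOn hu
  let o : Fin k ↪o ℕ := (S.image u).orderEmbOfFin hT
  have ho : ∀ x, ∃ a ∈ S, u a = o x := by
    intro x
    have : o x ∈ S.image u := Finset.orderEmbOfFin_mem _ hT x
    simpa using this
  choose A hA1 hA2 using ho
  have hAinj : Function.Injective A := by
    intro x y hxy
    apply o.injective
    rw [← hA2, ← hA2, hxy]
  have hkey : Function.Injective (fun x : Fin k => v (A x)) := by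
    intro x y hxy
    exact hAinj (hv (hA1 x) (hA1 y) hxy)
  obtain ⟨σ, hσ⟩ := exists_rank (fun x : Fin k => v (A x)) hkey
  refine ⟨σ, ?_⟩
  intro j
  have hmono : StrictMono (fun x : Fin k => p j (A x)) := by
    intro x y hxy
    apply hp j _ (hA1 x) _ (hA1 y)
    rw [hA2, hA2]
    exact o.strictMono hxy
  refine ⟨OrderEmbedding.ofStrictMono _ hmono, ?_⟩
  intro a b
  rw [hσ]
  show v (A a) < v (A b) ↔ π j (p j (A a)) < π j (p j (A b))
  constructor
  · intro h; exact hq j _ (hA1 a) _ (hA1 b) h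
  · intro h
    rcases lt_trichotomy (v (A a)) (v (A b)) with h1 | h1 | h1
    · exact h1
    · have : a = b := hkey h1
      subst this
      exact absurd h (lt_irrefl _)
    · exact absurd (hq j _ (hA1 b) _ (hA1 a) h1) (not_lt.mpr h.le)

theorem card_le_sSup {m n : ℕ} (hm : 0 < m) {I : Type*} [DecidableEq I] (S : Finset I) (u v : I → ℕ)
    (hu : Set.InjOn u S) (hv : Set.InjOn v S)
    (π : Fin m → Equiv.Perm (Fin n)) (p : Fin m → I → Fin n)
    (hp : ∀ j, ∀ a ∈ S, ∀ b ∈ S, u a < u b → p j a < p j b)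
    (hq : ∀ j, ∀ a ∈ S, ∀ b ∈ S, v a < v b → π j (p j a) < π j (p j b)) :
    S.card ≤ sSup (patSet π) :=
  le_csSup (patSet_bdd hm π) (pattern_mem S u v hu hv π p hp hq)

end Pool.Agent.Helper39.LCP
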