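import Mathlib
import Pool.Agent.Helper39.McD

set_option autoImplicit false

/-! The window family. -/

namespace Pool.Agent.Helper39.LCP

open scoped BigOperators

/-- nonnegative integer vectors of length `m` and sum `2m` (gap vectors minus one) -/
abbrev Gp (m : ℕ) := {P : Fin m → ℕ // ∑ i, P i = 2 * m}

noncomputable instance (m : ℕ) : Fintype (Gp m) :=
  Fintype.ofEquiv _ (Sym.equivNatSumOfFintype (Fin m) (2 * m))

theorem card_Gp (m : ℕ) : Fintype.card (Gp m) = (m + 2 * m - 1).choose (2 * m) := by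
  rw [← Fintype.card_congr (Sym.equivNatSumOfFintype (Fin m) (2 * m)), Sym.card_sym_eq_choose]
  simp

theorem Gp_nonempty (m : ℕ) : Nonempty (Gp m) :=
  ⟨⟨fun _ => 2, by simp; ring⟩⟩

theorem Gp_le {m : ℕ} (g : Gp m) (j : Fin m) : g.1 j ≤ 2 * m :=
  (Finset.single_le_sum (f := g.1) (fun _ _ => Nat.zero_le _) (Finset.mem_univ j)).trans_eq g.2

/-- exchangeability gives the mean -/
theorem Gp_mean {m : ℕ} (hm : 0 < m) (j : Fin m) :
    ∑ g : Gp m, ((g.1 j : ℝ) - 2) = 0 := by
  have hsym : ∀ i : Fin m, ∑ g : Gp m, (g.1 i : ℝ) = ∑ g : Gp m, (g.1 j : ℝ) := by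
    intro i
    let e : Gp m ≃ Gp m :=
      { toFun := fun g => ⟨fun a => g.1 (Equiv.swap i j a),
          (Equiv.sum_comp (Equiv.swap i j) g.1).trans g.2⟩
        invFun := fun g => ⟨fun a => g.1 (Equiv.swap i j a),
          (Equiv.sum_comp (Equiv.swap i j) g.1).trans g.2⟩
        left_inv := fun g => by ext a; simp
        right_inv := fun g => by ext a; simp }
    rw [← e.sum_comp]
    apply Finset.sum_congr rfl
    intro g _
    show ((g.1 (Equiv.swap i j i) : ℕ) : ℝ) = _
    rw [Equiv.swap_apply_left]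
  have htot : ∑ i : Fin m, ∑ g : Gp m, (g.1 i : ℝ) = (Fintype.card (Gp m) : ℝ) * (2 * m) := by
    rw [Finset.sum_comm]
    have : ∀ g : Gp m, ∑ i : Fin m, (g.1 i : ℝ) = 2 * m := by
      intro g
      have := g.2
      exact_mod_cast this
    rw [Finset.sum_congr rfl (fun g _ => this g), Finset.sum_const, Finset.card_univ, nsmul_eq_mul]
  rw [Finset.sum_congr rfl (fun i _ => hsym i), Finset.sum_const, Finset.card_univ,
    Fintype.card_fin, nsmul_eq_mul] at htot
  have hm' : (m:ℝ) ≠ 0 := by positivity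
  have h2 : ∑ g : Gp m, (g.1 j : ℝ) = (Fintype.card (Gp m) : ℝ) * 2 := by
    have : (m:ℝ) * ∑ g : Gp m, (g.1 j : ℝ) = m * ((Fintype.card (Gp m) : ℝ) * 2) := by
      rw [htot]; ring
    exact mul_left_cancel₀ hm' this
  rw [Finset.sum_sub_distrib, h2]
  simp

theorem var_bound {G : Type*} [Fintype G] (a : G → ℝ) (ha : ∑ g, a g = 0) (B : ℝ)
    (hB : ∀ g, (a g) ^ 2 ≤ B) : ∀ L : ℕ,
    ∑ w : Fin L → G, (∑ s, a (w s)) ^ 2 ≤ L * (Fintype.card G : ℝ) ^ L * B := by
  intro L
  induction L with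
  | zero => simp
  | succ L ih =>
    rw [sum_fin_succ]
    have h1 : ∀ g : G, ∀ w : Fin L → G,
        (∑ s : Fin (L + 1), a ((Fin.cons g w : Fin (L + 1) → G) s)) ^ 2
        = (a g) ^ 2 + 2 * a g * (∑ s, a (w s)) + (∑ s, a (w s)) ^ 2 := by
      intro g w
      rw [Fin.sum_univ_succ]
      simp only [Fin.cons_zero, Fin.cons_succ]
      ring
    simp_rw [h1, Finset.sum_add_distrib]
    have h2 : ∑ g : G, ∑ w : Fin L → G, (a g) ^ 2
        ≤ (Fintype.card G : ℝ) * ((Fintype.card G : ℝ) ^ L * B) := by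
      calc _ ≤ ∑ _g : G, ∑ _w : Fin L → G, B :=
            Finset.sum_le_sum (fun g _ => Finset.sum_le_sum (fun w _ => hB g))
        _ = _ := by simp [Finset.card_univ]
    have h3 : ∑ g : G, ∑ w : Fin L → G, 2 * a g * (∑ s, a (w s)) = 0 := by
      rw [Finset.sum_comm]
      apply Finset.sum_eq_zero
      intro w _
      rw [← Finset.sum_mul, ← Finset.mul_sum, ha]
      ring
    have h4 : ∑ _g : G, ∑ w : Fin L → G, (∑ s, a (w s)) ^ 2
        ≤ (Fintype.card G : ℝ) * (L * (Fintype.card G : ℝ) ^ L * B) := by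
      rw [Finset.sum_const, Finset.card_univ, nsmul_eq_mul]
      gcongr
    rw [h3]
    calc _ ≤ (Fintype.card G : ℝ) * ((Fintype.card G : ℝ) ^ L * B) + 0
          + (Fintype.card G : ℝ) * (L * (Fintype.card G : ℝ) ^ L * B) := by linarith
      _ = ((L + 1 : ℕ) : ℝ) * (Fintype.card G : ℝ) ^ (L + 1) * B := by push_cast; ring

/-- windows -/
abbrev Wd (m L q : ℕ) := {w : Fin L → Gp m // ∀ j, L + ∑ s, (w s).1 j ≤ q}

noncomputable instance (m L q : ℕ) : Fintype (Wd m L q) := by
  classical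
  exact Subtype.fintype _

theorem partial_lt {m L q : ℕ} (w : Wd m L q) (j : Fin m) (s : Fin L) :
    (s : ℕ) + ∑ s' ∈ Finset.univ.filter (fun s' => s' ≤ s), (w.1 s').1 j < q := by
  have h1 := w.2 j
  have h2 : ∑ s' ∈ Finset.univ.filter (fun s' => s' ≤ s), (w.1 s').1 j ≤ ∑ s', (w.1 s').1 j :=
    Finset.sum_le_sum_of_subset (Finset.filter_subset _ _)
  have h3 := s.2
  omega

/-- positions inside a window -/
def wpos {m L q : ℕ} (w : Wd m L q) (j : Fin m) (s : Fin L) : Fin q :=
  ⟨(s : ℕ) + ∑ s' ∈ Finset.univ.filter (fun s' => s' ≤ s), (w.1 s').1 j, partial_lt w j s⟩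

theorem wpos_strictMono {m L q : ℕ} (w : Wd m L q) (j : Fin m) : StrictMono (wpos w j) := by
  intro s t hst
  show (s : ℕ) + ∑ s' ∈ Finset.univ.filter (fun s' => s' ≤ s), (w.1 s').1 j
    < (t : ℕ) + ∑ s' ∈ Finset.univ.filter (fun s' => s' ≤ t), (w.1 s').1 j
  have h1 : ∑ s' ∈ Finset.univ.filter (fun s' => s' ≤ s), (w.1 s').1 j
      ≤ ∑ s' ∈ Finset.univ.filter (fun s' => s' ≤ t), (w.1 s').1 j := by
    apply Finset.sum_le_sum_of_subset
    intro x hx
    rw [Finset.mem_filter] at hx ⊢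
    exact ⟨hx.1, hx.2.trans hst.le⟩
  have h2 : (s : ℕ) < t := hst
  omega

theorem sum_wpos {m L q : ℕ} (w : Wd m L q) (s : Fin L) :
    ∑ j, ((wpos w j s : Fin q) : ℕ) = m * s + (s + 1) * (2 * m) := by
  have : ∀ j, ((wpos w j s : Fin q) : ℕ)
      = (s : ℕ) + ∑ s' ∈ Finset.univ.filter (fun s' => s' ≤ s), (w.1 s').1 j := fun j => rfl
  rw [Finset.sum_congr rfl (fun j _ => this j), Finset.sum_add_distrib, Finset.sum_comm]
  rw [Finset.sum_congr rfl (fun s' _ => (w.1 s').2)]
  simp only [Finset.sum_const, Finset.card_univ, Fintype.card_fin, smul_eq_mul]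
  congr 2
  have : (Finset.univ.filter (fun s' => s' ≤ s)) = Finset.Iic s := by
    ext x; simp
  rw [this, Fin.card_Iic]

theorem walign {m L q : ℕ} (hm : 0 < m) (w w' : Wd m L q) (s s' : Fin L)
    (h : ∀ j, wpos w j s = wpos w' j s') : s = s' := by
  have h1 := sum_wpos w s
  have h2 := sum_wpos w' s'
  rw [Finset.sum_congr rfl (fun j _ => by rw [h j])] at h1
  rw [h1] at h2
  ext
  nlinarith

/-- constrained windows are rare -/
theorem wcount_aux {m L q : ℕ} (w : Wd m L q) (T : Finset (Fin L)) :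
    (Finset.univ.filter (fun w' : Wd m L q => ∀ s ∈ T, ∀ j, wpos w j s = wpos w' j s)).card
      ≤ (Fintype.card (Gp m)) ^ (L - T.card) := by
  classical
  have hcard : Fintype.card ({s : Fin L // s ∉ T} → Gp m)
      = (Fintype.card (Gp m)) ^ (L - T.card) := by
    rw [Fintype.card_fun]
    congr 1
    rw [Fintype.card_subtype_compl]
    simp
  rw [← hcard, ← Finset.card_univ]
  apply Finset.card_le_card_of_injOn (fun w' : Wd m L q => fun s : {s : Fin L // s ∉ T} => w'.1 s)
    (fun _ _ => Finset.mem_coe.mpr (Finset.mem_univ _))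
  intro w1 h1 w2 h2 h12
  rw [Finset.mem_coe, Finset.mem_filter] at h1 h2
  apply Subtype.ext
  funext s
  -- strong induction on s
  have main : ∀ n : ℕ, ∀ s : Fin L, (s : ℕ) = n → w1.1 s = w2.1 s := by
    intro n
    induction n using Nat.strong_induction_on with
    | _ n ih =>
      intro s hs
      by_cases hsT : s ∈ T
      · apply Subtype.ext
        funext j
        have e1 := h1.2 s hsT j
        have e2 := h2.2 s hsT j
        have e3 : wpos w1 j s = wpos w2 j s := e1.symm.trans e2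
        have e4 : (s : ℕ) + ∑ s' ∈ Finset.univ.filter (fun s' => s' ≤ s), (w1.1 s').1 j
            = (s : ℕ) + ∑ s' ∈ Finset.univ.filter (fun s' => s' ≤ s), (w2.1 s').1 j :=
          congrArg Fin.val e3
        have e5 : (Finset.univ.filter (fun s' : Fin L => s' ≤ s))
            = insert s (Finset.univ.filter (fun s' : Fin L => s' < s)) := by
          ext x
          simp only [Finset.mem_filter, Finset.mem_univ, true_and, Finset.mem_insert]
          exact le_iff_eq_or_lt
        rw [e5, Finset.sum_insert (by simp), Finset.sum_insert (by simp)] at e4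
        have e6 : ∑ s' ∈ Finset.univ.filter (fun s' => s' < s), (w1.1 s').1 j
            = ∑ s' ∈ Finset.univ.filter (fun s' => s' < s), (w2.1 s').1 j := by
          apply Finset.sum_congr rfl
          intro x hx
          rw [Finset.mem_filter] at hx
          rw [ih (x : ℕ) (by have : (x:ℕ) < s := hx.2; omega) x rfl]
        omega
      · have := congrFun h12 ⟨s, hsT⟩
        exact this
  exact main s s rfl

theorem union_bound {Ω ι : Type*} [Fintype Ω] [Fintype ι] (P : ι → Ω → Prop)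
    [∀ j w, Decidable (P j w)] [Fintype {w : Ω // ∀ j, P j w}] :
    Fintype.card Ω ≤ Fintype.card {w : Ω // ∀ j, P j w}
      + ∑ j, (Finset.univ.filter (fun w => ¬ P j w)).card := by
  classical
  have h2 : (Finset.univ : Finset Ω)
      ⊆ (Finset.univ.filter (fun w => ∀ j, P j w))
        ∪ Finset.univ.biUnion (fun j => Finset.univ.filter (fun w => ¬ P j w)) := by
    intro w _
    rw [Finset.mem_union]
    by_cases hw : ∀ j, P j w
    · left; rw [Finset.mem_filter]; exact ⟨Finset.mem_univ _, hw⟩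
    · right
      rw [not_forall] at hw
      obtain ⟨j, hj⟩ := hw
      rw [Finset.mem_biUnion]
      exact ⟨j, Finset.mem_univ _, by rw [Finset.mem_filter]; exact ⟨Finset.mem_univ _, hj⟩⟩
  have h3 := Finset.card_le_card h2
  rw [Finset.card_univ] at h3
  refine h3.trans ((Finset.card_union_le _ _).trans ?_)
  apply add_le_add
  · rw [Fintype.card_subtype]
  · exact Finset.card_biUnion_le

theorem bad_bound {m L q : ℕ} (hm : 0 < m) (hLpos : 0 < L) (hq : 10 * q = 31 * L) (j : Fin m) :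
    ((Finset.univ.filter (fun w : Fin L → Gp m => ¬ (L + ∑ s, (w s).1 j ≤ q))).card : ℝ)
      ≤ (Fintype.card (Gp m) : ℝ) ^ L * (400 * m ^ 2 / L) := by
  have hLr : (0:ℝ) < L := by exact_mod_cast hLpos
  have hmr : (1:ℝ) ≤ m := by exact_mod_cast hm
  set N : ℝ := (Fintype.card (Gp m) : ℝ) ^ L with hN
  set bad : Finset (Fin L → Gp m) :=
    Finset.univ.filter (fun w : Fin L → Gp m => ¬ (L + ∑ s, (w s).1 j ≤ q)) with hbaddef
  have hbad : (bad.card : ℝ) * (L / 100 * L) ≤ L * N * (4 * m ^ 2) := by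
    have h1 := var_bound (fun g : Gp m => ((g.1 j : ℝ) - 2)) (Gp_mean hm j) (4 * m ^ 2) (by
      intro g
      have h2 := Gp_le g j
      have h3 : (g.1 j : ℝ) ≤ 2 * m := by exact_mod_cast h2
      have h4 : (0:ℝ) ≤ (g.1 j : ℝ) := by positivity
      nlinarith) L
    refine le_trans ?_ h1
    have h9 : ∀ w ∈ bad, (L:ℝ) / 100 * L ≤ (∑ s, (((w s).1 j : ℝ) - 2)) ^ 2 := by
      intro w hw
      rw [hbaddef, Finset.mem_filter] at hw
      have hw' := hw.2
      rw [not_le] at hw'
      have h5 : (q:ℝ) < L + ∑ s, ((w s).1 j : ℝ) := by exact_mod_cast hw'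
      have h6 : (10:ℝ) * q = 31 * L := by exact_mod_cast hq
      have h7 : (L:ℝ) / 10 ≤ ∑ s, (((w s).1 j : ℝ) - 2) := by
        rw [Finset.sum_sub_distrib]
        simp only [Finset.sum_const, Finset.card_univ, Fintype.card_fin, nsmul_eq_mul]
        linarith
      have h8 : ((L:ℝ) / 10) ^ 2 ≤ (∑ s, (((w s).1 j : ℝ) - 2)) ^ 2 := by gcongr
      calc (L:ℝ) / 100 * L = ((L:ℝ) / 10) ^ 2 := by ring
        _ ≤ _ := h8
    have h10 : ∑ _w ∈ bad, ((L:ℝ) / 100 * L) ≤ ∑ w ∈ bad, (∑ s, (((w s).1 j : ℝ) - 2)) ^ 2 :=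
      Finset.sum_le_sum h9
    have h11 : ∑ w ∈ bad, (∑ s, (((w s).1 j : ℝ) - 2)) ^ 2
        ≤ ∑ w : Fin L → Gp m, (∑ s, (((w s).1 j : ℝ) - 2)) ^ 2 :=
      Finset.sum_le_sum_of_subset_of_nonneg (Finset.subset_univ bad)
        (fun w _ _ => sq_nonneg _)
    rw [Finset.sum_const, nsmul_eq_mul] at h10
    exact h10.trans h11
  have h2 : (bad.card : ℝ) * (L * L) ≤ (N * (400 * m ^ 2 / L)) * (L * L) := by
    calc (bad.card : ℝ) * (L * L) = 100 * ((bad.card : ℝ) * (L / 100 * L)) := by ring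
      _ ≤ 100 * (L * N * (4 * m ^ 2)) := by linarith
      _ = (N * (400 * m ^ 2 / L)) * (L * L) := by field_simp; ring
  exact le_of_mul_le_mul_right h2 (by positivity)

theorem card_Wd {m L q : ℕ} (hm : 0 < m) (hL : 800 * m ^ 3 ≤ L) (hq : 10 * q = 31 * L) :
    (Fintype.card (Gp m) : ℝ) ^ L ≤ 2 * (Fintype.card (Wd m L q) : ℝ) := by
  classical
  have hLpos : 0 < L := by
    have : 0 < 800 * m ^ 3 := by positivity
    omega
  have hLr : (0:ℝ) < L := by exact_mod_cast hLpos
  have hunion := union_bound (Ω := Fin L → Gp m) (ι := Fin m)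
    (fun j w => L + ∑ s, (w s).1 j ≤ q)
  have h4 : (Fintype.card (Fin L → Gp m) : ℝ) = (Fintype.card (Gp m) : ℝ) ^ L := by
    rw [Fintype.card_fun]; simp
  set N : ℝ := (Fintype.card (Gp m) : ℝ) ^ L with hN
  have hN0 : 0 ≤ N := by positivity
  have hunion' : N ≤ (Fintype.card (Wd m L q) : ℝ)
      + ∑ j : Fin m, ((Finset.univ.filter
        (fun w : Fin L → Gp m => ¬ (L + ∑ s, (w s).1 j ≤ q))).card : ℝ) := by
    rw [← h4]
    have h5 : Fintype.card (Fin L → Gp m) ≤ Fintype.card (Wd m L q)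
      + ∑ j : Fin m, ((Finset.univ.filter
        (fun w : Fin L → Gp m => ¬ (L + ∑ s, (w s).1 j ≤ q))).card) := hunion
    exact_mod_cast h5
  have hsum : ∑ j : Fin m, ((Finset.univ.filter
        (fun w : Fin L → Gp m => ¬ (L + ∑ s, (w s).1 j ≤ q))).card : ℝ) ≤ N / 2 := by
    calc _ ≤ ∑ _j : Fin m, N * (400 * m ^ 2 / L) :=
          Finset.sum_le_sum (fun j _ => bad_bound hm hLpos hq j)
      _ = N * (400 * m ^ 3 / L) := by
          rw [Finset.sum_const, Finset.card_univ, Fintype.card_fin, nsmul_eq_mul]; ring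
      _ ≤ N * (1 / 2) := by
          apply mul_le_mul_of_nonneg_left _ hN0
          rw [div_le_div_iff₀ hLr two_pos]
          have : ((800 * m ^ 3 : ℕ) : ℝ) ≤ L := by exact_mod_cast hL
          push_cast at this
          linarith
      _ = N / 2 := by ring
  linarith

theorem wcount {m L q : ℕ} (hm : 0 < m) (hL : 800 * m ^ 3 ≤ L) (hq : 10 * q = 31 * L)
    (w : Wd m L q) (T : Finset (Fin L)) :
    ((Finset.univ.filter (fun w' : Wd m L q => ∀ s ∈ T, ∀ j, wpos w j s = wpos w' j s)).card : ℝ)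
      ≤ (Fintype.card (Wd m L q) : ℝ) * (2 / (Fintype.card (Gp m) : ℝ)) ^ T.card := by
  classical
  have hG : (0:ℝ) < (Fintype.card (Gp m) : ℝ) := by
    have := Gp_nonempty m
    exact_mod_cast Fintype.card_pos
  rcases T.eq_empty_or_nonempty with rfl | hT
  · simp only [Finset.card_empty, pow_zero, mul_one]
    exact_mod_cast Finset.card_le_univ _
  · have h1 : ((Finset.univ.filter
        (fun w' : Wd m L q => ∀ s ∈ T, ∀ j, wpos w j s = wpos w' j s)).card : ℝ)
        ≤ (Fintype.card (Gp m) : ℝ) ^ (L - T.card) := by exact_mod_cast wcount_aux w T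
    refine h1.trans ?_
    have hTL : T.card ≤ L := by simpa using Finset.card_le_univ T
    have h2 : (Fintype.card (Gp m) : ℝ) ^ (L - T.card)
        = (Fintype.card (Gp m) : ℝ) ^ L / (Fintype.card (Gp m) : ℝ) ^ T.card := by
      rw [eq_div_iff (by positivity), ← pow_add]
      congr 1; omega
    rw [h2, div_pow, ← mul_div_assoc]
    apply div_le_div_of_nonneg_right _ (by positivity)
    refine (card_Wd hm hL hq).trans ?_
    rw [mul_comm]
    apply mul_le_mul_of_nonneg_left _ (by positivity)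
    calc (2:ℝ) = 2 ^ 1 := by norm_num
      _ ≤ 2 ^ T.card := pow_le_pow_right₀ (by norm_num) hT.card_pos

end Pool.Agent.Helper39.LCP
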