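import Mathlib
import Pool.Agent.Helper39.Moment4
import Pool.Agent.Helper39.Window
import Pool.Agent.Helper39.Pattern

set_option autoImplicit false

/-! Assembly: lower bound for the expected longest common pattern. -/

namespace Pool.Agent.Helper39.LCP

open scoped BigOperators

/-- window code -/
def winC {L K' : ℕ} (i : Win L K') : ℕ := (i.2 : ℕ) + K' * (i.1 : ℕ)

/-- lexicographic code of a pair (window, offset) -/
def encN {L K' q : ℕ} (r : (Fin L × Fin K') × Fin q) : ℕ := (r.2 : ℕ) + q * winC r.1

theorem winC_inj {L K' : ℕ} : Function.Injective (winC : Win L K' → ℕ) := by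
  intro i i' h
  unfold winC at h
  have h1 := i.2.2
  have h2 := i'.2.2
  have hK : 0 < K' := lt_of_le_of_lt (Nat.zero_le _) h1
  have e1 : (i.1 : ℕ) = (i'.1 : ℕ) := by
    have := congrArg (· / K') h
    simp only [Nat.add_mul_div_left _ _ hK, Nat.div_eq_of_lt h1, Nat.div_eq_of_lt h2,
      zero_add] at this
    exact this
  have e2 : (i.2 : ℕ) = (i'.2 : ℕ) := by rw [e1] at h; omega
  exact Prod.ext (Fin.ext e1) (Fin.ext e2)

theorem encN_inj {L K' q : ℕ} : Function.Injective (encN : (Fin L × Fin K') × Fin q → ℕ) := by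
  intro r r' h
  unfold encN at h
  have h1 := r.2.2
  have h2 := r'.2.2
  have hq : 0 < q := lt_of_le_of_lt (Nat.zero_le _) h1
  have e1 : winC r.1 = winC r'.1 := by
    have := congrArg (· / q) h
    simp only [Nat.add_mul_div_left _ _ hq, Nat.div_eq_of_lt h1, Nat.div_eq_of_lt h2,
      zero_add] at this
    exact this
  have e2 : (r.2 : ℕ) = (r'.2 : ℕ) := by rw [e1] at h; omega
  exact Prod.ext (winC_inj e1) (Fin.ext e2)

theorem encN_lt {L K' q : ℕ} (r : (Fin L × Fin K') × Fin q) : encN r < L * K' * q := by
  unfold encN winC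
  have h1 : (r.1.1 : ℕ) + 1 ≤ L := r.1.1.2
  have h2 : (r.1.2 : ℕ) + 1 ≤ K' := r.1.2.2
  have h3 : (r.2 : ℕ) + 1 ≤ q := r.2.2
  have h4 : (r.1.2 : ℕ) + K' * (r.1.1 : ℕ) + 1 ≤ L * K' := by nlinarith
  nlinarith

/-- lexicographic monotonicity -/
theorem lex_mono {m L K' q : ℕ} {Wn : Type} (pos : Wn → Fin m → Fin L → Fin q)
    (hmono : ∀ w j, StrictMono (pos w j)) (X : Win L K' → Wn) (j : Fin m) (z z' : Slot L K')
    (h : encN z < encN z') :
    encN ((z.1, pos (X z.1) j z.2) : Grid L K' q) < encN ((z'.1, pos (X z'.1) j z'.2) : Grid L K' q) := by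
  unfold encN at h ⊢
  simp only
  have h1 : (z.2 : ℕ) < L := z.2.2
  have h2 : (z'.2 : ℕ) < L := z'.2.2
  have hp := (pos (X z.1) j z.2).2
  have hp' := (pos (X z'.1) j z'.2).2
  rcases lt_trichotomy (winC z.1) (winC z'.1) with hw | hw | hw
  · have : (winC z.1 + 1) * q ≤ winC z'.1 * q := Nat.mul_le_mul_right q hw
    nlinarith
  · have e1 : z.1 = z'.1 := winC_inj hw
    rw [hw] at h ⊢
    have h3 : (z.2 : ℕ) < z'.2 := by omega
    have h4 : pos (X z.1) j z.2 < pos (X z'.1) j z'.2 := by
      rw [← e1]; exact hmono _ _ h3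
    have h5 : ((pos (X z.1) j z.2 : Fin q) : ℕ) < (pos (X z'.1) j z'.2 : Fin q) := h4
    omega
  · exfalso
    have : (winC z'.1 + 1) * L ≤ winC z.1 * L := Nat.mul_le_mul_right L hw
    nlinarith

/-- position code: (row, index in the row) -/
def posF {L K' q h : ℕ} (r : Grid L K' q) (t : Fin h) : Fin (L * K' * q * h) :=
  ⟨(t : ℕ) + h * encN r, by
    have h1 : (t : ℕ) < h := t.2
    have h2 : encN r + 1 ≤ L * K' * q := encN_lt r
    calc (t : ℕ) + h * encN r < h + h * encN r := by omega
      _ = h * (encN r + 1) := by ring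
      _ ≤ h * (L * K' * q) := Nat.mul_le_mul_left h h2
      _ = L * K' * q * h := by ring⟩

theorem posF_inj {L K' q h : ℕ} :
    Function.Injective (fun p : Grid L K' q × Fin h => posF p.1 p.2) := by
  rintro ⟨r, t⟩ ⟨r', t'⟩ hp
  have hp' : (t : ℕ) + h * encN r = (t' : ℕ) + h * encN r' := congrArg Fin.val hp
  have h1 := t.2
  have h2 := t'.2
  have hh : 0 < h := lt_of_le_of_lt (Nat.zero_le _) h1
  have e1 : encN r = encN r' := by
    have := congrArg (· / h) hp'
    simp only [Nat.add_mul_div_left _ _ hh, Nat.div_eq_of_lt h1, Nat.div_eq_of_lt h2,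
      zero_add] at this
    exact this
  have e2 : (t : ℕ) = (t' : ℕ) := by rw [e1] at hp'; omega
  exact Prod.ext (encN_inj e1) (Fin.ext e2)

theorem posF_bij {L K' q h : ℕ} :
    Function.Bijective (fun p : Grid L K' q × Fin h => posF p.1 p.2) := by
  rw [Fintype.bijective_iff_injective_and_card]
  exact ⟨posF_inj, by simp⟩

/-- positions as an equivalence -/
noncomputable def posE (L K' q h : ℕ) : Grid L K' q × Fin h ≃ Fin (L * K' * q * h) :=
  Equiv.ofBijective _ posF_bij

/-- unfold the position coordinate -/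
noncomputable def unf (m L K' q h : ℕ) :
    (Fin m → Fin (L * K' * q * h) → Grid L K' q) ≃
      (Fin m × Grid L K' q → (Fin h → Grid L K' q)) where
  toFun y := fun jr t => y jr.1 (posE L K' q h (jr.2, t))
  invFun Y := fun j a => Y (j, ((posE L K' q h).symm a).1) ((posE L K' q h).symm a).2
  left_inv y := by
    funext j a
    simp
  right_inv Y := by
    funext jr t
    simp

section

variable {m L K' q h : ℕ} {Wn : Type} [Fintype Wn] (pos : Wn → Fin m → Fin L → Fin q)
variable (hmono : ∀ w j, StrictMono (pos w j))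

include hmono in
open Classical in
/-- a configuration close to a good one has a long common pattern -/
theorem close_pattern (hm : 0 < m) (y : Fin m → Fin (L * K' * q * h) → Grid L K' q)
    (y' : Fin m × Grid L K' q → (Fin h → Grid L K' q)) (hy' : y' ∈ good (K' := K') pos h)
    (π : Fin m → Equiv.Perm (Fin (L * K' * q * h)))
    (hπ : ∀ j a b, encN (y j a) < encN (y j b) → π j a < π j b) :
    L * K' * L ≤ sSup (patSet π) + hammingDist (unf m L K' q h y) y' := by
  unfold good at hy'
  rw [Finset.mem_filter] at hy'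
  obtain ⟨_, A, hA⟩ := hy'
  have hex : ∀ j : Fin m, ∀ z : Slot L K', ∃ t : Fin h,
      y' (j, rowA pos A j z) t = colA pos A j z := by
    intro j z
    apply exists_of_cnt_ne_zero
    intro h0
    apply hA
    unfold Zf
    exact Finset.prod_eq_zero (Finset.mem_univ j) (Finset.prod_eq_zero (Finset.mem_univ z) h0)
  choose t ht using hex
  set Y := unf m L K' q h y with hY
  set S : Finset (Slot L K') :=
    Finset.univ.filter (fun z => ∀ j, Y (j, rowA pos A j z) = y' (j, rowA pos A j z)) with hS
  have hcompl : Sᶜ.card ≤ hammingDist Y y' := by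
    have hj : ∀ z ∈ Sᶜ, ∃ j, Y (j, rowA pos A j z) ≠ y' (j, rowA pos A j z) := by
      intro z hz
      rw [hS, Finset.mem_compl, Finset.mem_filter] at hz
      by_contra hcon
      push Not at hcon
      exact hz ⟨Finset.mem_univ _, hcon⟩
    unfold hammingDist
    rcases isEmpty_or_nonempty (Fin m) with he | hne
    · exact absurd hm (by
        rw [not_lt]
        by_contra hcc
        push Not at hcc
        exact he.false ⟨0, hcc⟩)
    let jz : Slot L K' → Fin m := fun z =>
      if hz : z ∈ Sᶜ then Classical.choose (hj z hz) else Classical.arbitrary _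
    have hjz : ∀ z ∈ Sᶜ, Y (jz z, rowA pos A (jz z) z) ≠ y' (jz z, rowA pos A (jz z) z) := by
      intro z hz
      have : jz z = Classical.choose (hj z hz) := dif_pos hz
      rw [this]
      exact Classical.choose_spec (hj z hz)
    apply Finset.card_le_card_of_injOn (fun z => (jz z, rowA pos A (jz z) z))
    · intro z hz
      rw [Finset.mem_coe] at hz
      rw [Finset.mem_coe, Finset.mem_filter]
      exact ⟨Finset.mem_univ _, hjz z hz⟩
    · intro z _ z' _ hzz
      simp only [Prod.mk.injEq] at hzz
      obtain ⟨h1, h2⟩ := hzz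
      rw [← h1] at h2
      exact rowA_injective pos (fun w j => (hmono w j).injective) A (jz z) h2
  have hcard : L * K' * L = S.card + Sᶜ.card := by
    rw [Finset.card_add_card_compl]; simp
  have hmain : S.card ≤ sSup (patSet π) := by
    apply card_le_sSup hm S (fun z => encN z) (fun z => encN (ySlot A z))
      (fun a _ b _ hab => encN_inj hab) (fun a _ b _ hab => ySlot_injective A (encN_inj hab)) π
      (fun j z => posF (rowA pos A j z) (t j z))
    · intro j a _ b _ hab
      have h1 := lex_mono pos hmono A.1 j a b hab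
      have ha := (t j a).2
      show ((t j a : ℕ) + h * encN (rowA pos A j a)) < ((t j b : ℕ) + h * encN (rowA pos A j b))
      have h2 : (encN (rowA pos A j a) + 1) * h ≤ encN (rowA pos A j b) * h :=
        Nat.mul_le_mul_right h h1
      nlinarith
    · intro j a ha b hb hab
      have hval : ∀ z ∈ S, y j (posF (rowA pos A j z) (t j z)) = colA pos A j z := by
        intro z hz
        rw [hS, Finset.mem_filter] at hz
        have h1 := hz.2 j
        have h2 := congrFun h1 (t j z)
        rw [ht] at h2
        exact h2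
      apply hπ
      rw [hval a ha, hval b hb]
      exact lex_mono pos hmono A.2.1 j (ySlot A a) (ySlot A b) hab
  omega

end

end Pool.Agent.Helper39.LCP
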