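import Mathlib
import Pool.Agent.Helper39.Window

set_option autoImplicit false

/-! Lower bound for the number of gap vectors, and the final numerical condition. -/

namespace Pool.Agent.Helper39.LCP

open scoped BigOperators

theorem choose_rec (n : ℕ) :
    ((3 * n + 5).choose (2 * n + 4) : ℝ) * (((n:ℝ) + 1) * ((2 * n + 4) * (2 * n + 3)))
      = ((3 * n + 2).choose (2 * n + 2) : ℝ) * ((3 * n + 5) * ((3 * n + 4) * (3 * n + 3))) := by
  have h1 := Nat.add_choose_mul_factorial_mul_factorial n (2 * n + 2)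
  have h2 := Nat.add_choose_mul_factorial_mul_factorial (n + 1) (2 * n + 4)
  have e1 : n + (2 * n + 2) = 3 * n + 2 := by ring
  have e2 : n + 1 + (2 * n + 4) = 3 * n + 5 := by ring
  rw [e1] at h1
  rw [e2] at h2
  have f1 : (n + 1).factorial = (n + 1) * n.factorial := Nat.factorial_succ n
  have f2 : (2 * n + 4).factorial = (2 * n + 4) * ((2 * n + 3) * (2 * n + 2).factorial) := by
    rw [show 2 * n + 4 = (2 * n + 3) + 1 by ring, Nat.factorial_succ,
      show 2 * n + 3 = (2 * n + 2) + 1 by ring, Nat.factorial_succ]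
  have f3 : (3 * n + 5).factorial
      = (3 * n + 5) * ((3 * n + 4) * ((3 * n + 3) * (3 * n + 2).factorial)) := by
    rw [show 3 * n + 5 = (3 * n + 4) + 1 by ring, Nat.factorial_succ,
      show 3 * n + 4 = (3 * n + 3) + 1 by ring, Nat.factorial_succ,
      show 3 * n + 3 = (3 * n + 2) + 1 by ring, Nat.factorial_succ]
  rw [f1, f2, f3, ← h1] at h2
  have h3 : (((3 * n + 5).choose (2 * n + 4) * ((n + 1) * n.factorial)
      * ((2 * n + 4) * ((2 * n + 3) * (2 * n + 2).factorial)) : ℕ) : ℝ)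
      = (((3 * n + 5) * ((3 * n + 4) * ((3 * n + 3)
        * ((3 * n + 2).choose (2 * n + 2) * n.factorial * (2 * n + 2).factorial))) : ℕ) : ℝ) := by
    exact_mod_cast h2
  push_cast at h3
  have g1 : (0:ℝ) < (n.factorial : ℝ) := by exact_mod_cast n.factorial_pos
  have g2 : (0:ℝ) < ((2 * n + 2).factorial : ℝ) := by exact_mod_cast (2 * n + 2).factorial_pos
  have g3 : (n.factorial : ℝ) * ((2 * n + 2).factorial : ℝ) ≠ 0 := by positivity
  apply mul_left_cancel₀ g3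
  linarith

theorem choose_low : ∀ n : ℕ,
    4 * (27 / 4 : ℝ) ^ (n + 1) ≤ 27 * (n + 1) * ((3 * n + 2).choose (2 * n + 2) : ℝ) := by
  intro n
  induction n with
  | zero => norm_num
  | succ n ih =>
    have h := choose_rec n
    have e : 3 * (n + 1) + 2 = 3 * n + 5 := by ring
    have e' : 2 * (n + 1) + 2 = 2 * n + 4 := by ring
    rw [e, e']
    set a : ℝ := ((3 * n + 2).choose (2 * n + 2) : ℝ) with ha
    set b : ℝ := ((3 * n + 5).choose (2 * n + 4) : ℝ) with hb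
    have ha0 : 0 ≤ a := by positivity
    have hb0 : 0 ≤ b := by positivity
    have hn : (0:ℝ) ≤ n := by positivity
    -- b (n+1)(2n+4)(2n+3) = a (3n+5)(3n+4)(3n+3)
    have h1 : b * (2 * (n + 2) * (2 * n + 3)) = a * (3 * ((3 * n + 5) * (3 * n + 4))) := by
      have h2 : ((n:ℝ) + 1) * (b * (2 * (n + 2) * (2 * n + 3)))
          = ((n:ℝ) + 1) * (a * (3 * ((3 * n + 5) * (3 * n + 4)))) := by linarith
      exact mul_left_cancel₀ (by positivity) h2
    have h3 : (27 / 4 : ℝ) * ((n + 1) * a) ≤ (n + 2) * b := by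
      have h4 : (27 / 4 : ℝ) * ((n + 1) * a) * (2 * (2 * n + 3)) ≤ (n + 2) * b * (2 * (2 * n + 3)) := by
        have h5 : (n + 2) * b * (2 * (2 * n + 3)) = a * (3 * ((3 * n + 5) * (3 * n + 4))) := by
          rw [← h1]; ring
        rw [h5]
        have : (27 / 4 : ℝ) * ((n + 1) * a) * (2 * (2 * n + 3))
            = a * ((27 / 2) * ((n + 1) * (2 * n + 3))) := by ring
        rw [this]
        apply mul_le_mul_of_nonneg_left _ ha0
        nlinarith
      exact le_of_mul_le_mul_right h4 (by positivity)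
    calc 4 * (27 / 4 : ℝ) ^ (n + 1 + 1) = (27 / 4) * (4 * (27 / 4 : ℝ) ^ (n + 1)) := by
          rw [pow_succ (27 / 4 : ℝ) (n + 1)]; ring
      _ ≤ (27 / 4) * (27 * (n + 1) * a) := by gcongr
      _ = 27 * ((27 / 4) * ((n + 1) * a)) := by ring
      _ ≤ 27 * ((n + 2) * b) := by gcongr
      _ = 27 * (((n + 1 : ℕ) : ℝ) + 1) * b := by push_cast; ring

theorem card_Gp_low (p : ℕ) :
    4 * (27 / 4 : ℝ) ^ (p + 1) ≤ 27 * ((p + 1 : ℕ) : ℝ) * (Fintype.card (Gp (p + 1)) : ℝ) := by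
  rw [card_Gp]
  have e1 : p + 1 + 2 * (p + 1) - 1 = 3 * p + 2 := by omega
  have e2 : 2 * (p + 1) = 2 * p + 2 := by ring
  rw [e1, e2]
  push_cast
  exact choose_low p

/-- the limit of the error exponent -/
noncomputable def etaInf (m : ℕ) : ℝ :=
  4 * Real.exp 1 * (800 * (m:ℝ) ^ 3) * ((31 / 10 : ℝ) ^ (2 * m)) * ((21 / 10 : ℝ) ^ (2 * m - 1))
    / ((Fintype.card (Gp m) : ℝ)) ^ 2

theorem eventually_small :
    ∀ᶠ m : ℕ in Filter.atTop, 2 * (m:ℝ) * (31 / 10) * etaInf m < 1 / 2500 := by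
  set r : ℝ := ((31 / 10) * (21 / 10) / (27 / 4)) ^ 2 with hr
  have hr0 : 0 ≤ r := by positivity
  have hr1 : r < 1 := by rw [hr]; norm_num
  set C : ℝ := 2 * (31 / 10) * (4 * Real.exp 1 * 800) * (729 / 16) / (21 / 10) with hC
  have ht := (tendsto_pow_const_mul_const_pow_of_lt_one 6 hr0 hr1).const_mul C
  rw [mul_zero] at ht
  have hev := ht.eventually (gt_mem_nhds (show (0:ℝ) < 1 / 2500 by norm_num))
  filter_upwards [hev, Filter.eventually_ge_atTop 1] with m hm hm1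
  refine lt_of_le_of_lt ?_ hm
  obtain ⟨p, rfl⟩ : ∃ p, m = p + 1 := ⟨m - 1, by omega⟩
  have hG := card_Gp_low p
  set G : ℝ := (Fintype.card (Gp (p + 1)) : ℝ) with hGdef
  set M : ℝ := ((p + 1 : ℕ) : ℝ) with hM
  have hM0 : 0 < M := by rw [hM]; positivity
  have hGpos : 0 < G := by
    have h1 : 0 < 4 * (27 / 4 : ℝ) ^ (p + 1) := by positivity
    by_contra hcon
    push Not at hcon
    have : 27 * M * G ≤ 0 := by
      have : 0 < 27 * M := by positivity
      nlinarith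
    linarith
  unfold etaInf
  rw [← hGdef, ← hM]
  have hexp : (2 * (p + 1) - 1) = 2 * p + 1 := by omega
  rw [hexp]
  -- 1/G^2 ≤ (27 M)^2/(16 (27/4)^(2(p+1)))
  have h2 : (4 * (27 / 4 : ℝ) ^ (p + 1)) ^ 2 ≤ (27 * M * G) ^ 2 := by gcongr
  have h3 : 1 / G ^ 2 ≤ (729 / 16) * M ^ 2 / ((27 / 4 : ℝ) ^ (p + 1)) ^ 2 := by
    rw [div_le_div_iff₀ (by positivity) (by positivity)]
    nlinarith
  have e1 : r ^ (p + 1) = ((31 / 10 : ℝ) ^ (2 * (p + 1))) * ((21 / 10 : ℝ) ^ (2 * (p + 1)))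
      / ((27 / 4 : ℝ) ^ (p + 1)) ^ 2 := by
    rw [hr, ← pow_mul, div_pow, mul_pow, ← pow_mul, mul_comm (p + 1) 2]
  have e2 : (21 / 10 : ℝ) ^ (2 * (p + 1)) = (21 / 10) ^ (2 * p + 1) * (21 / 10) := by
    rw [← pow_succ]; congr 1
  calc 2 * M * (31 / 10) * (4 * Real.exp 1 * (800 * M ^ 3) * ((31 / 10 : ℝ) ^ (2 * (p + 1)))
        * ((21 / 10 : ℝ) ^ (2 * p + 1)) / G ^ 2)
      = (2 * M * (31 / 10) * (4 * Real.exp 1 * (800 * M ^ 3) * ((31 / 10 : ℝ) ^ (2 * (p + 1)))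
        * ((21 / 10 : ℝ) ^ (2 * p + 1)))) * (1 / G ^ 2) := by ring
    _ ≤ (2 * M * (31 / 10) * (4 * Real.exp 1 * (800 * M ^ 3) * ((31 / 10 : ℝ) ^ (2 * (p + 1)))
        * ((21 / 10 : ℝ) ^ (2 * p + 1))))
        * ((729 / 16) * M ^ 2 / ((27 / 4 : ℝ) ^ (p + 1)) ^ 2) := by gcongr
    _ = C * (M ^ 6 * r ^ (p + 1)) := by
        rw [e1, e2, hC]
        ring

end Pool.Agent.Helper39.LCP
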