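import Mathlib
import Pool.Agent.Helper39.Assembly

set_option autoImplicit false

/-! The finite lower bound. -/

namespace Pool.Agent.Helper39.LCP

open scoped BigOperators

/-- expected length of the longest common pattern -/
noncomputable def EL (m n : ℕ) : ℝ :=
  (∑ π : Fin m → Equiv.Perm (Fin n), ((sSup (patSet π) : ℕ) : ℝ)) / ((n.factorial : ℝ) ^ m)

open Classical in
theorem finite_bound {m L K' q h : ℕ} (hm : 0 < m) (hL : 800 * m ^ 3 ≤ L) (hq : 10 * q = 31 * L)
    (hK : 0 < K') (hh : 0 < h) (η : ℝ)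
    (hη : η = (Real.exp 1 / ((L * K' : ℕ) : ℝ)) * (m * (1 + ((L * K' * q : ℕ) : ℝ) / h) ^ (m - 1))
      + (Real.exp 1 / ((L * K' : ℕ) : ℝ)) * (1 + ((L * K' * q : ℕ) : ℝ) / h) ^ m
        * (2 / (Fintype.card (Gp m) : ℝ)) ^ 2) :
    ((L * K' * L : ℕ) : ℝ)
        - Real.sqrt (2 * ((m * (L * K' * q) : ℕ) : ℝ) * (((L * K' * L : ℕ) : ℝ) * η))
      ≤ EL m (L * K' * q * h) := by
  have hLpos : 0 < L := by
    have : 0 < 800 * m ^ 3 := by positivity
    omega
  have hqpos : 0 < q := by omega
  have hLK : 0 < L * K' := by positivity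
  set pos : Wd m L q → Fin m → Fin L → Fin q := wpos with hposdef
  have hmono : ∀ (w : Wd m L q) j, StrictMono (pos w j) := fun w j => wpos_strictMono w j
  have hpos : ∀ (w : Wd m L q) j, Function.Injective (pos w j) := fun w j => (hmono w j).injective
  have halign : ∀ (w w' : Wd m L q) s s', (∀ j, pos w j s = pos w' j s') → s = s' :=
    fun w w' s s' hj => walign hm w w' s s' hj
  have hG : (0:ℝ) < (Fintype.card (Gp m) : ℝ) := by
    have := Gp_nonempty m
    exact_mod_cast Fintype.card_pos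
  have hW : 0 < Fintype.card (Wd m L q) := by
    have h1 := card_Wd (q := q) hm hL hq
    have h2 : (0:ℝ) < (Fintype.card (Gp m) : ℝ) ^ L := by positivity
    have h3 : (0:ℝ) < (Fintype.card (Wd m L q) : ℝ) := by linarith
    exact_mod_cast h3
  have hgood := good_card (K' := K') pos hpos halign hm hLK hqpos hW h hh
    (2 / (Fintype.card (Gp m) : ℝ)) (by positivity)
    (fun w T => by
      have := wcount hm hL hq w T
      convert this)
  set R : ℕ := L * K' * q with hR
  set k : ℕ := L * K' * L with hk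
  have hRpos : 0 < R := by positivity
  have hRr : (0:ℝ) < (R:ℝ) := by exact_mod_cast hRpos
  have hmr : (0:ℝ) < (m:ℝ) := by exact_mod_cast hm
  set M : ℝ := ((R : ℝ) ^ h) ^ (m * R) with hM
  have hM0 : 0 < M := by positivity
  set κ : ℝ := Real.exp 1 / ((L * K' : ℕ) : ℝ) with hκ
  set c : ℝ := 1 + (R : ℝ) / h with hc
  have hhr : (0:ℝ) < h := by exact_mod_cast hh
  have hκ0 : 0 < κ := by
    rw [hκ]
    have : (0:ℝ) < ((L * K' : ℕ) : ℝ) := by exact_mod_cast hLK
    positivity
  have hc0 : 0 < c := by rw [hc]; positivity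
  -- exponential form
  have hexp : ((1 + κ * (m * c ^ (m - 1))) * (1 + κ * c ^ m * (2 / (Fintype.card (Gp m) : ℝ)) ^ 2)) ^ k
      ≤ Real.exp (k * η) := by
    have h1 : (1 + κ * (m * c ^ (m - 1))) * (1 + κ * c ^ m * (2 / (Fintype.card (Gp m) : ℝ)) ^ 2)
        ≤ Real.exp η := by
      rw [hη, Real.exp_add]
      apply mul_le_mul
      · have := Real.add_one_le_exp (κ * (m * c ^ (m - 1)))
        linarith
      · have := Real.add_one_le_exp (κ * c ^ m * (2 / (Fintype.card (Gp m) : ℝ)) ^ 2)
        linarith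
      · positivity
      · positivity
    calc _ ≤ (Real.exp η) ^ k := by
          apply pow_le_pow_left₀ _ h1
          positivity
      _ = Real.exp (k * η) := by rw [← Real.exp_nat_mul]
  have hgood2 : M ≤ ((good (K' := K') pos h).card : ℝ) * Real.exp (k * η) :=
    hgood.trans (by gcongr)
  have hne : (good (K' := K') pos h).Nonempty := by
    rw [Finset.nonempty_iff_ne_empty]
    intro h0
    rw [h0] at hgood2
    simp at hgood2
    linarith
  -- the distance function
  let d : (Fin m × Grid L K' q → (Fin h → Grid L K' q)) → ℕ := fun Y =>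
    (good (K' := K') pos h).inf' hne (fun y' => hammingDist Y y')
  have hd_le : ∀ Y, ∀ y' ∈ good (K' := K') pos h, d Y ≤ hammingDist Y y' := fun Y y' hy' =>
    Finset.inf'_le _ hy'
  have hd_ex : ∀ Y, ∃ y' ∈ good (K' := K') pos h, d Y = hammingDist Y y' := fun Y =>
    Finset.exists_mem_eq_inf' hne _
  have hcardG : Fintype.card (Grid L K' q) = R := by simp [hR]
  have hcardι : Fintype.card (Fin m × Grid L K' q) = m * R := by
    rw [Fintype.card_prod, hcardG]; simp
  have hcardα : (Fintype.card (Fin h → Grid L K' q) : ℝ) = (R:ℝ) ^ h := by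
    rw [Fintype.card_fun, hcardG]; simp
  have : Nonempty (Fin h → Grid L K' q) := by
    rw [← Fintype.card_pos_iff]
    have : (0:ℝ) < (Fintype.card (Fin h → Grid L K' q) : ℝ) := by rw [hcardα]; positivity
    exact_mod_cast this
  set μ : ℝ := (∑ Y, (d Y : ℝ)) / M with hμ
  have hμ0 : 0 ≤ μ := by
    apply div_nonneg _ hM0.le
    apply Finset.sum_nonneg; intro Y _; positivity
  have hlip : ∀ (i : Fin m × Grid L K' q) (x x' : Fin m × Grid L K' q → (Fin h → Grid L K' q)),
      (∀ j, j ≠ i → x j = x' j) → |(d x : ℝ) - (d x' : ℝ)| ≤ 1 := by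
    have key : ∀ (i : Fin m × Grid L K' q) (x x' : Fin m × Grid L K' q → (Fin h → Grid L K' q)),
        (∀ j, j ≠ i → x j = x' j) → (d x : ℝ) ≤ (d x' : ℝ) + 1 := by
      intro i x x' hxx
      obtain ⟨y', hy', hdy⟩ := hd_ex x'
      have h1 : hammingDist x x' ≤ 1 := by
        unfold hammingDist
        rw [Finset.card_le_one]
        intro a ha b hb
        rw [Finset.mem_filter] at ha hb
        have ea : a = i := by
          by_contra hcon; exact ha.2 (hxx a hcon)
        have eb : b = i := by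
          by_contra hcon; exact hb.2 (hxx b hcon)
        rw [ea, eb]
      have h2 := hammingDist_triangle x x' y'
      have h3 := hd_le x y' hy'
      have h4 : d x ≤ d x' + 1 := by rw [hdy]; omega
      exact_mod_cast h4
    intro i x x' hxx
    rw [abs_le]
    constructor
    · have := key i x' x (fun j hj => (hxx j hj).symm)
      linarith
    · have := key i x x' hxx
      linarith
  have htail := tail (ι := Fin m × Grid L K' q) (α := Fin h → Grid L K' q)
    (by rw [hcardι]; positivity) (fun Y => (d Y : ℝ)) hlip μ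
    (by rw [hcardα, hcardι]) hμ0 (good (K' := K') pos h) (by
      intro x hx
      have h1 := hd_le x x hx
      rw [hammingDist_self] at h1
      have h2 : d x = 0 := by omega
      show (d x : ℝ) ≤ 0
      rw [h2]; simp)
  rw [hcardα, hcardι, ← hM] at htail
  have hμsq : μ ^ 2 ≤ 2 * ((m * R : ℕ) : ℝ) * ((k:ℝ) * η) := by
    have hmR : (0:ℝ) < ((m * R : ℕ) : ℝ) := by push_cast; positivity
    have h1 : M ≤ M * Real.exp (- μ ^ 2 / (2 * ((m * R : ℕ) : ℝ)) + k * η) := by
      calc M ≤ ((good (K' := K') pos h).card : ℝ) * Real.exp (k * η) := hgood2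
        _ ≤ (M * Real.exp (- μ ^ 2 / (2 * ((m * R : ℕ) : ℝ)))) * Real.exp (k * η) := by gcongr
        _ = _ := by rw [mul_assoc, ← Real.exp_add]
    have h2 : 1 ≤ Real.exp (- μ ^ 2 / (2 * ((m * R : ℕ) : ℝ)) + k * η) := by
      have : M * 1 ≤ M * Real.exp (- μ ^ 2 / (2 * ((m * R : ℕ) : ℝ)) + k * η) := by linarith
      exact le_of_mul_le_mul_left this hM0
    rw [Real.one_le_exp_iff] at h2
    have h3 : μ ^ 2 / (2 * ((m * R : ℕ) : ℝ)) ≤ k * η := by
      rw [neg_div] at h2; linarith
    rw [div_le_iff₀ (by positivity)] at h3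
    linarith
  have hμle : μ ≤ Real.sqrt (2 * ((m * R : ℕ) : ℝ) * ((k:ℝ) * η)) := Real.le_sqrt_of_sq_le hμsq
  -- coupling
  have hcoup := coupling (m := m) (n := R * h) (C := Grid L K' q) encN
    (fun y => (k:ℝ) - (d (unf m L K' q h y) : ℝ)) (fun π => ((sSup (patSet π) : ℕ) : ℝ)) (by
      intro y π hπ
      obtain ⟨y', hy', hdy⟩ := hd_ex (unf m L K' q h y)
      have := close_pattern pos hmono hm y y' hy' π hπ
      rw [← hdy, ← hk] at this
      have h2 : (k:ℝ) ≤ ((sSup (patSet π) : ℕ) : ℝ) + (d (unf m L K' q h y) : ℝ) := by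
        exact_mod_cast this
      linarith)
  have hsumG : ∑ y : Fin m → Fin (R * h) → Grid L K' q, ((k:ℝ) - (d (unf m L K' q h y) : ℝ))
      = M * (k - μ) := by
    rw [(unf m L K' q h).sum_comp (fun Y => (k:ℝ) - (d Y : ℝ)), Finset.sum_sub_distrib,
      Finset.sum_const, Finset.card_univ, nsmul_eq_mul]
    have h1 : (Fintype.card (Fin m × Grid L K' q → (Fin h → Grid L K' q)) : ℝ) = M := by
      rw [Fintype.card_fun, hcardι]
      push_cast
      rw [hcardα]
    rw [h1, hμ]
    field_simp
  rw [hsumG, hcardG] at hcoup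
  have hMM : ((R:ℝ) ^ (R * h)) ^ m = M := by
    rw [hM, ← pow_mul, ← pow_mul]
    congr 1; ring
  rw [hMM] at hcoup
  have hfac : (0:ℝ) < (((R * h).factorial : ℝ)) ^ m := by positivity
  have hfin : (k:ℝ) - μ ≤ EL m (R * h) := by
    unfold EL
    rw [le_div_iff₀ hfac]
    have : M * (((k:ℝ) - μ) * (((R * h).factorial : ℝ)) ^ m)
        ≤ M * ∑ π : Fin m → Equiv.Perm (Fin (R * h)), ((sSup (patSet π) : ℕ) : ℝ) := by
      linarith
    exact le_of_mul_le_mul_left this hM0
  linarith

end Pool.Agent.Helper39.LCP
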