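import Mathlib
import Pool.Agent.Helper39.Finite
import Pool.Agent.Helper39.CardLow

set_option autoImplicit false

/-! Asymptotics. -/

namespace Pool.Agent.Helper39.LCP

open scoped BigOperators
open Filter Topology

theorem along (p : ℕ) (hp : 1 ≤ p)
    (hsmall : 2 * ((p + 1 : ℕ) : ℝ) * (31 / 10) * etaInf (p + 1) < 1 / 2500) :
    ∃ n : ℕ → ℕ, Tendsto n atTop atTop ∧ ∀ᶠ N in atTop,
      (41 / 20 : ℝ) * ((n N : ℕ) : ℝ) ^ ((((p + 1 : ℕ) : ℝ)) / (2 * (((p + 1 : ℕ) : ℝ)) - 1))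
        ≤ EL (p + 1) (n N) := by
  set m : ℕ := p + 1 with hm
  have hmpos : 0 < m := by omega
  set L : ℕ := 800 * m ^ 3 with hL
  set q : ℕ := 2480 * m ^ 3 with hq
  have hLpos : 0 < L := by positivity
  have hqL : 10 * q = 31 * L := by rw [hq, hL]; ring
  have hLr : (0:ℝ) < (L:ℝ) := by exact_mod_cast hLpos
  have hqr : (q:ℝ) = (31 / 10) * L := by
    have : (10:ℝ) * q = 31 * L := by exact_mod_cast hqL
    linarith
  have hmr : (0:ℝ) < (m:ℝ) := by exact_mod_cast hmpos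
  have hpr : (0:ℝ) < (p:ℝ) := by exact_mod_cast hp
  -- β
  set A : ℝ := (31 / 10) ^ (p + 1) * (21 / 10) ^ (2 * p + 1) with hA
  have hA0 : 0 < A := by positivity
  set β : ℝ := A ^ ((p:ℝ)⁻¹) with hβ
  have hβ0 : 0 < β := Real.rpow_pos_of_pos hA0 _
  have hβp : β ^ p = A := by
    rw [hβ]
    exact Real.rpow_inv_natCast_pow hA0.le (by omega)
  set α : ℝ := β / L ^ 2 with hα
  have hα0 : 0 < α := by positivity
  set θ : ℝ := 2 / (Fintype.card (Gp m) : ℝ) with hθ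
  have hG : (0:ℝ) < (Fintype.card (Gp m) : ℝ) := by
    have := Gp_nonempty m
    exact_mod_cast Fintype.card_pos
  -- sequences
  let Kf : ℕ → ℕ := fun N => ⌊α * (N:ℝ) ^ (p + 1)⌋₊
  let x : ℕ → ℝ := fun N => (Kf N : ℝ) / (N:ℝ) ^ (p + 1)
  let y : ℕ → ℝ := fun N => 1 / (N:ℝ)
  have hNpow : Tendsto (fun N : ℕ => (N:ℝ) ^ (p + 1)) atTop atTop :=
    (tendsto_pow_atTop (by omega)).comp tendsto_natCast_atTop_atTop
  have hx : Tendsto x atTop (𝓝 α) :=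
    (tendsto_nat_floor_mul_div_atTop hα0.le).comp hNpow
  have hy : Tendsto y atTop (𝓝 0) := tendsto_one_div_atTop_nhds_zero_nat
  have hKf : Tendsto Kf atTop atTop := by
    apply tendsto_nat_floor_atTop.comp
    exact hNpow.const_mul_atTop hα0
  let n : ℕ → ℕ := fun N => L * Kf N * q * N ^ p
  have hqpos : 0 < q := by positivity
  refine ⟨n, ?_, ?_⟩
  · apply tendsto_atTop_mono' atTop _ hKf
    filter_upwards [eventually_ge_atTop 1] with N hN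
    show Kf N ≤ L * Kf N * q * N ^ p
    have h1 : 1 ≤ L * q * N ^ p := Nat.one_le_iff_ne_zero.mpr (by positivity)
    calc Kf N = Kf N * 1 := by ring
      _ ≤ Kf N * (L * q * N ^ p) := Nat.mul_le_mul_left _ h1
      _ = L * Kf N * q * N ^ p := by ring
  -- the error exponent
  let ηf : ℕ → ℝ := fun N =>
    (Real.exp 1 / ((L * Kf N : ℕ) : ℝ)) * (m * (1 + ((L * Kf N * q : ℕ) : ℝ) / ((N ^ p : ℕ) : ℝ)) ^ (m - 1))
      + (Real.exp 1 / ((L * Kf N : ℕ) : ℝ)) * (1 + ((L * Kf N * q : ℕ) : ℝ) / ((N ^ p : ℕ) : ℝ)) ^ m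
        * θ ^ 2
  let g : ℕ → ℝ := fun N =>
    (Real.exp 1 * m / (L * x N)) * (y N) * (y N + L * q * x N) ^ p
      + (Real.exp 1 / (L * x N)) * (y N + L * q * x N) ^ (p + 1) * θ ^ 2
  have hlimg : Tendsto g atTop (𝓝 ((Real.exp 1 * m / (L * α)) * 0 * (0 + L * q * α) ^ p
      + (Real.exp 1 / (L * α)) * (0 + L * q * α) ^ (p + 1) * θ ^ 2)) := by
    have hLx : Tendsto (fun N => (L:ℝ) * x N) atTop (𝓝 (L * α)) := hx.const_mul _
    have hLα : (L:ℝ) * α ≠ 0 := by positivity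
    have h1 : Tendsto (fun N => Real.exp 1 * m / (L * x N)) atTop (𝓝 (Real.exp 1 * m / (L * α))) :=
      tendsto_const_nhds.div hLx hLα
    have h2 : Tendsto (fun N => Real.exp 1 / (L * x N)) atTop (𝓝 (Real.exp 1 / (L * α))) :=
      tendsto_const_nhds.div hLx hLα
    have h3 : Tendsto (fun N => y N + L * q * x N) atTop (𝓝 (0 + L * q * α)) :=
      hy.add (hx.const_mul _)
    exact ((h1.mul hy).mul (h3.pow p)).add ((h2.mul (h3.pow (p + 1))).mul_const _)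
  have hval : (Real.exp 1 * m / (L * α)) * 0 * (0 + L * q * α) ^ p
      + (Real.exp 1 / (L * α)) * (0 + L * q * α) ^ (p + 1) * θ ^ 2 = etaInf m := by
    have e1 : (0:ℝ) + L * q * α = (31 / 10) * β := by
      rw [hα, hqr]; field_simp; ring
    rw [e1]
    unfold etaInf
    have e2 : 2 * m - 1 = 2 * p + 1 := by omega
    rw [e2]
    have e3 : ((31 / 10 : ℝ) * β) ^ (p + 1) = (31 / 10) ^ (p + 1) * (A * β) := by
      rw [mul_pow, pow_succ β p, hβp]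
    rw [e3, hA, hθ, hα]
    have e4 : (800 * (m:ℝ) ^ 3) = (L:ℝ) := by rw [hL]; push_cast; ring
    rw [e4]
    have e5 : 2 * m = (p + 1) + (p + 1) := by omega
    rw [e5, pow_add (31 / 10 : ℝ) (p + 1) (p + 1)]
    field_simp
    ring
  rw [hval] at hlimg
  have hηg : ∀ᶠ N in atTop, ηf N = g N := by
    filter_upwards [eventually_ge_atTop 1, hKf.eventually_ge_atTop 1] with N hN hK
    have hNr : (0:ℝ) < (N:ℝ) := by exact_mod_cast hN
    have hKr : (0:ℝ) < (Kf N : ℝ) := by exact_mod_cast hK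
    have hxN : x N = (Kf N : ℝ) / (N:ℝ) ^ (p + 1) := rfl
    have hxpos : 0 < x N := by rw [hxN]; positivity
    have hKx : (Kf N : ℝ) = x N * (N:ℝ) ^ (p + 1) := by rw [hxN]; field_simp
    show (Real.exp 1 / ((L * Kf N : ℕ) : ℝ)) * (m * (1 + ((L * Kf N * q : ℕ) : ℝ) / ((N ^ p : ℕ) : ℝ)) ^ (m - 1))
      + (Real.exp 1 / ((L * Kf N : ℕ) : ℝ)) * (1 + ((L * Kf N * q : ℕ) : ℝ) / ((N ^ p : ℕ) : ℝ)) ^ m
        * θ ^ 2 = (Real.exp 1 * m / (L * x N)) * (1 / (N:ℝ)) * (1 / (N:ℝ) + L * q * x N) ^ p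
      + (Real.exp 1 / (L * x N)) * (1 / (N:ℝ) + L * q * x N) ^ (p + 1) * θ ^ 2
    have e1 : (1 + ((L * Kf N * q : ℕ) : ℝ) / ((N ^ p : ℕ) : ℝ))
        = (N:ℝ) * (1 / (N:ℝ) + L * q * x N) := by
      push_cast
      rw [hKx, pow_succ]
      field_simp
    have e2 : m - 1 = p := by omega
    have e3 : ((L * Kf N : ℕ) : ℝ) = L * x N * (N:ℝ) ^ (p + 1) := by
      push_cast
      rw [hKx]; ring
    rw [e1, e2, e3, hm, mul_pow, mul_pow]
    set w : ℝ := 1 / (N:ℝ) + L * q * x N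
    rw [pow_succ (N:ℝ) p]
    field_simp
  have hηlim : Tendsto ηf atTop (𝓝 (etaInf m)) :=
    hlimg.congr' (hηg.mono (fun N hN => hN.symm))
  have hηsmall : ∀ᶠ N in atTop, 2 * (m:ℝ) * (31 / 10) * ηf N < 1 / 2500 := by
    have h1 : Tendsto (fun N => 2 * (m:ℝ) * (31 / 10) * ηf N) atTop
        (𝓝 (2 * (m:ℝ) * (31 / 10) * etaInf m)) := hηlim.const_mul _
    exact h1.eventually (gt_mem_nhds hsmall)
  -- ratio
  have hratio : ∀ᶠ N in atTop, (419 / 200 : ℝ) ^ (2 * p + 1)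
      < (L:ℝ) ^ (3 * p + 1) * (x N) ^ p / (q:ℝ) ^ (p + 1) := by
    have h1 : Tendsto (fun N => (L:ℝ) ^ (3 * p + 1) * (x N) ^ p / (q:ℝ) ^ (p + 1)) atTop
        (𝓝 ((L:ℝ) ^ (3 * p + 1) * α ^ p / (q:ℝ) ^ (p + 1))) :=
      ((hx.pow p).const_mul _).div_const _
    apply h1.eventually (lt_mem_nhds _)
    have e1 : (L:ℝ) ^ (3 * p + 1) * α ^ p / (q:ℝ) ^ (p + 1) = (21 / 10) ^ (2 * p + 1) := by
      rw [hα, div_pow, hβp, hqr, hA, mul_pow, ← pow_mul]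
      have : (L:ℝ) ^ (3 * p + 1) = (L:ℝ) ^ (2 * p) * (L:ℝ) ^ (p + 1) := by
        rw [← pow_add]; congr 1; ring
      rw [this]
      field_simp
    rw [e1]
    apply pow_lt_pow_left₀ (by norm_num) (by norm_num) (by omega)
  filter_upwards [eventually_ge_atTop 1, hKf.eventually_ge_atTop 1, hηsmall, hratio] with
    N hN hK hη hr
  have hNr : (0:ℝ) < (N:ℝ) := by exact_mod_cast hN
  have hKr : (0:ℝ) < (Kf N : ℝ) := by exact_mod_cast hK
  have hxN : x N = (Kf N : ℝ) / (N:ℝ) ^ (p + 1) := rfl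
  have hKx : (Kf N : ℝ) = x N * (N:ℝ) ^ (p + 1) := by rw [hxN]; field_simp
  have hxpos : 0 < x N := by rw [hxN]; positivity
  have hfin := finite_bound (m := m) (L := L) (K' := Kf N) (q := q) (h := N ^ p) hmpos le_rfl hqL
    (by omega) (by positivity) (ηf N) rfl
  have hηnn : 0 ≤ ηf N := by
    show 0 ≤ (Real.exp 1 / ((L * Kf N : ℕ) : ℝ)) * (m * (1 + ((L * Kf N * q : ℕ) : ℝ) / ((N ^ p : ℕ) : ℝ)) ^ (m - 1))
      + (Real.exp 1 / ((L * Kf N : ℕ) : ℝ)) * (1 + ((L * Kf N * q : ℕ) : ℝ) / ((N ^ p : ℕ) : ℝ)) ^ m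
        * θ ^ 2
    positivity
  have hk : (0:ℝ) < ((L * Kf N * L : ℕ) : ℝ) := by push_cast; positivity
  set k : ℝ := ((L * Kf N * L : ℕ) : ℝ) with hkdef
  have hsq : Real.sqrt (2 * ((m * (L * Kf N * q) : ℕ) : ℝ) * (k * ηf N)) ≤ k * (1 / 50) := by
    rw [Real.sqrt_le_left (by positivity)]
    have e1 : 2 * ((m * (L * Kf N * q) : ℕ) : ℝ) * (k * ηf N)
        = k ^ 2 * (2 * (m:ℝ) * (31 / 10) * ηf N) := by
      rw [hkdef]
      push_cast
      rw [hqr]; ring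
    rw [e1, mul_pow]
    apply mul_le_mul_of_nonneg_left _ (by positivity)
    linarith
  have hEL : (49 / 50) * k ≤ EL m (n N) := by
    show (49 / 50) * k ≤ EL m (L * Kf N * q * N ^ p)
    linarith
  -- n^(m/(2m-1)) ≤ k / (419/200)
  have hnr : (((n N : ℕ)) : ℝ) = L * (x N * (N:ℝ) ^ (p + 1)) * q * (N:ℝ) ^ p := by
    show (((L * Kf N * q * N ^ p : ℕ)) : ℝ) = _
    push_cast
    rw [hKx]
  have hkr : k = L * (x N * (N:ℝ) ^ (p + 1)) * L := by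
    rw [hkdef]; push_cast; rw [hKx]
  have hqr0 : (0:ℝ) < (q:ℝ) := by exact_mod_cast hqpos
  have hpow : (((n N : ℕ)) : ℝ) ^ (p + 1) ≤ (k / (419 / 200)) ^ (2 * p + 1) := by
    rw [div_pow, le_div_iff₀ (by positivity)]
    have e1 : k ^ (2 * p + 1) = (((n N : ℕ)) : ℝ) ^ (p + 1)
        * ((L:ℝ) ^ (3 * p + 1) * (x N) ^ p / (q:ℝ) ^ (p + 1)) := by
      have f1 : k ^ (2 * p + 1) = (L:ℝ) ^ (2 * (2 * p + 1)) * (x N) ^ (2 * p + 1)
          * (N:ℝ) ^ ((p + 1) * (2 * p + 1)) := by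
        rw [hkr, pow_mul (L:ℝ) 2, pow_mul (N:ℝ) (p + 1), ← mul_pow, ← mul_pow]
        congr 1; ring
      have f2 : (((n N : ℕ)) : ℝ) ^ (p + 1) = (L:ℝ) ^ (p + 1) * (x N) ^ (p + 1) * (q:ℝ) ^ (p + 1)
          * (N:ℝ) ^ ((2 * p + 1) * (p + 1)) := by
        rw [hnr, pow_mul (N:ℝ) (2 * p + 1), ← mul_pow, ← mul_pow, ← mul_pow]
        congr 1
        have : (N:ℝ) ^ (2 * p + 1) = (N:ℝ) ^ (p + 1) * (N:ℝ) ^ p := by
          rw [← pow_add]; congr 1; ring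
        rw [this]; ring
      rw [f1, f2]
      have g1 : (L:ℝ) ^ (2 * (2 * p + 1)) = (L:ℝ) ^ (p + 1) * (L:ℝ) ^ (3 * p + 1) := by
        rw [← pow_add]; congr 1; ring
      have g2 : (x N) ^ (2 * p + 1) = (x N) ^ (p + 1) * (x N) ^ p := by
        rw [← pow_add]; congr 1; ring
      have g3 : (p + 1) * (2 * p + 1) = (2 * p + 1) * (p + 1) := by ring
      rw [g1, g2, g3]
      field_simp
    rw [e1]
    have : (0:ℝ) ≤ (((n N : ℕ)) : ℝ) ^ (p + 1) := by positivity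
    apply mul_le_mul_of_nonneg_left hr.le this
  have hrpow : (((n N : ℕ)) : ℝ) ^ ((m:ℝ) / (2 * (m:ℝ) - 1)) ≤ k / (419 / 200) := by
    have e1 : (2 * (m:ℝ) - 1) = ((2 * p + 1 : ℕ) : ℝ) := by
      rw [hm]; push_cast; ring
    rw [e1, div_eq_mul_inv, Real.rpow_mul (by positivity), Real.rpow_natCast]
    calc ((((n N : ℕ)) : ℝ) ^ m) ^ (((2 * p + 1 : ℕ) : ℝ)⁻¹)
        ≤ ((k / (419 / 200)) ^ (2 * p + 1)) ^ (((2 * p + 1 : ℕ) : ℝ)⁻¹) := by
          apply Real.rpow_le_rpow (by positivity) hpow (by positivity)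
      _ = k / (419 / 200) := Real.pow_rpow_inv_natCast (by positivity) (by omega)
  calc (41 / 20 : ℝ) * (((n N : ℕ)) : ℝ) ^ ((m:ℝ) / (2 * (m:ℝ) - 1))
      ≤ (41 / 20) * (k / (419 / 200)) := by gcongr
    _ ≤ (49 / 50) * k := by
        have h7 : (41 / 20 : ℝ) * (k / (419 / 200)) = (820 / 838) * k := by ring
        rw [h7]
        have h8 : (820 / 838 : ℝ) ≤ 49 / 50 := by norm_num
        exact mul_le_mul_of_nonneg_right h8 hk.le
    _ ≤ EL m (n N) := hEL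

/-- for all large `m` the normalised expectation, if it converges, converges to a limit `≥ 2.05` -/
theorem limit_ge : ∀ᶠ m : ℕ in atTop, ∀ c : ℝ,
    Tendsto (fun n : ℕ => EL m n / (n:ℝ) ^ ((m:ℝ) / (2 * (m:ℝ) - 1))) atTop (𝓝 c) →
      41 / 20 ≤ c := by
  filter_upwards [eventually_small, eventually_ge_atTop 2] with m hm hm2 c hc
  obtain ⟨p, rfl⟩ : ∃ p, m = p + 1 := ⟨m - 1, by omega⟩
  obtain ⟨n, hn, hev⟩ := along p (by omega) hm
  have h1 := hc.comp hn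
  apply ge_of_tendsto h1
  filter_upwards [hev, hn.eventually_ge_atTop 1] with N hN hN1
  have hpos : (0:ℝ) < ((n N : ℕ) : ℝ) ^ ((((p + 1 : ℕ) : ℝ)) / (2 * (((p + 1 : ℕ) : ℝ)) - 1)) := by
    apply Real.rpow_pos_of_pos
    exact_mod_cast hN1
  show (41 / 20 : ℝ) ≤ EL (p + 1) (n N)
    / ((n N : ℕ) : ℝ) ^ ((((p + 1 : ℕ) : ℝ)) / (2 * (((p + 1 : ℕ) : ℝ)) - 1))
  rw [le_div_iff₀ hpos]
  exact hN

end Pool.Agent.Helper39.LCP
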