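import Mathlib

/-! Singular homology of contractible spaces vanishes in positive degrees. -/

open CategoryTheory CategoryTheory.Limits AlgebraicTopology

namespace Pool.Agent.Helper39

/-- the `i`-th singular homology of `S` with real coefficients -/
noncomputable abbrev realHomology (i : ℕ) (S : Type) [TopologicalSpace S] : ModuleCat ℝ :=
  ((singularHomologyFunctor (ModuleCat ℝ) i).obj (ModuleCat.of ℝ ℝ)).obj (TopCat.of S)

lemma isZero_of_contractible (S : Type) [TopologicalSpace S] [ContractibleSpace S] {i : ℕ}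
    (hi : i ≠ 0) : IsZero (realHomology i S) := by
  obtain ⟨x0, ⟨H⟩⟩ := id_nullhomotopic S
  let f : TopCat.of S ⟶ TopCat.of Unit := TopCat.ofHom ⟨fun _ => (), by fun_prop⟩
  let g : TopCat.of Unit ⟶ TopCat.of S := TopCat.ofHom ⟨fun _ => x0, by fun_prop⟩
  have hpt : IsZero (((singularHomologyFunctor (ModuleCat ℝ) i).obj (ModuleCat.of ℝ ℝ)).obj
      (TopCat.of Unit)) :=
    isZero_singularHomologyFunctor_of_totallyDisconnectedSpace _ _ _ _ hi
  have e : ((singularHomologyFunctor (ModuleCat ℝ) i).obj (ModuleCat.of ℝ ℝ)).map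
      (𝟙 (TopCat.of S)) =
      ((singularHomologyFunctor (ModuleCat ℝ) i).obj (ModuleCat.of ℝ ℝ)).map (f ≫ g) := by
    have H' : TopCat.Homotopy (𝟙 (TopCat.of S)) (f ≫ g) := H
    exact H'.congr_homologyMap_singularChainComplexFunctor (ModuleCat.of ℝ ℝ) i
  rw [IsZero.iff_id_eq_zero]
  rw [CategoryTheory.Functor.map_id, CategoryTheory.Functor.map_comp] at e
  rw [e, hpt.eq_zero_of_tgt
    (((singularHomologyFunctor (ModuleCat ℝ) i).obj (ModuleCat.of ℝ ℝ)).map f), zero_comp]

end Pool.Agent.Helper39
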