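import Mathlib

/-!
Spaces of Lipschitz maps, their curves, lengths, distances and diameters.
-/

open scoped ENNReal NNReal
open Set

namespace Pool.Agent.Helper39.LipMaps

/-- The metric of `S` is a length metric: the distance of two points is the infimum of the lengths
of the (continuous) paths joining them. -/
def IsLengthMetric (S : Type) [MetricSpace S] : Prop :=
  ∀ x y : S, edist x y = ⨅ γ : Path x y, eVariationOn γ Set.univ

/-- A curve `(f_t)`, `0 ≤ t ≤ 1`, from `f` to `g` in the set of `c`-Lipschitz maps `X → S`. -/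
structure LipCurve (c : ℝ≥0) {X S : Type} [MetricSpace X] [MetricSpace S] (f g : X → S) where
  /-- the family of maps -/
  map : unitInterval → X → S
  lip : ∀ t, LipschitzWith c (map t)
  cont : ∀ x, Continuous fun t => map t x
  source : map 0 = f
  target : map 1 = g

/-- The length of a curve: the supremum over the points `x` of the lengths of the tracks
`t ↦ f_t x`. -/
noncomputable def LipCurve.length {c : ℝ≥0} {X S : Type} [MetricSpace X] [MetricSpace S]
    {f g : X → S} (F : LipCurve c f g) : ℝ≥0∞ :=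
  ⨆ x, eVariationOn (fun t => F.map t x) Set.univ

/-- `dist_c (f, g)`: the infimum of the lengths of the curves from `f` to `g` inside the set of
`c`-Lipschitz maps. -/
noncomputable def lipDist (c : ℝ≥0) {X S : Type} [MetricSpace X] [MetricSpace S] (f g : X → S) :
    ℝ≥0∞ :=
  ⨅ F : LipCurve c f g, F.length

/-- `diam_c (Lip_1 (X → S))`. -/
noncomputable def lipDiam (c : ℝ≥0) (X S : Type) [MetricSpace X] [MetricSpace S] : ℝ≥0∞ :=
  ⨆ (f : X → S) (g : X → S) (_ : LipschitzWith 1 f) (_ : LipschitzWith 1 g), lipDist c f g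

/-! ### length spaces from explicit short curves -/

/-- there is a 1-Lipschitz curve of length parameter `ℓ` from `x` to `y` -/
def Geo {S : Type} [MetricSpace S] (x y : S) (ℓ : ℝ) : Prop :=
  0 ≤ ℓ ∧ ∃ γ : ℝ → S, (∀ s ∈ Icc 0 ℓ, ∀ t ∈ Icc 0 ℓ, dist (γ s) (γ t) ≤ |s - t|) ∧
    γ 0 = x ∧ γ ℓ = y

lemma Geo.symm {S : Type} [MetricSpace S] {x y : S} {ℓ : ℝ} (h : Geo x y ℓ) : Geo y x ℓ := by
  obtain ⟨h0, γ, h1, h2, h3⟩ := h
  refine ⟨h0, fun s => γ (ℓ - s), ?_, by simpa using h3, by simpa using h2⟩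
  intro s hs t ht
  have := h1 (ℓ - s) ⟨by linarith [hs.2], by linarith [hs.1]⟩ (ℓ - t)
    ⟨by linarith [ht.2], by linarith [ht.1]⟩
  rwa [show ℓ - s - (ℓ - t) = t - s by ring, abs_sub_comm] at this

lemma Geo.trans {S : Type} [MetricSpace S] {x y z : S} {a b : ℝ} (h : Geo x y a)
    (h' : Geo y z b) : Geo x z (a + b) := by
  obtain ⟨h0, γ, h1, h2, h3⟩ := h
  obtain ⟨h0', γ', h1', h2', h3'⟩ := h'
  refine ⟨by linarith, fun s => if s ≤ a then γ s else γ' (s - a), ?_, ?_, ?_⟩
  · have key : ∀ s ∈ Icc (0 : ℝ) (a + b), ∀ t ∈ Icc (0 : ℝ) (a + b), s ≤ t →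
        dist (if s ≤ a then γ s else γ' (s - a)) (if t ≤ a then γ t else γ' (t - a)) ≤ t - s := by
      intro s hs t ht hst
      by_cases ht' : t ≤ a
      · have hs' : s ≤ a := hst.trans ht'
        rw [if_pos ht', if_pos hs']
        have := h1 s ⟨hs.1, hs'⟩ t ⟨ht.1, ht'⟩
        rwa [abs_sub_comm, abs_of_nonneg (by linarith)] at this
      · rw [if_neg ht']
        rw [not_le] at ht'
        by_cases hs' : s ≤ a
        · rw [if_pos hs']
          have e1 := h1 s ⟨hs.1, hs'⟩ a ⟨h0, le_rfl⟩
          have e2 := h1' 0 ⟨le_rfl, h0'⟩ (t - a) ⟨by linarith, by linarith [ht.2]⟩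
          rw [h3] at e1
          rw [h2'] at e2
          rw [abs_sub_comm, abs_of_nonneg (by linarith)] at e1
          rw [abs_sub_comm, abs_of_nonneg (by linarith)] at e2
          have := dist_triangle (γ s) y (γ' (t - a))
          linarith
        · rw [if_neg hs']
          rw [not_le] at hs'
          have e2 := h1' (s - a) ⟨by linarith, by linarith [hs.2]⟩ (t - a)
            ⟨by linarith, by linarith [ht.2]⟩
          rw [show s - a - (t - a) = s - t by ring, abs_sub_comm,
            abs_of_nonneg (by linarith)] at e2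
          exact e2
    intro s hs t ht
    rcases le_total s t with h | h
    · rw [abs_sub_comm, abs_of_nonneg (by linarith)]
      exact key s hs t ht h
    · rw [abs_of_nonneg (by linarith), dist_comm]
      exact key t ht s hs h
  · simp only [if_pos h0]; exact h2
  · by_cases hb : b = 0
    · subst hb
      simp only [add_zero, le_refl, if_true]
      rw [h3, ← h2', h3']
    · have : ¬ (a + b ≤ a) := by
        have : 0 < b := lt_of_le_of_ne h0' (Ne.symm hb)
        linarith
      simp only [if_neg this, add_sub_cancel_left]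
      exact h3'

lemma Geo.exists_path {S : Type} [MetricSpace S] {x y : S} {ℓ : ℝ} (h : Geo x y ℓ) :
    ∃ γ : Path x y, eVariationOn γ Set.univ ≤ ENNReal.ofReal ℓ := by
  obtain ⟨h0, γ, h1, h2, h3⟩ := h
  have hlip : LipschitzOnWith (Real.toNNReal ℓ) (fun t : ℝ => γ (ℓ * t)) (Icc 0 1) := by
    apply LipschitzOnWith.of_dist_le_mul
    intro s hs t ht
    rw [Real.coe_toNNReal ℓ h0]
    have := h1 (ℓ * s) ⟨mul_nonneg h0 hs.1, by nlinarith [hs.2]⟩ (ℓ * t)
      ⟨mul_nonneg h0 ht.1, by nlinarith [ht.2]⟩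
    rw [← mul_sub, abs_mul, abs_of_nonneg h0] at this
    exact this
  have hc : Continuous (fun t : unitInterval => γ (ℓ * (t : ℝ))) :=
    continuousOn_iff_continuous_domRestrict.1 hlip.continuousOn
  refine ⟨⟨⟨fun t => γ (ℓ * (t : ℝ)), hc⟩, by simpa using h2, by simpa using h3⟩, ?_⟩
  have e1 := hlip.comp_eVariationOn_le (g := (Subtype.val : unitInterval → ℝ)) (s := Set.univ)
    (fun t _ => t.2)
  refine e1.trans ?_
  have e2 : eVariationOn (Subtype.val : unitInterval → ℝ) Set.univ ≤ 1 := by
    have := MonotoneOn.eVariationOn_eq (f := (Subtype.val : unitInterval → ℝ)) (s := Set.univ)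
      (fun a _ b _ h => h) (a := 0) (b := 1) (Set.mem_univ _) (Set.mem_univ _)
    have h3 : (Set.univ : Set unitInterval) ∩ Icc 0 1 = Set.univ := by
      rw [Set.univ_inter]
      exact Set.eq_univ_of_forall fun t => ⟨t.2.1, t.2.2⟩
    rw [h3] at this
    rw [this]
    simp
  calc ((Real.toNNReal ℓ : ℝ≥0) : ℝ≥0∞) * eVariationOn (Subtype.val : unitInterval → ℝ) Set.univ
      ≤ ((Real.toNNReal ℓ : ℝ≥0) : ℝ≥0∞) * 1 := by gcongr
    _ = ENNReal.ofReal ℓ := by
      rw [mul_one, ENNReal.ofReal]

lemma isLengthMetric_of_geo {S : Type} [MetricSpace S]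
    (h : ∀ x y : S, Geo x y (dist x y)) : IsLengthMetric S := by
  intro x y
  apply le_antisymm
  · refine le_iInf fun γ => ?_
    have := eVariationOn.edist_le (f := γ) (s := Set.univ) (x := 0) (y := 1) (Set.mem_univ _)
      (Set.mem_univ _)
    simpa using this
  · obtain ⟨γ, hγ⟩ := (h x y).exists_path
    refine (iInf_le _ γ).trans (hγ.trans ?_)
    rw [edist_dist]

end Pool.Agent.Helper39.LipMaps
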