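import Pool.Agent.Helper39.DiscMetric
import Pool.Agent.Helper39.LipMaps

/-! The metric of the disc is a length metric. -/

open scoped ENNReal NNReal Real
open InnerProductGeometry Set
open Pool.Agent.Helper39.LipMaps

namespace Pool.Agent.Helper39.DiscM

/-- the unit vector with angle `θ` -/
noncomputable def ee (θ : ℝ) : ℂ := Complex.exp (θ * Complex.I)

lemma norm_ee (θ : ℝ) : ‖ee θ‖ = 1 := Complex.norm_exp_ofReal_mul_I θ

lemma ee_ne (θ : ℝ) : ee θ ≠ 0 := Complex.exp_ne_zero _

lemma angle_ee (a b : ℝ) : angle (ee a) (ee b) ≤ |a - b| := by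
  rcases le_total π |a - b| with h | h
  · exact (angle_le_pi _ _).trans h
  · have h1 : angle (ee a) (ee b) = |(ee a / ee b).arg| :=
      Complex.angle_eq_abs_arg (ee_ne a) (ee_ne b)
    have h2 : ee a / ee b = Complex.exp ((a - b : ℝ) * Complex.I) := by
      unfold ee
      rw [← Complex.exp_sub]
      congr 1
      push_cast
      ring
    rw [h1, h2]
    rcases eq_or_lt_of_le h with h | h
    · rw [h]; exact Complex.abs_arg_le_pi _
    · rw [abs_lt] at h
      rw [Complex.arg_exp_mul_I, (toIocMod_eq_self _).2]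
      exact ⟨by linarith [h.1], by linarith [h.2]⟩

/-- the point with polar coordinates `(r, θ)` -/
noncomputable def pt (r θ : ℝ) : ℂ := (r : ℂ) * ee θ

lemma norm_pt {r : ℝ} (hr : 0 ≤ r) (θ : ℝ) : ‖pt r θ‖ = r := by
  unfold pt
  rw [norm_mul, norm_ee, mul_one, Complex.norm_real, Real.norm_of_nonneg hr]

lemma angle_pt {r s : ℝ} (hr : 0 < r) (hs : 0 < s) (a b : ℝ) :
    angle (pt r a) (pt s b) ≤ |a - b| := by
  unfold pt
  have h1 : (r : ℂ) * ee a = r • ee a := by simp
  have h2 : (s : ℂ) * ee b = s • ee b := by simp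
  rw [h1, h2, angle_smul_left_of_pos _ _ hr, angle_smul_right_of_pos _ _ hs]
  exact angle_ee a b

lemma dd_radial {r s : ℝ} (hr : 0 ≤ r) (hs : 0 ≤ s) (θ : ℝ) : dd (pt r θ) (pt s θ) ≤ |r - s| := by
  unfold dd
  rw [norm_pt hr, norm_pt hs]
  suffices h : gap r s (angle (pt r θ) (pt s θ)) ≤ 0 by linarith
  rcases hr.eq_or_lt with h0 | h0
  · refine (gap_le_left _ _ _).trans ?_
    rw [← h0, min_eq_left hs]; simp
  rcases hs.eq_or_lt with h1 | h1
  · refine (gap_le_left _ _ _).trans ?_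
    rw [← h1, min_eq_right hr]; simp
  refine (gap_le_right _ _ _).trans ?_
  have := angle_pt h0 h1 θ θ
  rw [sub_self, abs_zero] at this
  have h2 : angle (pt r θ) (pt s θ) = 0 := le_antisymm this (angle_nonneg _ _)
  rw [h2, zero_div]

lemma dd_rot {r : ℝ} (hr : 0 < r) (a b : ℝ) : dd (pt r a) (pt r b) ≤ |a - b| / r := by
  unfold dd
  rw [norm_pt hr.le, norm_pt hr.le, sub_self, abs_zero, zero_add]
  refine (gap_le_right _ _ _).trans ?_
  rw [max_self]
  have := angle_pt hr hr a b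
  gcongr

/-- a point of the disc in polar coordinates -/
noncomputable def dpt (r : ℝ) (θ : ℝ) (h0 : 0 ≤ r) (h1 : r ≤ 1) : Disc :=
  ⟨pt r θ, by rw [norm_pt h0]; exact h1⟩

lemma geo_radial {r s : ℝ} (θ : ℝ) (hr : 0 ≤ r) (hr1 : r ≤ 1) (hs : 0 ≤ s) (hsr : s ≤ r) :
    Geo (dpt r θ hr hr1) (dpt s θ hs (hsr.trans hr1)) (r - s) := by
  refine ⟨by linarith, fun t => ⟨pt (max s (min r (r - t))) θ, ?_⟩, ?_, ?_, ?_⟩
  · rw [norm_pt (hs.trans (le_max_left _ _))]
    exact max_le (hsr.trans hr1) ((min_le_left _ _).trans hr1)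
  · intro a ha b hb
    rw [dist_def]
    simp only
    refine (dd_radial (hs.trans (le_max_left _ _)) (hs.trans (le_max_left _ _)) θ).trans ?_
    rw [min_eq_right (by linarith [ha.1]), min_eq_right (by linarith [hb.1]),
      max_eq_right (by linarith [ha.2]), max_eq_right (by linarith [hb.2])]
    rw [show r - a - (r - b) = b - a by ring, abs_sub_comm]
  · apply Disc.ext'
    simp [dpt, max_eq_right hsr]
  · apply Disc.ext'
    simp only [dpt, sub_sub_cancel]
    rw [min_eq_right hsr, max_self]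

lemma geo_rot {r : ℝ} (hr : 0 < r) (hr1 : r ≤ 1) (a b : ℝ) (hab : a ≤ b) :
    Geo (dpt r a hr.le hr1) (dpt r b hr.le hr1) ((b - a) / r) := by
  refine ⟨div_nonneg (by linarith) hr.le, fun t => ⟨pt r (a + r * t), ?_⟩, ?_, ?_, ?_⟩
  · rw [norm_pt hr.le]; exact hr1
  · intro s _ t _
    rw [dist_def]
    simp only
    refine (dd_rot hr _ _).trans (le_of_eq ?_)
    rw [show a + r * s - (a + r * t) = r * (s - t) by ring, abs_mul, abs_of_pos hr]
    field_simp
  · apply Disc.ext'
    simp [dpt]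
  · apply Disc.ext'
    simp only [dpt]
    congr 1
    field_simp
    ring

lemma exists_dpt (p : Disc) : ∃ θ, p = dpt ‖p.z‖ θ (norm_nonneg _) p.le := by
  refine ⟨p.z.arg, Disc.ext' ?_⟩
  simp only [dpt, pt, ee]
  exact (Complex.norm_mul_exp_arg_mul_I p.z).symm

/-- two points, the second in polar coordinates relative to the first -/
lemma exists_dpt_two (p q : Disc) (hp : p.z ≠ 0) (hq : q.z ≠ 0) : ∃ θ φ,
    p = dpt ‖p.z‖ θ (norm_nonneg _) p.le ∧ q = dpt ‖q.z‖ φ (norm_nonneg _) q.le ∧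
      |θ - φ| = angle p.z q.z := by
  refine ⟨p.z.arg, p.z.arg - (p.z / q.z).arg, Disc.ext' ?_, Disc.ext' ?_, ?_⟩
  · simp only [dpt, pt, ee]
    exact (Complex.norm_mul_exp_arg_mul_I p.z).symm
  · simp only [dpt, pt, ee]
    have h1 := Complex.norm_mul_exp_arg_mul_I p.z
    have h2 := Complex.norm_mul_exp_arg_mul_I (p.z / q.z)
    have h3 : Complex.exp (((p.z.arg - (p.z / q.z).arg : ℝ) : ℂ) * Complex.I) =
        Complex.exp (p.z.arg * Complex.I) / Complex.exp ((p.z / q.z).arg * Complex.I) := by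
      rw [← Complex.exp_sub]
      congr 1
      push_cast
      ring
    rw [h3]
    have hpn : (‖p.z‖ : ℂ) ≠ 0 := by
      rw [Complex.ofReal_ne_zero]; exact (norm_pos_iff.2 hp).ne'
    have hqn : (‖q.z‖ : ℂ) ≠ 0 := by
      rw [Complex.ofReal_ne_zero]; exact (norm_pos_iff.2 hq).ne'
    have h4 : Complex.exp (p.z.arg * Complex.I) = p.z / ‖p.z‖ := by
      rw [eq_div_iff hpn, mul_comm]; exact h1
    have h5 : Complex.exp ((p.z / q.z).arg * Complex.I) = (p.z / q.z) / (‖p.z‖ / ‖q.z‖) := by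
      rw [eq_div_iff (div_ne_zero hpn hqn), mul_comm]
      rw [norm_div] at h2
      push_cast at h2
      exact h2
    rw [h4, h5]
    field_simp
  · rw [sub_sub_cancel]
    exact (Complex.angle_eq_abs_arg hp hq).symm

lemma geo_any_aux (p q : Disc) (h : ‖q.z‖ ≤ ‖p.z‖) : Geo p q (dist p q) := by
  by_cases hq : q.z = 0
  · obtain ⟨θ, hθ⟩ := exists_dpt p
    have h1 := geo_radial θ (norm_nonneg _) p.le (le_refl (0 : ℝ)) (norm_nonneg p.z)
    rw [← hθ] at h1
    have h2 : dpt 0 θ (le_refl (0 : ℝ)) ((norm_nonneg p.z).trans p.le) = q := by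
      apply Disc.ext'
      simp [dpt, pt, hq]
    rw [h2] at h1
    have h3 : dist p q = ‖p.z‖ - 0 := by
      rw [dist_def, dd, hq, gap, norm_zero, min_eq_right (norm_nonneg _), sub_zero, mul_zero,
        abs_of_nonneg (norm_nonneg _), min_eq_left, add_zero]
      have := angle_nonneg p.z 0
      positivity
    rw [h3]
    exact h1
  · have hp : p.z ≠ 0 := norm_pos_iff.1 (lt_of_lt_of_le (norm_pos_iff.2 hq) h)
    have hp' : 0 < ‖p.z‖ := norm_pos_iff.2 hp
    rcases min_choice (2 * min ‖p.z‖ ‖q.z‖) (angle p.z q.z / max ‖p.z‖ ‖q.z‖) with hc | hc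
    · -- through the centre
      obtain ⟨θ, hθ⟩ := exists_dpt p
      obtain ⟨φ, hφ⟩ := exists_dpt q
      have h1 := geo_radial θ (norm_nonneg _) p.le (le_refl (0 : ℝ)) (norm_nonneg p.z)
      have h2 := geo_radial φ (norm_nonneg _) q.le (le_refl (0 : ℝ)) (norm_nonneg q.z)
      rw [← hθ] at h1
      rw [← hφ] at h2
      have h3 : dpt 0 θ (le_refl (0 : ℝ)) ((norm_nonneg p.z).trans p.le) =
          dpt 0 φ (le_refl (0 : ℝ)) ((norm_nonneg q.z).trans q.le) := by
        apply Disc.ext'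
        simp [dpt, pt]
      rw [h3] at h1
      have h4 := h1.trans h2.symm
      have h5 : dist p q = ‖p.z‖ - 0 + (‖q.z‖ - 0) := by
        rw [dist_def, dd, gap, hc, min_eq_right h, abs_of_nonneg (by linarith)]
        ring
      rw [h5]
      exact h4
    · obtain ⟨θ, φ, hθ, hφ, ha⟩ := exists_dpt_two p q hp hq
      have h2 := geo_radial φ (norm_nonneg _) p.le (norm_nonneg q.z) h
      rw [← hφ] at h2
      have h1 : Geo p (dpt ‖p.z‖ φ (norm_nonneg _) p.le) (|θ - φ| / ‖p.z‖) := by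
        rcases le_total θ φ with h3 | h3
        · have := geo_rot hp' p.le θ φ h3
          rw [← hθ] at this
          rwa [abs_sub_comm, abs_of_nonneg (by linarith)]
        · have := (geo_rot hp' p.le φ θ h3).symm
          rw [← hθ] at this
          rwa [abs_of_nonneg (by linarith)]
      have h4 := h1.trans h2
      have h5 : dist p q = |θ - φ| / ‖p.z‖ + (‖p.z‖ - ‖q.z‖) := by
        rw [dist_def, dd, gap, hc, max_eq_left h, abs_of_nonneg (by linarith), ha]
        ring
      rw [h5]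
      exact h4

lemma geo_any (p q : Disc) : Geo p q (dist p q) := by
  rcases le_total ‖q.z‖ ‖p.z‖ with h | h
  · exact geo_any_aux p q h
  · rw [dist_comm]
    exact (geo_any_aux q p h).symm

theorem isLengthMetric_disc : IsLengthMetric Disc := isLengthMetric_of_geo geo_any

end Pool.Agent.Helper39.DiscM
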