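import Pool.Agent.Helper39.DiscMetric

/-! A discrete Stokes inequality on the disc. -/

open scoped ENNReal NNReal Real
open InnerProductGeometry Set

namespace Pool.Agent.Helper39.DiscM

/-- the truncated logarithm -/
noncomputable def W (ε u : ℝ) : ℝ := Real.log (max u ε) - Real.log ε

lemma W_zero {ε u : ℝ} (h : u ≤ ε) : W ε u = 0 := by
  unfold W; rw [max_eq_right h, sub_self]

lemma W_nonneg {ε : ℝ} (hε : 0 < ε) (u : ℝ) : 0 ≤ W ε u := by
  unfold W
  have := Real.log_le_log hε (le_max_right u ε)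
  linarith

lemma W_le {ε u : ℝ} (hε : 0 < ε) (hu : u ≤ 1) : W ε u ≤ W ε 1 := by
  unfold W
  have := Real.log_le_log (lt_of_lt_of_le hε (le_max_right u ε)) (max_le_max_right ε hu)
  linarith

lemma log_sub_le {x y m : ℝ} (hm : 0 < m) (hx : m ≤ x) (hy : m ≤ y) :
    |Real.log x - Real.log y| ≤ |x - y| / m := by
  have key : ∀ x y : ℝ, m ≤ x → x ≤ y → Real.log y - Real.log x ≤ (y - x) / m := by
    intro x y hx hxy
    have hx0 : 0 < x := lt_of_lt_of_le hm hx
    have hy0 : 0 < y := lt_of_lt_of_le hx0 hxy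
    rw [← Real.log_div hy0.ne' hx0.ne']
    have h1 := Real.log_le_sub_one_of_pos (div_pos hy0 hx0)
    have h2 : y / x - 1 = (y - x) / x := by field_simp
    rw [h2] at h1
    refine h1.trans ?_
    exact div_le_div_of_nonneg_left (by linarith) hm hx
  rcases le_total x y with h | h
  · have h3 := Real.log_le_log (lt_of_lt_of_le hm hx) h
    rw [abs_sub_comm, abs_of_nonneg (by linarith), abs_sub_comm, abs_of_nonneg (by linarith)]
    exact key x y hx h
  · have h3 := Real.log_le_log (lt_of_lt_of_le hm hy) h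
    rw [abs_of_nonneg (by linarith), abs_of_nonneg (by linarith)]
    exact key y x hy h

lemma W_lip {ε m u v : ℝ} (hm : 0 < m) (hu : m ≤ max u ε) (hv : m ≤ max v ε) :
    |W ε u - W ε v| ≤ |u - v| / m := by
  unfold W
  rw [sub_sub_sub_cancel_right]
  refine (log_sub_le hm hu hv).trans ?_
  have := abs_max_sub_max_le_abs u v ε
  gcongr

lemma norm_sub_le_dd (z w : ℂ) : |‖z‖ - ‖w‖| ≤ dd z w := by
  unfold dd
  have := gap_nonneg (norm_nonneg z) (norm_nonneg w) (angle_nonneg z w)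
  linarith

/-- away from the apex the angle is controlled by the distance -/
lemma arg_le {ε : ℝ} {p q : ℂ} (hε : 0 < ε) (hp : ε / 2 ≤ ‖p‖) (h : dd p q ≤ ε / 8) :
    q ≠ 0 ∧ |(q / p).arg| ≤ max ‖p‖ ‖q‖ * dd p q := by
  have h1 := (norm_sub_le_dd p q).trans h
  rw [abs_le] at h1
  have hq' : ε * (3 / 8) ≤ ‖q‖ := by linarith [h1.2]
  have hq : q ≠ 0 := norm_pos_iff.1 (by linarith)
  have hp0 : p ≠ 0 := norm_pos_iff.1 (by linarith)
  refine ⟨hq, ?_⟩
  rw [← Complex.angle_eq_abs_arg hq hp0, angle_comm]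
  have hM : 0 < max ‖p‖ ‖q‖ := lt_max_of_lt_left (norm_pos_iff.2 hp0)
  have h2 : gap ‖p‖ ‖q‖ (angle p q) ≤ dd p q := by
    unfold dd
    have := abs_nonneg (‖p‖ - ‖q‖)
    linarith
  rcases min_choice (2 * min ‖p‖ ‖q‖) (angle p q / max ‖p‖ ‖q‖) with hc | hc
  · exfalso
    unfold gap at h2
    rw [hc] at h2
    have h3 : ε * (3 / 8) ≤ min ‖p‖ ‖q‖ := le_min (by linarith) hq'
    linarith
  · unfold gap at h2
    rw [hc, div_le_iff₀ hM] at h2
    linarith

/-- the local cochain -/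
noncomputable def aa (ε : ℝ) (p q : ℂ) : ℝ := W ε ‖p‖ * (q / p).arg

lemma aa_le {ε : ℝ} {p q : ℂ} (hε : 0 < ε) (hp : ‖p‖ ≤ 1) (hq : ‖q‖ ≤ 1)
    (h : dd p q ≤ ε / 8) : |aa ε p q| ≤ W ε 1 * dd p q := by
  unfold aa
  rcases le_or_gt ‖p‖ ε with h1 | h1
  · rw [W_zero h1, zero_mul, abs_zero]
    exact mul_nonneg (W_nonneg hε _) (dd_nonneg _ _)
  · obtain ⟨-, h2⟩ := arg_le hε (by linarith) h
    rw [abs_mul, abs_of_nonneg (W_nonneg hε _)]
    have h3 : |(q / p).arg| ≤ dd p q := by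
      refine h2.trans ?_
      have := mul_le_mul_of_nonneg_right (max_le hp hq) (dd_nonneg p q)
      rwa [one_mul] at this
    exact mul_le_mul (W_le hε hp) h3 (abs_nonneg _) (W_nonneg hε _)

lemma defect {ε : ℝ} {p q r : ℂ} (hε : 0 < ε) (hε1 : ε ≤ 1) (hp : ‖p‖ ≤ 1) (hq : ‖q‖ ≤ 1)
    (hr : ‖r‖ ≤ 1) (h1 : dd p q ≤ ε / 8) (h2 : dd q r ≤ ε / 8) :
    |aa ε p q + aa ε q r - aa ε p r| ≤ 2 * (dd p q * dd q r) := by
  have hd1 := dd_nonneg p q
  have hd2 := dd_nonneg q r
  have n1 := (norm_sub_le_dd p q).trans h1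
  have n2 := (norm_sub_le_dd q r).trans h2
  rw [abs_le] at n1 n2
  by_cases hcase : ‖p‖ ≤ ε ∧ ‖q‖ ≤ ε
  · unfold aa
    rw [W_zero hcase.1, W_zero hcase.2]
    simp only [zero_mul, add_zero, sub_self, abs_zero]
    positivity
  · have hp' : ε * (7 / 8) ≤ ‖p‖ := by
      by_contra hcon
      rw [not_le] at hcon
      exact hcase ⟨by linarith, by linarith [n1.1]⟩
    have hq' : ε * (7 / 8) ≤ ‖q‖ := by
      by_contra hcon
      rw [not_le] at hcon
      exact hcase ⟨by linarith [n1.2], by linarith⟩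
    obtain ⟨hq0, a1⟩ := arg_le hε (by linarith) h1
    obtain ⟨hr0, a2⟩ := arg_le hε (by linarith) h2
    have hp0 : p ≠ 0 := norm_pos_iff.1 (by linarith)
    have a1' : |(q / p).arg| ≤ ε / 8 := by
      refine a1.trans ?_
      have := mul_le_mul_of_nonneg_right (max_le hp hq) hd1
      linarith
    have a2' : |(r / q).arg| ≤ ε / 8 := by
      refine a2.trans ?_
      have := mul_le_mul_of_nonneg_right (max_le hq hr) hd2
      linarith
    have hadd : (r / p).arg = (q / p).arg + (r / q).arg := by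
      have e : r / p = (q / p) * (r / q) := by field_simp
      rw [e]
      apply Complex.arg_mul (div_ne_zero hq0 hp0) (div_ne_zero hr0 hq0)
      rw [abs_le] at a1' a2'
      have := Real.pi_gt_three
      exact ⟨by linarith [a1'.1, a2'.1], by linarith [a1'.2, a2'.2]⟩
    unfold aa
    rw [hadd, show W ε ‖p‖ * (q / p).arg + W ε ‖q‖ * (r / q).arg -
      W ε ‖p‖ * ((q / p).arg + (r / q).arg) = (W ε ‖q‖ - W ε ‖p‖) * (r / q).arg by ring, abs_mul]
    set M := max ‖q‖ ε with hM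
    have hMε : ε ≤ M := le_max_right _ _
    have hMq : ‖q‖ ≤ M := le_max_left _ _
    have w1 : |W ε ‖q‖ - W ε ‖p‖| ≤ |‖q‖ - ‖p‖| / (7 / 8 * M) := by
      apply W_lip (by linarith)
      · linarith
      · rcases le_total ‖q‖ ε with h | h
        · have : M = ε := max_eq_right h
          rw [this]
          exact le_trans (by linarith) (le_max_right _ _)
        · have : M = ‖q‖ := max_eq_left h
          refine le_trans ?_ (le_max_left _ _)
          rw [this]
          linarith [n1.1]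
    have w2 : |(r / q).arg| ≤ 9 / 8 * M * dd q r := by
      refine a2.trans ?_
      apply mul_le_mul_of_nonneg_right _ hd2
      apply max_le
      · linarith
      · linarith [n2.1]
    have w3 : |‖q‖ - ‖p‖| ≤ dd p q := by
      rw [abs_sub_comm]; exact norm_sub_le_dd p q
    have hMpos : 0 < M := by linarith
    calc |W ε ‖q‖ - W ε ‖p‖| * |(r / q).arg|
        ≤ (|‖q‖ - ‖p‖| / (7 / 8 * M)) * (9 / 8 * M * dd q r) := by gcongr
      _ ≤ (dd p q / (7 / 8 * M)) * (9 / 8 * M * dd q r) := by gcongr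
      _ = 9 / 7 * (dd p q * dd q r) := by field_simp
      _ ≤ 2 * (dd p q * dd q r) := by
        have := mul_nonneg hd1 hd2
        linarith

/-- one grid cell -/
lemma cell {ε κ : ℝ} {p p' q q' : Disc} (hε : 0 < ε) (hε1 : ε ≤ 1) (hκ : κ ≤ ε / 8)
    (h1 : dist p p' ≤ κ) (h2 : dist q q' ≤ κ) (h3 : dist p q ≤ ε / 8)
    (h4 : dist p' q' ≤ ε / 8) :
    |(aa ε p.z p'.z - aa ε q.z q'.z) - (aa ε p.z q.z - aa ε p'.z q'.z)| ≤
      2 * κ * (dist p q + dist p' q') := by
  have e1 := defect hε hε1 p.le p'.le q'.le (h1.trans hκ) h4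
  have e2 := defect hε hε1 p.le q.le q'.le h3 (h2.trans hκ)
  rw [← dist_def, ← dist_def] at e1 e2
  have e3 : dist p p' * dist p' q' ≤ κ * dist p' q' :=
    mul_le_mul_of_nonneg_right h1 dist_nonneg
  have e4 : dist p q * dist q q' ≤ dist p q * κ :=
    mul_le_mul_of_nonneg_left h2 dist_nonneg
  rw [abs_le] at e1 e2 ⊢
  constructor <;> nlinarith [e1.1, e1.2, e2.1, e2.2]

/-- The discrete Stokes inequality. -/
theorem stokes {ε κ D : ℝ} (hε : 0 < ε) (hε1 : ε ≤ 1) (hκ0 : 0 ≤ κ) (hκ : κ ≤ ε / 8) (M N : ℕ)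
    (P : ℕ → ℕ → Disc)
    (hx : ∀ j ≤ M, ∀ i < N, dist (P j i) (P j (i + 1)) ≤ κ)
    (ht : ∀ j < M, ∀ i ≤ N, dist (P j i) (P (j + 1) i) ≤ ε / 8)
    (hD : ∀ i ≤ N, ∑ j ∈ Finset.range M, dist (P j i) (P (j + 1) i) ≤ D) :
    |∑ i ∈ Finset.range N, aa ε (P 0 i).z (P 0 (i + 1)).z -
      ∑ i ∈ Finset.range N, aa ε (P M i).z (P M (i + 1)).z| ≤
      2 * W ε 1 * D + 4 * κ * N * D := by
  set F : ℕ → ℝ := fun j => ∑ i ∈ Finset.range N, aa ε (P j i).z (P j (i + 1)).z with hF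
  have step : ∀ j < M, |F j - F (j + 1)| ≤
      W ε 1 * dist (P j 0) (P (j + 1) 0) + W ε 1 * dist (P j N) (P (j + 1) N) +
      ∑ i ∈ Finset.range N, 2 * κ * (dist (P j i) (P (j + 1) i) +
        dist (P j (i + 1)) (P (j + 1) (i + 1))) := by
    intro j hj
    have tele : ∑ i ∈ Finset.range N, (aa ε (P j i).z (P (j + 1) i).z -
        aa ε (P j (i + 1)).z (P (j + 1) (i + 1)).z) =
        aa ε (P j 0).z (P (j + 1) 0).z - aa ε (P j N).z (P (j + 1) N).z :=
      Finset.sum_range_sub' (fun i => aa ε (P j i).z (P (j + 1) i).z) N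
    have e1 : F j - F (j + 1) = (aa ε (P j 0).z (P (j + 1) 0).z -
        aa ε (P j N).z (P (j + 1) N).z) + ∑ i ∈ Finset.range N,
        ((aa ε (P j i).z (P j (i + 1)).z - aa ε (P (j + 1) i).z (P (j + 1) (i + 1)).z) -
        (aa ε (P j i).z (P (j + 1) i).z - aa ε (P j (i + 1)).z (P (j + 1) (i + 1)).z)) := by
      rw [← tele, hF]
      simp only
      rw [← Finset.sum_sub_distrib, ← Finset.sum_add_distrib]
      apply Finset.sum_congr rfl
      intro i _
      ring
    rw [e1]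
    refine (abs_add_le _ _).trans ?_
    have b1 : |aa ε (P j 0).z (P (j + 1) 0).z - aa ε (P j N).z (P (j + 1) N).z| ≤
        W ε 1 * dist (P j 0) (P (j + 1) 0) + W ε 1 * dist (P j N) (P (j + 1) N) := by
      refine (abs_sub _ _).trans ?_
      exact add_le_add (aa_le hε (P j 0).le (P (j + 1) 0).le (ht j hj 0 (Nat.zero_le _)))
        (aa_le hε (P j N).le (P (j + 1) N).le (ht j hj N le_rfl))
    refine add_le_add b1 ?_
    refine (Finset.abs_sum_le_sum_abs _ _).trans ?_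
    apply Finset.sum_le_sum
    intro i hi
    rw [Finset.mem_range] at hi
    exact cell hε hε1 hκ (hx j hj.le i hi) (hx (j + 1) hj i hi) (ht j hj i hi.le)
      (ht j hj (i + 1) hi)
  have tele : F 0 - F M = ∑ j ∈ Finset.range M, (F j - F (j + 1)) :=
    (Finset.sum_range_sub' F M).symm
  rw [tele]
  refine (Finset.abs_sum_le_sum_abs _ _).trans ?_
  have s1 : ∑ j ∈ Finset.range M, |F j - F (j + 1)| ≤ ∑ j ∈ Finset.range M,
      (W ε 1 * dist (P j 0) (P (j + 1) 0) + W ε 1 * dist (P j N) (P (j + 1) N) +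
      ∑ i ∈ Finset.range N, 2 * κ * (dist (P j i) (P (j + 1) i) +
        dist (P j (i + 1)) (P (j + 1) (i + 1)))) :=
    Finset.sum_le_sum fun j hj => step j (Finset.mem_range.1 hj)
  refine s1.trans ?_
  rw [Finset.sum_add_distrib, Finset.sum_add_distrib, ← Finset.mul_sum, ← Finset.mul_sum,
    Finset.sum_comm]
  have c1 := hD 0 (Nat.zero_le _)
  have c2 := hD N le_rfl
  have hW := W_nonneg hε 1
  have c3 : ∑ i ∈ Finset.range N, ∑ j ∈ Finset.range M, 2 * κ * (dist (P j i) (P (j + 1) i) +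
        dist (P j (i + 1)) (P (j + 1) (i + 1))) ≤ ∑ i ∈ Finset.range N, 2 * κ * (D + D) := by
    apply Finset.sum_le_sum
    intro i hi
    rw [Finset.mem_range] at hi
    rw [← Finset.mul_sum, Finset.sum_add_distrib]
    have := hD i hi.le
    have := hD (i + 1) hi
    gcongr
  rw [Finset.sum_const, Finset.card_range, nsmul_eq_mul] at c3
  have c4 := mul_le_mul_of_nonneg_left c1 hW
  have c5 := mul_le_mul_of_nonneg_left c2 hW
  linarith

end Pool.Agent.Helper39.DiscM
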