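import Pool.Agent.Helper39.DiscGeo
import Pool.Agent.Helper39.DiscStokes

/-! The lower bound for the diameters. -/

open scoped ENNReal NNReal Real
open InnerProductGeometry Set
open Pool.Agent.Helper39.LipMaps

namespace Pool.Agent.Helper39.DiscM

lemma pt_div (a b : ℝ) : pt 1 b / pt 1 a = Complex.exp ((b - a : ℝ) * Complex.I) := by
  unfold pt ee
  rw [Complex.ofReal_one, one_mul, one_mul, ← Complex.exp_sub]
  congr 1
  push_cast
  ring

lemma aa_core {ε a b : ℝ} (h0 : 0 ≤ b - a) (h1 : b - a ≤ 1) :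
    aa ε (pt 1 a) (pt 1 b) = W ε 1 * (b - a) := by
  unfold aa
  rw [pt_div, norm_pt zero_le_one, Complex.arg_exp_mul_I, (toIocMod_eq_self _).2]
  have := Real.pi_gt_three
  exact ⟨by linarith, by linarith⟩

/-- the map `x ↦ exp (i x₀)` into the boundary circle -/
noncomputable def wind {n : ℕ} (i0 : Fin n) (R : ℝ)
    (x : Metric.closedBall (0 : EuclideanSpace ℝ (Fin n)) R) : Disc :=
  ⟨pt 1 ((x : EuclideanSpace ℝ (Fin n)) i0), by rw [norm_pt zero_le_one]⟩

lemma wind_lip {n : ℕ} (i0 : Fin n) (R : ℝ) : LipschitzWith 1 (wind i0 R) := by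
  apply LipschitzWith.of_dist_le_mul
  intro x y
  rw [dist_def]
  refine (dd_rot one_pos _ _).trans ?_
  rw [div_one, NNReal.coe_one, one_mul]
  have : |(x : EuclideanSpace ℝ (Fin n)) i0 - (y : EuclideanSpace ℝ (Fin n)) i0| =
      ‖((x : EuclideanSpace ℝ (Fin n)) - y) i0‖ := by
    rw [Real.norm_eq_abs]; rfl
  rw [this, Subtype.dist_eq, dist_eq_norm]
  exact PiLp.norm_apply_le _ _

/-- the centre -/
def centre : Disc := ⟨0, by simp⟩

lemma exists_fine {X : Type} [MetricSpace X] (c : ℝ≥0) {f g : X → Disc} (F : LipCurve c f g)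
    (N : ℕ) (x : ℕ → X) {δ : ℝ} (hδ : 0 < δ) :
    ∃ M : ℕ, 0 < M ∧ ∀ s t : unitInterval, |(s : ℝ) - t| ≤ 1 / M →
      ∀ i ≤ N, dist (F.map s (x i)) (F.map t (x i)) ≤ δ := by
  have h1 : ∀ i : ℕ, ∃ η > 0, ∀ s t : unitInterval, dist s t < η →
      dist (F.map s (x i)) (F.map t (x i)) < δ := by
    intro i
    have := CompactSpace.uniformContinuous_of_continuous (F.cont (x i))
    rw [Metric.uniformContinuous_iff] at this
    obtain ⟨η, hη, h⟩ := this δ hδ
    exact ⟨η, hη, fun s t hst => h hst⟩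
  choose η hη h using h1
  obtain ⟨m, hm0, hm⟩ : ∃ m > 0, ∀ i ≤ N, m ≤ η i := by
    clear h
    induction N with
    | zero => exact ⟨η 0, hη 0, fun i hi => by rw [Nat.le_zero.1 hi]⟩
    | succ N ih =>
      obtain ⟨m, hm0, hm⟩ := ih
      refine ⟨min m (η (N + 1)), lt_min hm0 (hη _), fun i hi => ?_⟩
      rcases Nat.le_succ_iff.1 hi with h | h
      · exact (min_le_left _ _).trans (hm i h)
      · rw [h]; exact min_le_right _ _
  obtain ⟨M, hM⟩ := exists_nat_gt (1 / m)
  have hM0 : 0 < (M : ℝ) := lt_trans (by positivity) hM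
  refine ⟨M, Nat.cast_pos.1 hM0, fun s t hst i hi => (h i s t ?_).le⟩
  have h2 : (1 : ℝ) / M < m := by
    rw [div_lt_iff₀ hm0] at hM
    rw [div_lt_iff₀ hM0]
    linarith
  calc dist s t = |(s : ℝ) - t| := rfl
    _ ≤ 1 / M := hst
    _ < m := h2
    _ ≤ η i := hm i hi

lemma length_ge {n : ℕ} (i0 : Fin n) {R : ℝ} (hR : 0 < R) (c : ℝ≥0)
    (F : LipCurve c (wind i0 R) (fun _ => centre)) : ENNReal.ofReal R ≤ F.length := by
  by_contra hcon
  rw [not_le] at hcon
  set D : ℝ := F.length.toReal with hDdef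
  have hfin : F.length ≠ ⊤ := ne_top_of_lt hcon
  have hDR : D < R := by
    rw [← ENNReal.ofReal_toReal hfin] at hcon
    exact (ENNReal.ofReal_lt_ofReal_iff hR).1 hcon
  have hD0 : 0 ≤ D := ENNReal.toReal_nonneg
  -- the truncation parameter
  set T : ℝ := (8 * c * R * D + 1) / (2 * R - 2 * D) with hT
  have hc0 : (0 : ℝ) ≤ c := c.2
  have hT0 : 0 < T := by
    apply div_pos
    · positivity
    · linarith
  have hTe : T * (2 * R - 2 * D) = 8 * c * R * D + 1 := by
    rw [hT, div_mul_cancel₀]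
    have : 0 < 2 * R - 2 * D := by linarith
    exact this.ne'
  set ε : ℝ := Real.exp (-T) with hε'
  have hε : 0 < ε := Real.exp_pos _
  have hε1 : ε ≤ 1 := by rw [hε', Real.exp_le_one_iff]; linarith
  have hW : W ε 1 = T := by
    unfold W
    rw [max_eq_left hε1, Real.log_one, hε', Real.log_exp]
    ring
  -- the number of subdivisions
  obtain ⟨N, hN⟩ := exists_nat_gt (max (2 * R) (c * (2 * R) / (ε / 8)))
  have hN1 : 2 * R < N := lt_of_le_of_lt (le_max_left _ _) hN
  have hN2 : c * (2 * R) / (ε / 8) < N := lt_of_le_of_lt (le_max_right _ _) hN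
  have hNpos : (0 : ℝ) < N := by linarith
  have hN0 : N ≠ 0 := by
    rintro rfl
    simp at hNpos
  set κ : ℝ := c * (2 * R / N) with hκdef
  have hκ0 : 0 ≤ κ := by positivity
  have hκ : κ ≤ ε / 8 := by
    rw [div_lt_iff₀ (by positivity)] at hN2
    rw [hκdef, ← mul_div_assoc, div_le_iff₀ hNpos]
    linarith
  -- the points
  set s : ℕ → ℝ := fun i => max (-R) (min R (-R + 2 * R / N * i)) with hs
  have hs_abs : ∀ i, |s i| ≤ R := fun i => by
    rw [abs_le, hs]
    exact ⟨le_max_left _ _, max_le (by linarith) (min_le_left _ _)⟩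
  have hs_val : ∀ i ≤ N, s i = -R + 2 * R / N * i := by
    intro i hi
    rw [hs]
    have h1 : 0 ≤ 2 * R / N * i := by positivity
    have h2 : 2 * R / N * i ≤ 2 * R := by
      rw [div_mul_eq_mul_div, div_le_iff₀ hNpos]
      have : (i : ℝ) ≤ N := by exact_mod_cast hi
      gcongr
    simp only
    rw [min_eq_right (by linarith), max_eq_right (by linarith)]
  have hmem : ∀ i, EuclideanSpace.single i0 (s i) ∈
      Metric.closedBall (0 : EuclideanSpace ℝ (Fin n)) R := by
    intro i
    rw [mem_closedBall_zero_iff, PiLp.norm_single, Real.norm_eq_abs]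
    exact hs_abs i
  set x : ℕ → Metric.closedBall (0 : EuclideanSpace ℝ (Fin n)) R :=
    fun i => ⟨EuclideanSpace.single i0 (s i), hmem i⟩ with hx
  have hxd : ∀ i < N, dist (x i) (x (i + 1)) ≤ 2 * R / N := by
    intro i hi
    rw [Subtype.dist_eq, hx]
    simp only
    rw [PiLp.dist_single_same, Real.dist_eq, hs_val i hi.le, hs_val (i + 1) hi]
    rw [abs_sub_comm]
    have : -R + 2 * R / N * ((i + 1 : ℕ) : ℝ) - (-R + 2 * R / N * (i : ℝ)) = 2 * R / N := by
      push_cast; ring
    rw [this, abs_of_nonneg (by positivity)]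
  obtain ⟨M, hM0, hM⟩ := exists_fine c F N x (δ := ε / 8) (by positivity)
  have hMpos : (0 : ℝ) < M := by exact_mod_cast hM0
  set tt : ℕ → unitInterval := fun j => Set.projIcc 0 1 zero_le_one ((j : ℝ) / M) with htt
  have htt_mono : Monotone tt := by
    intro a b hab
    have : (a : ℝ) ≤ b := by exact_mod_cast hab
    have h2 : (a : ℝ) / M ≤ (b : ℝ) / M := by gcongr
    exact Set.monotone_projIcc (zero_le_one (α := ℝ)) h2
  have htt0 : tt 0 = 0 := by
    rw [htt]
    simp only [Nat.cast_zero, zero_div]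
    exact Set.projIcc_left (zero_le_one (α := ℝ))
  have httM : tt M = 1 := by
    rw [htt]
    simp only [div_self hMpos.ne']
    exact Set.projIcc_right (zero_le_one (α := ℝ))
  have htt_d : ∀ j, |(tt j : ℝ) - tt (j + 1)| ≤ 1 / M := by
    intro j
    refine (Set.abs_projIcc_sub_projIcc zero_le_one).trans ?_
    rw [abs_sub_comm]
    have : ((j + 1 : ℕ) : ℝ) / M - (j : ℝ) / M = 1 / M := by push_cast; ring
    rw [this, abs_of_nonneg (by positivity)]
  set P : ℕ → ℕ → Disc := fun j i => F.map (tt j) (x i) with hP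
  have key := stokes (D := D) hε hε1 hκ0 hκ M N P
    (fun j _ i hi => by
      have h1 := (F.lip (tt j)).dist_le_mul (x i) (x (i + 1))
      exact h1.trans (mul_le_mul_of_nonneg_left (hxd i hi) hc0))
    (fun j _ i hi => hM (tt j) (tt (j + 1)) (htt_d j) i hi)
    (fun i _ => by
      have h1 := eVariationOn.sum_le (f := fun t => F.map t (x i)) (s := Set.univ) (n := M)
        htt_mono (fun _ => Set.mem_univ _)
      have h2 : eVariationOn (fun t => F.map t (x i)) Set.univ ≤ F.length :=
        le_iSup (fun x => eVariationOn (fun t => F.map t x) Set.univ) (x i)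
      have h3 := h1.trans h2
      have h4 : ∑ j ∈ Finset.range M, edist (F.map (tt (j + 1)) (x i)) (F.map (tt j) (x i)) =
          ENNReal.ofReal (∑ j ∈ Finset.range M, dist (P j i) (P (j + 1) i)) := by
        rw [ENNReal.ofReal_sum_of_nonneg (fun _ _ => dist_nonneg)]
        apply Finset.sum_congr rfl
        intro j _
        rw [edist_dist, dist_comm]
      rw [h4] at h3
      exact (ENNReal.ofReal_le_iff_le_toReal hfin).1 h3)
  have hF0 : ∑ i ∈ Finset.range N, aa ε (P 0 i).z (P 0 (i + 1)).z = T * (2 * R) := by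
    have h1 : ∀ i ∈ Finset.range N, aa ε (P 0 i).z (P 0 (i + 1)).z = T * (2 * R / N) := by
      intro i hi
      rw [Finset.mem_range] at hi
      have h2 : ∀ i, (P 0 i).z = pt 1 (s i) := by
        intro i
        rw [hP]
        simp only [htt0, F.source]
        simp [wind, hx]
      have h3 : s (i + 1) - s i = 2 * R / N := by
        rw [hs_val i hi.le, hs_val (i + 1) hi]; push_cast; ring
      rw [h2, h2, aa_core, h3, hW]
      · rw [h3]; positivity
      · rw [h3, div_le_one hNpos]; exact hN1.le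
    rw [Finset.sum_congr rfl h1, Finset.sum_const, Finset.card_range, nsmul_eq_mul]
    field_simp
  have hFM : ∑ i ∈ Finset.range N, aa ε (P M i).z (P M (i + 1)).z = 0 := by
    apply Finset.sum_eq_zero
    intro i _
    rw [hP]
    simp only [httM, F.target]
    simp [aa, centre]
  rw [hF0, hFM, sub_zero, hW, abs_of_nonneg (by positivity)] at key
  have hκN : κ * N = c * (2 * R) := by rw [hκdef]; field_simp
  have : 4 * κ * N * D = 8 * c * R * D := by
    calc 4 * κ * N * D = 4 * (κ * N) * D := by ring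
      _ = 8 * c * R * D := by rw [hκN]; ring
  rw [this] at key
  linarith

theorem diam_ge {n : ℕ} (hn : 1 ≤ n) {R : ℝ} (hR : 0 < R) (c : ℝ≥0) :
    ENNReal.ofReal R ≤ lipDiam c (Metric.closedBall (0 : EuclideanSpace ℝ (Fin n)) R) Disc := by
  have h1 : ENNReal.ofReal R ≤ lipDist c (wind (⟨0, hn⟩ : Fin n) R)
      (fun _ : Metric.closedBall (0 : EuclideanSpace ℝ (Fin n)) R => centre) :=
    le_iInf fun F => length_ge _ hR c F
  refine h1.trans ?_
  unfold lipDiam
  refine le_iSup_of_le (wind (⟨0, hn⟩ : Fin n) R) (le_iSup_of_le (fun _ => centre)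
    (le_iSup_of_le (wind_lip _ R) (le_iSup_of_le ?_ le_rfl)))
  exact LipschitzWith.const' _

end Pool.Agent.Helper39.DiscM
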