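import Mathlib

/-!
The closed unit disc of the complex plane with the length metric of `|du| + |dθ| / u`
in polar coordinates.
-/

open scoped ENNReal NNReal Real
open InnerProductGeometry

namespace Pool.Agent.Helper39.DiscM

/-- the two-case part of the distance -/
noncomputable def gap (a c w : ℝ) : ℝ := min (2 * min a c) (w / max a c)

lemma gap_nonneg {a c w : ℝ} (ha : 0 ≤ a) (hc : 0 ≤ c) (hw : 0 ≤ w) : 0 ≤ gap a c w := by
  unfold gap
  have := le_min ha hc
  have : 0 ≤ max a c := ha.trans (le_max_left _ _)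
  positivity

lemma gap_le_left (a c w : ℝ) : gap a c w ≤ 2 * min a c := min_le_left _ _
lemma gap_le_right (a c w : ℝ) : gap a c w ≤ w / max a c := min_le_right _ _

lemma gap_tri {a b c w x y : ℝ} (ha : 0 ≤ a) (hb : 0 ≤ b) (hc : 0 ≤ c) (hx : 0 ≤ x) (hy : 0 ≤ y)
    (hw : w ≤ x + y) :
    |a - c| + gap a c w ≤ |a - b| + gap a b x + (|b - c| + gap b c y) := by
  have e : ∀ s t : ℝ, |s - t| + 2 * min s t = s + t := by
    intro s t
    rcases le_total s t with h | h
    · rw [min_eq_left h, abs_of_nonpos (by linarith)]; ring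
    · rw [min_eq_right h, abs_of_nonneg (by linarith)]; ring
  have e2 : ∀ s t : ℝ, |s - t| = 2 * max s t - s - t := by
    intro s t
    rcases le_total s t with h | h
    · rw [max_eq_right h, abs_of_nonpos (by linarith)]; ring
    · rw [max_eq_left h, abs_of_nonneg (by linarith)]; ring
  have hL : |a - c| + gap a c w ≤ a + c := by
    have := gap_le_left a c w
    have := e a c
    linarith
  have g1 := gap_nonneg ha hb hx
  have g2 := gap_nonneg hb hc hy
  have t1 : |a - c| ≤ |a - b| + |b - c| := abs_sub_le _ _ _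
  have hbc : c ≤ b + |b - c| := by have := neg_abs_le (b - c); linarith
  have hab : a ≤ b + |a - b| := by have := le_abs_self (a - b); linarith
  rcases min_choice (2 * min a b) (x / max a b) with h1 | h1
  · have : gap a b x = 2 * min a b := h1
    have := e a b
    linarith
  rcases min_choice (2 * min b c) (y / max b c) with h2 | h2
  · have : gap b c y = 2 * min b c := h2
    have := e b c
    linarith
  have h1' : gap a b x = x / max a b := h1
  have h2' : gap b c y = y / max b c := h2
  rw [h1', h2']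
  rw [h1'] at g1
  rw [h2'] at g2
  rcases ha.eq_or_lt with ha0 | ha0
  · have : gap a c w ≤ 0 := by
      have := gap_le_left a c w
      rw [← ha0, min_eq_left hc] at this
      rw [← ha0]; linarith
    linarith
  rcases hc.eq_or_lt with hc0 | hc0
  · have : gap a c w ≤ 0 := by
      have := gap_le_left a c w
      rw [← hc0, min_eq_right ha] at this
      rw [← hc0]; linarith
    linarith
  set M := max a c with hM
  have hMpos : 0 < M := lt_max_of_lt_left ha0
  have haM : a ≤ M := le_max_left _ _
  have hcM : c ≤ M := le_max_right _ _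
  rcases le_total b M with hbM | hbM
  · have p1 : x / M ≤ x / max a b :=
      div_le_div_of_nonneg_left hx (lt_max_of_lt_left ha0) (max_le haM hbM)
    have p2 : y / M ≤ y / max b c :=
      div_le_div_of_nonneg_left hy (lt_max_of_lt_right hc0) (max_le hbM hcM)
    have p3 : gap a c w ≤ w / M := gap_le_right _ _ _
    have p4 : w / M ≤ (x + y) / M := by gcongr
    rw [add_div] at p4
    linarith
  · have hbpos : 0 < b := lt_of_lt_of_le hMpos hbM
    rw [max_eq_right (haM.trans hbM), max_eq_left (hcM.trans hbM)]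
    have q1 : |a - b| = b - a := by rw [abs_sub_comm]; exact abs_of_nonneg (by linarith)
    have q2 : |b - c| = b - c := abs_of_nonneg (by linarith)
    rw [q1, q2]
    have q3 : |a - c| = 2 * M - a - c := e2 a c
    rw [q3]
    have q4 : x / b + y / b = (x + y) / b := (add_div _ _ _).symm
    suffices h : 2 * M + gap a c w ≤ 2 * b + (x + y) / b by linarith
    rcases le_total (x + y) (2 * M * b) with hΔ | hΔ
    · have p3 : gap a c w ≤ w / M := gap_le_right _ _ _
      have p4 : w / M ≤ (x + y) / M := by gcongr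
      have p5 : (x + y) / M - (x + y) / b ≤ 2 * (b - M) := by
        have : (x + y) / M - (x + y) / b = (x + y) * (b - M) / (M * b) := by field_simp
        rw [this, div_le_iff₀ (by positivity)]
        nlinarith
      linarith
    · have p3 := gap_le_left a c w
      have p5 : 2 * M ≤ (x + y) / b := by rw [le_div_iff₀ hbpos]; exact hΔ
      have p6 : min a c ≤ M := (min_le_left _ _).trans haM
      linarith

/-- the distance function on `ℂ` -/
noncomputable def dd (z w : ℂ) : ℝ := |‖z‖ - ‖w‖| + gap ‖z‖ ‖w‖ (angle z w)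

lemma dd_self (z : ℂ) : dd z z = 0 := by
  unfold dd gap
  by_cases h : z = 0
  · subst h; simp
  · rw [angle_self h]; simp

lemma dd_comm (z w : ℂ) : dd z w = dd w z := by
  unfold dd gap
  rw [abs_sub_comm, angle_comm, min_comm ‖z‖, max_comm ‖z‖]

lemma dd_tri (x y z : ℂ) : dd x z ≤ dd x y + dd y z :=
  gap_tri (norm_nonneg _) (norm_nonneg _) (norm_nonneg _) (angle_nonneg _ _) (angle_nonneg _ _)
    (angle_le_angle_add_angle _ _ _)

lemma dd_nonneg (z w : ℂ) : 0 ≤ dd z w :=
  add_nonneg (abs_nonneg _) (gap_nonneg (norm_nonneg _) (norm_nonneg _) (angle_nonneg _ _))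

lemma eq_of_dd {z w : ℂ} (h : dd z w = 0) : z = w := by
  unfold dd at h
  have h1 := abs_nonneg (‖z‖ - ‖w‖)
  have h2 := gap_nonneg (norm_nonneg z) (norm_nonneg w) (angle_nonneg z w)
  have h3 : |‖z‖ - ‖w‖| = 0 := by linarith
  have h4 : gap ‖z‖ ‖w‖ (angle z w) = 0 := by linarith
  rw [abs_eq_zero, sub_eq_zero] at h3
  by_cases hz : z = 0
  · subst hz
    rw [norm_zero] at h3
    exact (norm_eq_zero.1 h3.symm).symm
  have hz' : 0 < ‖z‖ := norm_pos_iff.2 hz
  unfold gap at h4
  rw [← h3, min_self, max_self] at h4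
  have h5 : angle z w / ‖z‖ = 0 := by
    rcases min_choice (2 * ‖z‖) (angle z w / ‖z‖) with h5 | h5
    · rw [h5] at h4; linarith
    · rwa [h5] at h4
  have h6 : angle z w = 0 := by
    rcases div_eq_zero_iff.1 h5 with h | h
    · exact h
    · exact absurd h hz'.ne'
  obtain ⟨-, r, hr, rfl⟩ := angle_eq_zero_iff.1 h6
  rw [norm_smul, Real.norm_of_nonneg hr.le] at h3
  have : r = 1 := by
    have h7 : r * ‖z‖ = 1 * ‖z‖ := by linarith
    exact mul_right_cancel₀ hz'.ne' h7
  rw [this, one_smul]

/-- the closed unit disc as a type -/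
structure Disc where
  /-- the underlying complex number -/
  z : ℂ
  le : ‖z‖ ≤ 1

@[ext] lemma Disc.ext' {p q : Disc} (h : p.z = q.z) : p = q := by
  cases p; cases q; simp_all

noncomputable instance : MetricSpace Disc where
  dist p q := dd p.z q.z
  dist_self p := dd_self _
  dist_comm p q := dd_comm _ _
  dist_triangle p q r := dd_tri _ _ _
  eq_of_dist_eq_zero h := Disc.ext' (eq_of_dd h)

lemma dist_def (p q : Disc) : dist p q = dd p.z q.z := rfl

/-- the map from the usual disc -/
def ofBall (z : Metric.closedBall (0 : ℂ) 1) : Disc := ⟨z, mem_closedBall_zero_iff.1 z.2⟩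

lemma dd_le (z w : ℂ) : dd z w ≤ ‖z‖ + ‖w‖ := by
  unfold dd
  have h1 := gap_le_left ‖z‖ ‖w‖ (angle z w)
  rcases le_total ‖z‖ ‖w‖ with h | h
  · rw [min_eq_left h] at h1
    rw [abs_of_nonpos (by linarith)]; linarith
  · rw [min_eq_right h] at h1
    rw [abs_of_nonneg (by linarith)]; linarith

lemma continuous_ofBall : Continuous ofBall := by
  rw [continuous_iff_continuousAt]
  intro z0
  rw [ContinuousAt, tendsto_iff_dist_tendsto_zero]
  have key : Filter.Tendsto (fun z : ℂ => dd z (z0 : ℂ)) (nhds (z0 : ℂ)) (nhds 0) := by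
    by_cases h0 : (z0 : ℂ) = 0
    · rw [h0]
      have h1 : Filter.Tendsto (fun z : ℂ => ‖z‖ + ‖(0 : ℂ)‖) (nhds 0) (nhds 0) := by
        have : Continuous (fun z : ℂ => ‖z‖ + ‖(0 : ℂ)‖) := by fun_prop
        simpa using this.tendsto (0 : ℂ)
      exact squeeze_zero (fun z => dd_nonneg _ _) (fun z => dd_le _ _) h1
    · have h1 : Filter.Tendsto (fun z : ℂ => |‖z‖ - ‖(z0 : ℂ)‖| + angle z z0 / ‖(z0 : ℂ)‖)
          (nhds (z0 : ℂ)) (nhds 0) := by
        have c1 : ContinuousAt (fun z : ℂ => angle z (z0 : ℂ)) (z0 : ℂ) := by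
          have := continuousAt_angle (x := ((z0 : ℂ), (z0 : ℂ))) h0 h0
          exact this.comp (f := fun z : ℂ => (z, (z0 : ℂ))) (by fun_prop)
        have c2 : ContinuousAt (fun z : ℂ => |‖z‖ - ‖(z0 : ℂ)‖| + angle z z0 / ‖(z0 : ℂ)‖)
            (z0 : ℂ) := by
          apply ContinuousAt.add
          · fun_prop
          · exact c1.div_const _
        have := c2.tendsto
        simpa [angle_self h0] using this
      refine squeeze_zero (fun z => dd_nonneg _ _) (fun z => ?_) h1
      unfold dd
      have := gap_le_right ‖z‖ ‖(z0 : ℂ)‖ (angle z z0)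
      have h2 : angle z (z0 : ℂ) / max ‖z‖ ‖(z0 : ℂ)‖ ≤ angle z (z0 : ℂ) / ‖(z0 : ℂ)‖ :=
        div_le_div_of_nonneg_left (angle_nonneg _ _) (norm_pos_iff.2 h0) (le_max_right _ _)
      linarith
  exact key.comp continuous_subtype_val.continuousAt

/-- the disc as a homeomorphic image of the usual disc -/
noncomputable def ballEquiv : Metric.closedBall (0 : ℂ) 1 ≃ Disc where
  toFun := ofBall
  invFun p := ⟨p.z, mem_closedBall_zero_iff.2 p.le⟩
  left_inv z := rfl
  right_inv p := rfl

/-- homeomorphism with the usual disc -/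
noncomputable def ballHomeo : Metric.closedBall (0 : ℂ) 1 ≃ₜ Disc :=
  haveI : CompactSpace (Metric.closedBall (0 : ℂ) 1) :=
    isCompact_iff_compactSpace.1 (isCompact_closedBall _ _)
  Continuous.homeoOfEquivCompactToT2 (f := ballEquiv) continuous_ofBall

instance : CompactSpace Disc :=
  haveI : CompactSpace (Metric.closedBall (0 : ℂ) 1) :=
    isCompact_iff_compactSpace.1 (isCompact_closedBall _ _)
  ballHomeo.compactSpace

instance : ContractibleSpace Disc := by
  have : ContractibleSpace (Metric.closedBall (0 : ℂ) 1) :=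
    (convex_closedBall (0 : ℂ) 1).contractibleSpace ⟨0, by simp⟩
  exact ballHomeo.symm.contractibleSpace

end Pool.Agent.Helper39.DiscM
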