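import Mathlib

set_option autoImplicit false

namespace Pool.Agent.Helper39.Renorm

open scoped BigOperators

variable {X : Type} [NormedAddCommGroup X] [NormedSpace ℝ X]

/-- quantitative step: commuting contractions `P`, `Q` with `P z ≈ x`, `Q z ≈ y`, `x + y = 2 z`. -/
theorem quant (P Q : X →L[ℝ] X) (hPQ : Commute P Q) (hP : ‖P‖ ≤ 1) (hQ : ‖Q‖ ≤ 1)
    (x y z : X) (hz : x + y = (2 : ℝ) • z) (ε : ℝ) (hε : 0 < ε)
    (hx : ‖P z - x‖ ≤ ε) (hy : ‖Q z - y‖ ≤ ε) (N : ℕ) :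
    (N : ℝ) * ‖x - z‖ ≤ ‖z‖ + N * ε + N * (2 ^ N * (8 * ε)) := by
  set u := x - z with hu
  by_cases hu0 : ‖u‖ = 0
  · rw [hu0, mul_zero]
    have := norm_nonneg z
    positivity
  obtain ⟨f, hf1, hfu⟩ := exists_dual_vector ℝ u hu0
  have hPn : ∀ v : X, ‖P v‖ ≤ ‖v‖ := fun v => by
    calc ‖P v‖ ≤ ‖P‖ * ‖v‖ := P.le_opNorm v
      _ ≤ 1 * ‖v‖ := by gcongr
      _ = ‖v‖ := one_mul _
  have hQn : ∀ v : X, ‖Q v‖ ≤ ‖v‖ := fun v => by
    calc ‖Q v‖ ≤ ‖Q‖ * ‖v‖ := Q.le_opNorm v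
      _ ≤ 1 * ‖v‖ := by gcongr
      _ = ‖v‖ := one_mul _
  have hfn : ∀ v : X, f v ≤ ‖v‖ := fun v => by
    calc f v ≤ ‖f v‖ := le_abs_self _
      _ ≤ ‖f‖ * ‖v‖ := f.le_opNorm v
      _ = ‖v‖ := by rw [hf1, one_mul]
  -- powers
  have hpow : ∀ i j : ℕ, ∀ v : X, ‖(P ^ i * Q ^ j) v‖ ≤ ‖v‖ := by
    intro i j v
    have h1 : ∀ i : ℕ, ∀ v : X, ‖(P ^ i) v‖ ≤ ‖v‖ := by
      intro i
      induction i with
      | zero => intro v; simp
      | succ n ih =>
        intro v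
        rw [pow_succ]
        calc ‖(P ^ n * P) v‖ = ‖(P ^ n) (P v)‖ := rfl
          _ ≤ ‖P v‖ := ih _
          _ ≤ ‖v‖ := hPn _
    have h2 : ∀ i : ℕ, ∀ v : X, ‖(Q ^ i) v‖ ≤ ‖v‖ := by
      intro i
      induction i with
      | zero => intro v; simp
      | succ n ih =>
        intro v
        rw [pow_succ]
        calc ‖(Q ^ n * Q) v‖ = ‖(Q ^ n) (Q v)‖ := rfl
          _ ≤ ‖Q v‖ := ih _
          _ ≤ ‖v‖ := hQn _
    calc ‖(P ^ i * Q ^ j) v‖ = ‖(P ^ i) ((Q ^ j) v)‖ := rfl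
      _ ≤ ‖(Q ^ j) v‖ := h1 _ _
      _ ≤ ‖v‖ := h2 _ _
  -- the defect of u
  set η := 8 * ε with hη
  have hη0 : 0 < η := by positivity
  have hD : ‖P u + Q u - (2 : ℝ) • u‖ ≤ η := by
    set e1 := x - P z with he1
    have he1n : ‖e1‖ ≤ ε := by rw [he1, norm_sub_rev]; exact hx
    set w := P z + Q z - (2 : ℝ) • z with hw
    have hwn : ‖w‖ ≤ 2 * ε := by
      have : w = (P z - x) + (Q z - y) := by
        rw [hw, ← hz]; abel
      rw [this]
      calc _ ≤ ‖P z - x‖ + ‖Q z - y‖ := norm_add_le _ _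
        _ ≤ 2 * ε := by linarith
    have hcomm : ∀ v : X, P (Q v) = Q (P v) := fun v => by
      have := congrArg (fun A : X →L[ℝ] X => A v) hPQ.eq
      simpa using this
    have hu' : u = (P z - z) + e1 := by rw [hu, he1]; abel
    have key : P u + Q u - (2 : ℝ) • u = (P w - w) + (P e1 + Q e1 - (2 : ℝ) • e1) := by
      rw [hu', hw]
      simp only [map_add, map_sub, map_smul, hcomm]
      module
    rw [key]
    have h1 : ‖P w - w‖ ≤ 4 * ε := by
      calc ‖P w - w‖ ≤ ‖P w‖ + ‖w‖ := norm_sub_le _ _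
        _ ≤ ‖w‖ + ‖w‖ := by gcongr; exact hPn _
        _ ≤ 4 * ε := by linarith
    have h2 : ‖P e1 + Q e1 - (2 : ℝ) • e1‖ ≤ 4 * ε := by
      calc ‖P e1 + Q e1 - (2 : ℝ) • e1‖ ≤ ‖P e1 + Q e1‖ + ‖(2 : ℝ) • e1‖ := norm_sub_le _ _
        _ ≤ (‖P e1‖ + ‖Q e1‖) + 2 * ‖e1‖ := by
          gcongr
          · exact norm_add_le _ _
          · rw [norm_smul]; simp
        _ ≤ (‖e1‖ + ‖e1‖) + 2 * ‖e1‖ := by
          gcongr
          · exact hPn _
          · exact hQn _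
        _ ≤ 4 * ε := by linarith
    calc _ ≤ ‖P w - w‖ + ‖P e1 + Q e1 - (2 : ℝ) • e1‖ := norm_add_le _ _
      _ ≤ η := by rw [hη]; linarith
  -- main lower bound
  have hlow : ∀ n i j : ℕ, i + j = n → ‖u‖ - (2 ^ n - 1) * η ≤ f ((P ^ i * Q ^ j) u) := by
    intro n
    induction n with
    | zero =>
      intro i j hij
      obtain ⟨rfl, rfl⟩ : i = 0 ∧ j = 0 := by omega
      simp
      rw [hfu]; simp
    | succ n ih =>
      intro i j hij
      -- generic one-step bound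
      have step : ∀ i j : ℕ, i + j = n →
          2 * f ((P ^ i * Q ^ j) u) - η ≤ f ((P ^ (i+1) * Q ^ j) u) + f ((P ^ i * Q ^ (j+1)) u) := by
        intro i j _
        have e : (P ^ (i+1) * Q ^ j) u + (P ^ i * Q ^ (j+1)) u
            = (2 : ℝ) • (P ^ i * Q ^ j) u + (P ^ i * Q ^ j) (P u + Q u - (2 : ℝ) • u) := by
          have c1 : P ^ (i+1) * Q ^ j = P ^ i * Q ^ j * P := by
            rw [pow_succ, mul_assoc, mul_assoc, (hPQ.pow_right j).eq]
          have c2 : P ^ i * Q ^ (j+1) = P ^ i * Q ^ j * Q := by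
            rw [pow_succ, mul_assoc]
          rw [c1, c2]
          have a1 : (P ^ i * Q ^ j * P) u = (P ^ i * Q ^ j) (P u) := rfl
          have a2 : (P ^ i * Q ^ j * Q) u = (P ^ i * Q ^ j) (Q u) := rfl
          rw [a1, a2, map_sub _ (P u + Q u) ((2 : ℝ) • u), map_add _ (P u) (Q u),
            map_smul _ (2 : ℝ) u]
          module
        have e2 := congrArg f e
        rw [map_add, map_add, map_smul, smul_eq_mul] at e2
        have e3 : -η ≤ f ((P ^ i * Q ^ j) (P u + Q u - (2 : ℝ) • u)) := by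
          have := hfn (-(P ^ i * Q ^ j) (P u + Q u - (2 : ℝ) • u))
          rw [map_neg, norm_neg] at this
          have := hpow i j (P u + Q u - (2 : ℝ) • u)
          linarith
        linarith
      have hub : ∀ i j : ℕ, f ((P ^ i * Q ^ j) u) ≤ ‖u‖ := fun i j =>
        (hfn _).trans (hpow i j u)
      have h2n : (1:ℝ) ≤ 2 ^ n := one_le_pow₀ (by norm_num)
      rcases Nat.eq_zero_or_pos i with hi | hi
      · obtain ⟨j', rfl⟩ : ∃ j', j = j' + 1 := ⟨j - 1, by omega⟩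
        subst hi
        have h1 := step 0 j' (by omega)
        have h2 := ih 0 j' (by omega)
        have h3 := hub (0+1) j'
        rw [pow_succ]
        nlinarith
      · obtain ⟨i', rfl⟩ : ∃ i', i = i' + 1 := ⟨i - 1, by omega⟩
        have h1 := step i' j (by omega)
        have h2 := ih i' j (by omega)
        have h3 := hub i' (j+1)
        rw [pow_succ]
        nlinarith
  -- telescoping
  have hgeom := hPQ.mul_geom_sum₂ N
  have hgeom' : (∑ i ∈ Finset.range N, P ^ i * Q ^ (N - 1 - i)) * (P - Q) = P ^ N - Q ^ N := by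
    have := hPQ.mul_geom_sum₂ N
    have hc : Commute (P - Q) (∑ i ∈ Finset.range N, P ^ i * Q ^ (N - 1 - i)) := by
      apply Commute.sum_right
      intro i _
      apply Commute.mul_right
      · exact ((Commute.refl P).sub_left hPQ.symm).pow_right i
      · exact (hPQ.sub_left (Commute.refl Q)).pow_right _
    rw [← hc.eq]; exact this
  have hz2 : ‖(P - Q) z - (2 : ℝ) • u‖ ≤ 2 * ε := by
    have : (P - Q) z - (2 : ℝ) • u = (P z - x) - (Q z - y) := by
      have hy' : y = (2 : ℝ) • z - x := by rw [← hz]; abel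
      rw [hu, hy', _root_.sub_apply]
      module
    rw [this]
    calc _ ≤ ‖P z - x‖ + ‖Q z - y‖ := norm_sub_le _ _
      _ ≤ 2 * ε := by linarith
  have hupper : f ((∑ i ∈ Finset.range N, P ^ i * Q ^ (N - 1 - i)) ((2 : ℝ) • u))
      ≤ 2 * ‖z‖ + N * (2 * ε) := by
    set G := (∑ i ∈ Finset.range N, P ^ i * Q ^ (N - 1 - i)) with hG
    have hGn : ∀ v : X, ‖G v‖ ≤ N * ‖v‖ := by
      intro v
      rw [hG, _root_.sum_apply]
      calc _ ≤ ∑ i ∈ Finset.range N, ‖(P ^ i * Q ^ (N - 1 - i)) v‖ := norm_sum_le _ _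
        _ ≤ ∑ i ∈ Finset.range N, ‖v‖ := Finset.sum_le_sum (fun i _ => hpow _ _ _)
        _ = N * ‖v‖ := by simp
    have e1 : G ((2 : ℝ) • u) = (P ^ N - Q ^ N) z - G ((P - Q) z - (2 : ℝ) • u) := by
      rw [map_sub, ← hgeom']
      have : (G * (P - Q)) z = G ((P - Q) z) := rfl
      rw [this]; abel
    rw [e1]
    have b1 : ‖(P ^ N - Q ^ N) z‖ ≤ 2 * ‖z‖ := by
      rw [_root_.sub_apply]
      have t1 := hpow N 0 z
      have t2 := hpow 0 N z
      simp only [pow_zero, mul_one, one_mul] at t1 t2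
      calc _ ≤ ‖(P ^ N) z‖ + ‖(Q ^ N) z‖ := norm_sub_le _ _
        _ ≤ 2 * ‖z‖ := by linarith
    have b2 : ‖G ((P - Q) z - (2 : ℝ) • u)‖ ≤ N * (2 * ε) :=
      (hGn _).trans (by gcongr)
    calc _ ≤ ‖(P ^ N - Q ^ N) z - G ((P - Q) z - (2 : ℝ) • u)‖ := hfn _
      _ ≤ ‖(P ^ N - Q ^ N) z‖ + ‖G ((P - Q) z - (2 : ℝ) • u)‖ := norm_sub_le _ _
      _ ≤ _ := by linarith
  have hlower : N * (2 * (‖u‖ - 2 ^ N * η))
      ≤ f ((∑ i ∈ Finset.range N, P ^ i * Q ^ (N - 1 - i)) ((2 : ℝ) • u)) := by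
    rw [map_smul, map_smul, smul_eq_mul, _root_.sum_apply, map_sum]
    have : ∑ i ∈ Finset.range N, (‖u‖ - 2 ^ N * η)
        ≤ ∑ i ∈ Finset.range N, f ((P ^ i * Q ^ (N - 1 - i)) u) := by
      apply Finset.sum_le_sum
      intro i hi
      rw [Finset.mem_range] at hi
      have h1 := hlow (N - 1) i (N - 1 - i) (by omega)
      have h2 : (2:ℝ) ^ (N - 1) ≤ 2 ^ N := pow_le_pow_right₀ (by norm_num) (by omega)
      nlinarith
    rw [Finset.sum_const, Finset.card_range, nsmul_eq_mul] at this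
    linarith
  nlinarith [hlower.trans hupper]

end Pool.Agent.Helper39.Renorm
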