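import Mathlib
import Pool.Agent.Helper39.RenormA

set_option autoImplicit false

namespace Pool.Agent.Helper39.Renorm

open scoped BigOperators

variable {X : Type} [NormedAddCommGroup X] [NormedSpace ℝ X] (T : X ≃ₗᵢ[ℝ] X)

/-- powers of `T` as continuous linear maps -/
noncomputable def pw (n : ℤ) : X →L[ℝ] X :=
  ((T ^ n : X ≃ₗᵢ[ℝ] X).toContinuousLinearEquiv : X →L[ℝ] X)

theorem pw_apply (n : ℤ) (x : X) : pw T n x = (T ^ n) x := rfl

theorem pw_mul (n m : ℤ) : pw T n * pw T m = pw T (n + m) := by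
  ext x
  show (T ^ n) ((T ^ m) x) = (T ^ (n + m)) x
  rw [zpow_add]; rfl

theorem pw_comm (n m : ℤ) : Commute (pw T n) (pw T m) := by
  show pw T n * pw T m = pw T m * pw T n
  rw [pw_mul, pw_mul, add_comm]

theorem pw_norm (n : ℤ) : ‖pw T n‖ ≤ 1 := by
  apply ContinuousLinearMap.opNorm_le_bound _ zero_le_one
  intro x
  rw [pw_apply, LinearIsometryEquiv.norm_map, one_mul]

/-- the set `{± T^n}` -/
def SS : Set (X →L[ℝ] X) := {A | ∃ n : ℤ, A = pw T n ∨ A = - pw T n}

theorem convex_comm (Q : X →L[ℝ] X) : Convex ℝ {P : X →L[ℝ] X | Commute P Q} := by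
  intro P hP P' hP' a b _ _ _
  show Commute (a • P + b • P') Q
  exact (Commute.smul_left hP a).add_left (Commute.smul_left hP' b)

theorem comm_hull_aux (P : X →L[ℝ] X) (hP : P ∈ convexHull ℝ (SS T)) (n : ℤ) :
    Commute P (pw T n) := by
  have hsub : SS T ⊆ {P : X →L[ℝ] X | Commute P (pw T n)} := by
    rintro A ⟨k, hk⟩
    show Commute A (pw T n)
    rcases hk with hk | hk
    · rw [hk]; exact pw_comm T k n
    · rw [hk]; exact Commute.neg_left (pw_comm T k n)
  exact convexHull_min hsub (convex_comm (pw T n)) hP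

theorem comm_hull (P : X →L[ℝ] X) (hP : P ∈ convexHull ℝ (SS T))
    (Q : X →L[ℝ] X) (hQ : Q ∈ convexHull ℝ (SS T)) : Commute P Q := by
  have hsub : SS T ⊆ {Q : X →L[ℝ] X | Commute Q P} := by
    rintro A ⟨k, hk⟩
    show Commute A P
    have h3 : Commute (pw T k) P := (comm_hull_aux T P hP k).symm
    rcases hk with hk | hk
    · rw [hk]; exact h3
    · rw [hk]; exact Commute.neg_left h3
  have h4 : Commute Q P := convexHull_min hsub (convex_comm P) hQ
  exact h4.symm

theorem norm_hull (P : X →L[ℝ] X) (hP : P ∈ convexHull ℝ (SS T)) : ‖P‖ ≤ 1 := by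
  have : convexHull ℝ (SS T) ⊆ Metric.closedBall 0 1 := by
    apply convexHull_min _ (convex_closedBall _ _)
    rintro A ⟨k, rfl | rfl⟩
    · simpa using pw_norm T k
    · simpa using pw_norm T k
  simpa using this hP

/-- the invariant seminorm attached to a functional -/
noncomputable def Nf (f : StrongDual ℝ X) (x : X) : ℝ := ⨆ n : ℤ, |f ((T ^ n) x)|

theorem term_le (f : StrongDual ℝ X) (x : X) (n : ℤ) : |f ((T ^ n) x)| ≤ ‖f‖ * ‖x‖ := by
  have := f.le_opNorm ((T ^ n) x)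
  rwa [LinearIsometryEquiv.norm_map] at this

theorem bdd (f : StrongDual ℝ X) (x : X) :
    BddAbove (Set.range fun n : ℤ => |f ((T ^ n) x)|) :=
  ⟨‖f‖ * ‖x‖, by rintro _ ⟨n, rfl⟩; exact term_le T f x n⟩

theorem le_Nf (f : StrongDual ℝ X) (x : X) (n : ℤ) : |f ((T ^ n) x)| ≤ Nf T f x :=
  le_ciSup (bdd T f x) n

theorem Nf_nonneg (f : StrongDual ℝ X) (x : X) : 0 ≤ Nf T f x :=
  (abs_nonneg _).trans (le_Nf T f x 0)

theorem Nf_le (f : StrongDual ℝ X) (x : X) : Nf T f x ≤ ‖f‖ * ‖x‖ :=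
  ciSup_le (term_le T f x)

theorem Nf_add (f : StrongDual ℝ X) (x y : X) : Nf T f (x + y) ≤ Nf T f x + Nf T f y := by
  apply ciSup_le
  intro n
  rw [map_add, map_add]
  calc _ ≤ |f ((T ^ n) x)| + |f ((T ^ n) y)| := abs_add_le _ _
    _ ≤ _ := add_le_add (le_Nf T f x n) (le_Nf T f y n)

theorem Nf_smul (f : StrongDual ℝ X) (r : ℝ) (x : X) : Nf T f (r • x) = |r| * Nf T f x := by
  unfold Nf
  rw [Real.mul_iSup_of_nonneg (abs_nonneg r)]
  congr 1
  ext n
  rw [map_smul, map_smul, smul_eq_mul, abs_mul]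

theorem Nf_fsmul (f : StrongDual ℝ X) (r : ℝ) (x : X) : Nf T (r • f) x = |r| * Nf T f x := by
  unfold Nf
  rw [Real.mul_iSup_of_nonneg (abs_nonneg r)]
  congr 1
  ext n
  show |r * f ((T ^ n) x)| = _
  rw [abs_mul]

theorem Nf_inv (f : StrongDual ℝ X) (x : X) : Nf T f (T x) = Nf T f x := by
  unfold Nf
  have h : ∀ n : ℤ, |f ((T ^ n) (T x))| = |f ((T ^ (n + 1)) x)| := by
    intro n
    rw [zpow_add_one]; rfl
  simp_rw [h]
  exact (Equiv.addRight (1 : ℤ)).iSup_comp (g := fun n : ℤ => |f ((T ^ n) x)|)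

theorem Nf_sub_abs (f : StrongDual ℝ X) (hf : ‖f‖ ≤ 1) (x y : X) :
    |Nf T f x - Nf T f y| ≤ ‖x - y‖ := by
  have key : ∀ x y : X, Nf T f x - Nf T f y ≤ ‖x - y‖ := by
    intro x y
    have h1 := Nf_add T f y (x - y)
    rw [add_sub_cancel] at h1
    have h2 := Nf_le T f (x - y)
    have h3 : ‖f‖ * ‖x - y‖ ≤ 1 * ‖x - y‖ := by gcongr
    linarith
  rw [abs_le]
  constructor
  · have := key y x
    rw [norm_sub_rev] at this
    linarith
  · exact key x y

/-- Hahn-Banach step. -/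
theorem exists_hull (x z : X) (h : ∀ f : StrongDual ℝ X, Nf T f x ≤ Nf T f z)
    (ε : ℝ) (hε : 0 < ε) : ∃ P ∈ convexHull ℝ (SS T), ‖P z - x‖ ≤ ε := by
  set ev : (X →L[ℝ] X) →ₗ[ℝ] X :=
    { toFun := fun A => A z
      map_add' := fun A B => rfl
      map_smul' := fun r A => rfl } with hev
  have hx : x ∈ closure (convexHull ℝ (ev '' SS T)) := by
    by_contra hx
    obtain ⟨f, u, hfu, hux⟩ := geometric_hahn_banach_closed_point
      ((convex_convexHull ℝ (ev '' SS T)).closure) isClosed_closure hx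
    have hmem : ∀ A ∈ SS T, A z ∈ closure (convexHull ℝ (ev '' SS T)) := by
      intro A hA
      apply subset_closure
      apply subset_convexHull
      exact ⟨A, hA, rfl⟩
    have h1 : Nf T f z ≤ u := by
      apply ciSup_le
      intro n
      rw [abs_le]
      constructor
      · have := hfu _ (hmem (- pw T n) ⟨n, Or.inr rfl⟩)
        have e : (- pw T n) z = - ((T ^ n) z) := rfl
        rw [e, map_neg] at this
        linarith
      · have := hfu _ (hmem (pw T n) ⟨n, Or.inl rfl⟩)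
        have e : (pw T n) z = ((T ^ n) z) := rfl
        rw [e] at this
        exact this.le
    have h2 : f x ≤ Nf T f x := by
      have := le_Nf T f x 0
      rw [zpow_zero] at this
      exact (le_abs_self _).trans this
    have := h f
    linarith
  rw [Metric.mem_closure_iff] at hx
  obtain ⟨b, hb, hxb⟩ := hx ε hε
  rw [← LinearMap.image_convexHull] at hb
  obtain ⟨P, hP, rfl⟩ := hb
  refine ⟨P, hP, ?_⟩
  rw [dist_eq_norm, norm_sub_rev] at hxb
  exact hxb.le

/-- The midpoint is determined: extreme point property. -/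
theorem separate (x y z : X) (hz : x + y = (2 : ℝ) • z)
    (hx : ∀ f : StrongDual ℝ X, Nf T f x ≤ Nf T f z)
    (hy : ∀ f : StrongDual ℝ X, Nf T f y ≤ Nf T f z) : x = z := by
  have main : ∀ N : ℕ, (N : ℝ) * ‖x - z‖ ≤ ‖z‖ := by
    intro N
    have h1 : ∀ ε : ℝ, 0 < ε → (N : ℝ) * ‖x - z‖ ≤ ‖z‖ + ((N : ℝ) + N * 2 ^ N * 8) * ε := by
      intro ε hε
      obtain ⟨P, hP, hPx⟩ := exists_hull T x z hx ε hε
      obtain ⟨Q, hQ, hQy⟩ := exists_hull T y z hy ε hε
      have := quant P Q (comm_hull T P hP Q hQ) (norm_hull T P hP) (norm_hull T Q hQ)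
        x y z hz ε hε hPx hQy N
      linarith
    by_contra hcon
    push Not at hcon
    set C := (N : ℝ) + N * 2 ^ N * 8 with hC
    have hC0 : 0 ≤ C := by positivity
    set gap := (N : ℝ) * ‖x - z‖ - ‖z‖ with hgap
    have hg : 0 < gap := by linarith
    have := h1 (gap / (2 * (C + 1))) (by positivity)
    have h3 : C * (gap / (2 * (C + 1))) ≤ gap / 2 := by
      rw [div_eq_mul_inv, div_eq_mul_inv, mul_inv]
      have : C * (C + 1)⁻¹ ≤ 1 := by
        rw [← div_eq_mul_inv, div_le_one (by positivity)]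
        linarith
      nlinarith
    linarith
  by_contra hne
  have hpos : 0 < ‖x - z‖ := by
    rw [norm_pos_iff, sub_ne_zero]; exact hne
  obtain ⟨N, hN⟩ := exists_nat_gt (‖z‖ / ‖x - z‖)
  rw [div_lt_iff₀ hpos] at hN
  exact absurd (main N) (not_le.mpr hN)

end Pool.Agent.Helper39.Renorm
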