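import Mathlib
import Pool.Agent.Helper39.RenormB

set_option autoImplicit false

namespace Pool.Agent.Helper39.Renorm

open scoped BigOperators

variable {X : Type} [NormedAddCommGroup X] [NormedSpace ℝ X] (T : X ≃ₗᵢ[ℝ] X)

/-- a countable family of functionals whose seminorms are pointwise dense -/
theorem exists_seq [TopologicalSpace.SeparableSpace X] :
    ∃ F : ℕ → StrongDual ℝ X, (∀ k, ‖F k‖ ≤ 1) ∧
      ∀ f : StrongDual ℝ X, ‖f‖ ≤ 1 → ∀ s : Finset X, ∀ ε : ℝ, 0 < ε →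
        ∃ k, ∀ x ∈ s, |Nf T (F k) x - Nf T f x| < ε := by
  obtain ⟨d, hd⟩ := TopologicalSpace.exists_dense_seq X
  let φ : StrongDual ℝ X → (ℕ → ℝ) := fun f i => Nf T f (d i)
  let R : Set (ℕ → ℝ) := φ '' {f | ‖f‖ ≤ 1}
  have hne : Nonempty R := ⟨⟨φ 0, ⟨0, by simp, rfl⟩⟩⟩
  obtain ⟨g, hg⟩ := TopologicalSpace.exists_dense_seq R
  have hch : ∀ k, ∃ f : StrongDual ℝ X, ‖f‖ ≤ 1 ∧ φ f = g k := by
    intro k
    obtain ⟨f, hf, hfk⟩ := (g k).2
    exact ⟨f, hf, hfk⟩
  choose F hF1 hF2 using hch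
  refine ⟨F, hF1, ?_⟩
  intro f hf s ε hε
  -- choose approximants
  have happ : ∀ x : X, ∃ i, ‖x - d i‖ < ε / 3 := by
    intro x
    obtain ⟨i, hi⟩ := hd.exists_dist_lt x (show (0:ℝ) < ε / 3 by positivity)
    exact ⟨i, by rwa [dist_eq_norm] at hi⟩
  choose I hI using happ
  -- open neighbourhood
  let U : Set R := {r | ∀ x ∈ s, |(r : ℕ → ℝ) (I x) - Nf T f (d (I x))| < ε / 3}
  have hU : IsOpen U := by
    have : U = ⋂ x ∈ s, {r : R | |(r : ℕ → ℝ) (I x) - Nf T f (d (I x))| < ε / 3} := by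
      ext r; simp [U]
    rw [this]
    apply isOpen_biInter_finset
    intro x _
    apply isOpen_lt _ continuous_const
    have : Continuous fun r : R => (r : ℕ → ℝ) (I x) :=
      (continuous_apply (I x)).comp continuous_subtype_val
    exact (this.sub continuous_const).abs
  have hUne : (U).Nonempty := by
    refine ⟨⟨φ f, ⟨f, hf, rfl⟩⟩, ?_⟩
    intro x _
    show |Nf T f (d (I x)) - Nf T f (d (I x))| < ε / 3
    simp; positivity
  obtain ⟨k, hk⟩ := hg.exists_mem_open hU hUne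
  refine ⟨k, ?_⟩
  intro x hx
  have h1 : |Nf T (F k) (d (I x)) - Nf T f (d (I x))| < ε / 3 := by
    have := hk x hx
    rw [← hF2 k] at this
    exact this
  have h2 := Nf_sub_abs T (F k) (hF1 k) x (d (I x))
  have h3 := Nf_sub_abs T f hf x (d (I x))
  have h4 := hI x
  rw [abs_lt] at h1 ⊢
  rw [abs_le] at h2 h3
  constructor <;> linarith [h1.1, h1.2, h2.1, h2.2, h3.1, h3.2]

/-- existence of the invariant strictly convex renorming -/
theorem main [TopologicalSpace.SeparableSpace X] :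
    ∃ N : X → ℝ,
      (∀ x y : X, N (x + y) ≤ N x + N y) ∧
      (∀ (r : ℝ) (x : X), N (r • x) = |r| * N x) ∧
      (∃ c C : ℝ, 0 < c ∧ 0 < C ∧ ∀ x : X, c * ‖x‖ ≤ N x ∧ N x ≤ C * ‖x‖) ∧
      (∀ x : X, N (T x) = N x) ∧
      (∀ x y : X, N x = 1 → N y = 1 → x ≠ y → N (x + y) < 2) := by
  obtain ⟨F, hF1, hF⟩ := exists_seq T
  have hle : ∀ k x, Nf T (F k) x ≤ ‖x‖ := fun k x => by
    calc _ ≤ ‖F k‖ * ‖x‖ := Nf_le T (F k) x
      _ ≤ 1 * ‖x‖ := by gcongr; exact hF1 k
      _ = ‖x‖ := one_mul _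
  -- the square sum
  let a : ℕ → X → ℝ := fun k x => (1 / 2) ^ k * (Nf T (F k) x) ^ 2
  have ha0 : ∀ k x, 0 ≤ a k x := fun k x => by positivity
  have hale : ∀ k x, a k x ≤ (1 / 2) ^ k * ‖x‖ ^ 2 := fun k x => by
    have := hle k x
    have := Nf_nonneg T (F k) x
    show (1 / 2) ^ k * (Nf T (F k) x) ^ 2 ≤ (1 / 2) ^ k * ‖x‖ ^ 2
    gcongr
  have hgeo : Summable fun k : ℕ => ((1:ℝ) / 2) ^ k := summable_geometric_two
  have hsum : ∀ x, Summable fun k => a k x := fun x =>
    Summable.of_nonneg_of_le (ha0 · x) (hale · x) (hgeo.mul_right _)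
  let S : X → ℝ := fun x => ‖x‖ ^ 2 + ∑' k, a k x
  have hS0 : ∀ x, ‖x‖ ^ 2 ≤ S x := fun x => by
    have : 0 ≤ ∑' k, a k x := tsum_nonneg (ha0 · x)
    show ‖x‖ ^ 2 ≤ ‖x‖ ^ 2 + _
    linarith
  have hSnn : ∀ x, 0 ≤ S x := fun x => (sq_nonneg _).trans (hS0 x)
  have hSup : ∀ x, S x ≤ 3 * ‖x‖ ^ 2 := fun x => by
    have : ∑' k, a k x ≤ ∑' k : ℕ, (1 / 2) ^ k * ‖x‖ ^ 2 :=
      Summable.tsum_le_tsum (hale · x) (hsum x) (hgeo.mul_right _)
    rw [tsum_mul_right, tsum_geometric_two] at this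
    show ‖x‖ ^ 2 + _ ≤ _
    linarith
  -- termwise inequality
  have hterm : ∀ k x y (l : ℝ), 0 < l →
      a k (x + y) ≤ (1 + l) * a k x + (1 + 1 / l) * a k y := by
    intro k x y l hl
    have h1 := Nf_add T (F k) x y
    have h2 := Nf_nonneg T (F k) x
    have h3 := Nf_nonneg T (F k) y
    have h4 := Nf_nonneg T (F k) (x + y)
    set p := Nf T (F k) x
    set q := Nf T (F k) y
    set r := Nf T (F k) (x + y)
    have h5 : r ^ 2 ≤ (p + q) ^ 2 := by gcongr
    have h6 : (p + q) ^ 2 ≤ (1 + l) * p ^ 2 + (1 + 1 / l) * q ^ 2 := by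
      have : (1 + l) * p ^ 2 + (1 + 1 / l) * q ^ 2 - (p + q) ^ 2 = (l * p - q) ^ 2 / l := by
        field_simp; ring
      have : 0 ≤ (l * p - q) ^ 2 / l := by positivity
      linarith
    show (1 / 2) ^ k * r ^ 2 ≤ (1 + l) * ((1 / 2) ^ k * p ^ 2) + (1 + 1 / l) * ((1 / 2) ^ k * q ^ 2)
    have h7 : (0:ℝ) < (1 / 2) ^ k := by positivity
    nlinarith
  have hSadd : ∀ x y (l : ℝ), 0 < l → S (x + y) ≤ (1 + l) * S x + (1 + 1 / l) * S y := by
    intro x y l hl
    have h1 : ∑' k, a k (x + y) ≤ ∑' k, ((1 + l) * a k x + (1 + 1 / l) * a k y) :=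
      Summable.tsum_le_tsum (fun k => hterm k x y l hl) (hsum _)
        (((hsum x).mul_left _).add ((hsum y).mul_left _))
    rw [((hsum x).mul_left _).tsum_add ((hsum y).mul_left _), tsum_mul_left, tsum_mul_left] at h1
    have h5 : ‖x + y‖ ^ 2 ≤ (‖x‖ + ‖y‖) ^ 2 := by
      gcongr; exact norm_add_le x y
    have h6 : (‖x‖ + ‖y‖) ^ 2 ≤ (1 + l) * ‖x‖ ^ 2 + (1 + 1 / l) * ‖y‖ ^ 2 := by
      have : (1 + l) * ‖x‖ ^ 2 + (1 + 1 / l) * ‖y‖ ^ 2 - (‖x‖ + ‖y‖) ^ 2
          = (l * ‖x‖ - ‖y‖) ^ 2 / l := by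
        field_simp; ring
      have : 0 ≤ (l * ‖x‖ - ‖y‖) ^ 2 / l := by positivity
      linarith
    show ‖x + y‖ ^ 2 + ∑' k, a k (x + y) ≤ (1 + l) * (‖x‖ ^ 2 + ∑' k, a k x)
      + (1 + 1 / l) * (‖y‖ ^ 2 + ∑' k, a k y)
    linarith
  have hS_smul : ∀ (r : ℝ) x, S (r • x) = r ^ 2 * S x := by
    intro r x
    show ‖r • x‖ ^ 2 + ∑' k, a k (r • x) = r ^ 2 * (‖x‖ ^ 2 + ∑' k, a k x)
    have : ∀ k, a k (r • x) = r ^ 2 * a k x := by
      intro k
      show (1 / 2) ^ k * (Nf T (F k) (r • x)) ^ 2 = r ^ 2 * ((1 / 2) ^ k * (Nf T (F k) x) ^ 2)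
      rw [Nf_smul, mul_pow, sq_abs]; ring
    simp_rw [this]
    rw [tsum_mul_left, norm_smul, mul_pow, Real.norm_eq_abs, sq_abs]; ring
  refine ⟨fun x => Real.sqrt (S x), ?_, ?_, ⟨1, 2, one_pos, two_pos, ?_⟩, ?_, ?_⟩
  · -- subadditivity
    intro x y
    show Real.sqrt (S (x + y)) ≤ Real.sqrt (S x) + Real.sqrt (S y)
    set p := Real.sqrt (S x) with hp
    set q := Real.sqrt (S y) with hq
    have hp2 : S x = p ^ 2 := (Real.sq_sqrt (hSnn x)).symm
    have hq2 : S y = q ^ 2 := (Real.sq_sqrt (hSnn y)).symm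
    have hp0 : 0 ≤ p := Real.sqrt_nonneg _
    have hq0 : 0 ≤ q := Real.sqrt_nonneg _
    rcases hp0.eq_or_lt with hp00 | hp00
    · have : S x = 0 := by rw [hp2, ← hp00]; ring
      have hx0 : x = 0 := by
        have h1 := hS0 x
        rw [this] at h1
        have : ‖x‖ = 0 := by nlinarith [norm_nonneg x]
        exact norm_eq_zero.mp this
      rw [hx0, zero_add]; linarith
    rcases hq0.eq_or_lt with hq00 | hq00
    · have : S y = 0 := by rw [hq2, ← hq00]; ring
      have hy0 : y = 0 := by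
        have h1 := hS0 y
        rw [this] at h1
        have : ‖y‖ = 0 := by nlinarith [norm_nonneg y]
        exact norm_eq_zero.mp this
      rw [hy0, add_zero]; linarith
    apply Real.sqrt_le_iff.mpr
    refine ⟨by linarith, ?_⟩
    have := hSadd x y (q / p) (by positivity)
    rw [hp2, hq2] at this
    have e : (1 + q / p) * p ^ 2 + (1 + 1 / (q / p)) * q ^ 2 = (p + q) ^ 2 := by
      field_simp; ring
    linarith
  · intro r x
    show Real.sqrt (S (r • x)) = |r| * Real.sqrt (S x)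
    rw [hS_smul, Real.sqrt_mul (sq_nonneg r), Real.sqrt_sq_eq_abs]
  · intro x
    show 1 * ‖x‖ ≤ Real.sqrt (S x) ∧ Real.sqrt (S x) ≤ 2 * ‖x‖
    constructor
    · rw [one_mul]
      exact Real.le_sqrt_of_sq_le (hS0 x)
    · apply Real.sqrt_le_iff.mpr
      refine ⟨by positivity, ?_⟩
      have := hSup x
      nlinarith [sq_nonneg ‖x‖]
  · intro x
    show Real.sqrt (S (T x)) = Real.sqrt (S x)
    congr 1
    show ‖T x‖ ^ 2 + ∑' k, a k (T x) = ‖x‖ ^ 2 + ∑' k, a k x
    have : ∀ k, a k (T x) = a k x := by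
      intro k
      show (1 / 2) ^ k * (Nf T (F k) (T x)) ^ 2 = (1 / 2) ^ k * (Nf T (F k) x) ^ 2
      rw [Nf_inv]
    simp_rw [this]
    rw [LinearIsometryEquiv.norm_map]
  · intro x y hx hy hxy
    have hx' : Real.sqrt (S x) = 1 := hx
    have hy' : Real.sqrt (S y) = 1 := hy
    show Real.sqrt (S (x + y)) < 2
    have hSx : S x = 1 := by
      have := Real.sq_sqrt (hSnn x); rw [hx'] at this; linarith
    have hSy : S y = 1 := by
      have := Real.sq_sqrt (hSnn y); rw [hy'] at this; linarith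
    -- find a strict index
    have hk : ∃ k, a k (x + y) < 2 * a k x + 2 * a k y := by
      by_contra hcon
      push Not at hcon
      -- all the seminorms agree
      have heq : ∀ k, Nf T (F k) x = Nf T (F k) y ∧
          Nf T (F k) (x + y) = 2 * Nf T (F k) x := by
        intro k
        have h0 := hcon k
        have h1 := Nf_add T (F k) x y
        have h2 := Nf_nonneg T (F k) x
        have h3 := Nf_nonneg T (F k) y
        have h4 := Nf_nonneg T (F k) (x + y)
        have h0' : 2 * ((1 / 2) ^ k * Nf T (F k) x ^ 2) + 2 * ((1 / 2) ^ k * Nf T (F k) y ^ 2)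
            ≤ (1 / 2) ^ k * Nf T (F k) (x + y) ^ 2 := h0
        set p := Nf T (F k) x
        set q := Nf T (F k) y
        set r := Nf T (F k) (x + y)
        have h7 : (0:ℝ) < (1 / 2) ^ k := by positivity
        have h8 : 2 * p ^ 2 + 2 * q ^ 2 ≤ r ^ 2 := by
          have : (1 / 2 : ℝ) ^ k * (2 * p ^ 2 + 2 * q ^ 2) ≤ (1 / 2) ^ k * r ^ 2 := by linarith
          exact le_of_mul_le_mul_left this h7
        have h9 : r ^ 2 ≤ (p + q) ^ 2 := by gcongr
        have h10 : (p - q) ^ 2 ≤ 0 := by nlinarith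
        have h11 : p = q := by
          have := pow_eq_zero_iff (two_ne_zero) |>.mp (le_antisymm h10 (sq_nonneg _))
          linarith
        refine ⟨h11, ?_⟩
        have h12 : (2 * p) ^ 2 ≤ r ^ 2 := by rw [← h11] at h8; linarith
        have h13 : 2 * p ≤ r := by
          exact le_of_sq_le_sq h12 h4
        linarith
      -- pass to all functionals of norm ≤ 1
      have heq1 : ∀ f : StrongDual ℝ X, ‖f‖ ≤ 1 → Nf T f x = Nf T f y ∧
          Nf T f (x + y) = 2 * Nf T f x := by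
        classical
        intro f hf
        have hclose : ∀ ε : ℝ, 0 < ε → |Nf T f x - Nf T f y| ≤ 2 * ε ∧
            |Nf T f (x + y) - 2 * Nf T f x| ≤ 3 * ε := by
          intro ε hε
          obtain ⟨k, hk⟩ := hF f hf {x, y, x + y} ε hε
          have h1 := hk x (by simp)
          have h2 := hk y (by simp)
          have h3 := hk (x + y) (by simp)
          obtain ⟨e1, e2⟩ := heq k
          rw [abs_lt] at h1 h2 h3
          rw [abs_le, abs_le]
          refine ⟨⟨?_, ?_⟩, ?_, ?_⟩ <;> linarith [h1.1, h1.2, h2.1, h2.2, h3.1, h3.2]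
        have hz : ∀ t : ℝ, (∀ ε : ℝ, 0 < ε → |t| ≤ 3 * ε) → t = 0 := by
          intro t ht
          by_contra hne
          have hpos : 0 < |t| := abs_pos.mpr hne
          have := ht (|t| / 6) (by positivity)
          linarith
        constructor
        · have := hz (Nf T f x - Nf T f y) (fun ε hε => by
            have := (hclose ε hε).1; linarith)
          linarith
        · have := hz _ (fun ε hε => (hclose ε hε).2)
          linarith
      have heq2 : ∀ f : StrongDual ℝ X, Nf T f x = Nf T f y ∧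
          Nf T f (x + y) = 2 * Nf T f x := by
        intro f
        by_cases hf0 : ‖f‖ = 0
        · apply heq1 f (by rw [hf0]; exact zero_le_one)
        · have hfpos : 0 < ‖f‖ := lt_of_le_of_ne (norm_nonneg _) (Ne.symm hf0)
          have hg : ‖(‖f‖⁻¹) • f‖ ≤ 1 := by
            rw [norm_smul, norm_inv, norm_norm, inv_mul_cancel₀ hf0]
          obtain ⟨e1, e2⟩ := heq1 _ hg
          rw [Nf_fsmul, Nf_fsmul] at e1
          rw [Nf_fsmul, Nf_fsmul] at e2
          have hab : 0 < |‖f‖⁻¹| := abs_pos.mpr (inv_ne_zero hf0)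
          constructor
          · exact mul_left_cancel₀ hab.ne' e1
          · apply mul_left_cancel₀ hab.ne'
            rw [e2]; ring
      -- midpoint
      set z := (1 / 2 : ℝ) • (x + y) with hz
      have hz2 : x + y = (2 : ℝ) • z := by
        rw [hz, smul_smul]; norm_num
      have hNz : ∀ f : StrongDual ℝ X, Nf T f z = Nf T f x := by
        intro f
        rw [hz, Nf_smul, (heq2 f).2]
        rw [abs_of_pos (by norm_num)]; ring
      have hxz : x = z := separate T x y z hz2 (fun f => (hNz f).ge)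
        (fun f => by rw [hNz f, (heq2 f).1])
      apply hxy
      have : x + y = x + x := by rw [hz2, ← hxz, two_smul]
      exact (add_left_cancel this).symm
    obtain ⟨k, hk⟩ := hk
    have hlt : ∑' k, a k (x + y) < ∑' k, (2 * a k x + 2 * a k y) := by
      apply Summable.tsum_lt_tsum (i := k) _ hk (hsum _)
        (((hsum x).mul_left _).add ((hsum y).mul_left _))
      intro k'
      have := hterm k' x y 1 one_pos
      norm_num at this
      exact this
    rw [((hsum x).mul_left _).tsum_add ((hsum y).mul_left _), tsum_mul_left, tsum_mul_left] at hlt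
    have hn : ‖x + y‖ ^ 2 ≤ 2 * ‖x‖ ^ 2 + 2 * ‖y‖ ^ 2 := by
      have h5 : ‖x + y‖ ^ 2 ≤ (‖x‖ + ‖y‖) ^ 2 := by
        gcongr; exact norm_add_le x y
      nlinarith [sq_nonneg (‖x‖ - ‖y‖)]
    have hfin : S (x + y) < 2 ^ 2 := by
      have e1 : S (x + y) = ‖x + y‖ ^ 2 + ∑' k, a k (x + y) := rfl
      have e2 : S x = ‖x‖ ^ 2 + ∑' k, a k x := rfl
      have e3 : S y = ‖y‖ ^ 2 + ∑' k, a k y := rfl
      rw [e1]
      linarith
    rw [Real.sqrt_lt' two_pos]
    exact hfin

end Pool.Agent.Helper39.Renorm
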